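import Mathlib
import Pool.Agent.H15.Univ.Defs

/-!
UNIV module M3 (level zero): greedy exponential moment.
-/

set_option autoImplicit false
open Classical Finset

namespace Pool.H15.Univ

/-- number of greedy (cyclic) hits of the tuple `(X, y)` among the columns `< c`. -/
noncomputable def hits {R : ℕ} (hR : 0 < R) (W X : ℕ) (y : Fin R → ℕ) (V : ℕ → ℕ) : ℕ → ℕ
  | 0 => 0
  | c + 1 => hits hR W X y V c +
      if c / W = X ∧ V c = y ⟨hits hR W X y V c % R, Nat.mod_lt _ hR⟩ then 1 else 0

theorem hits_congr {R : ℕ} (hR : 0 < R) (W X : ℕ) (y : Fin R → ℕ) (V V' : ℕ → ℕ) (c : ℕ)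
    (h : ∀ i < c, V i = V' i) : hits hR W X y V c = hits hR W X y V' c := by
  induction c with
  | zero => rfl
  | succ c ih =>
    have h1 := ih (fun i hi => h i (by omega))
    have h2 := h c (by omega)
    simp only [hits, h1, h2]

theorem exists_of_hits {R : ℕ} (hR : 0 < R) (W X : ℕ) (y : Fin R → ℕ) (V : ℕ → ℕ) (c : ℕ) :
    ∀ t : ℕ, t ≤ R → t ≤ hits hR W X y V c →
      ∃ g : ℕ → ℕ, (∀ i < t, g i < c ∧ g i / W = X ∧ ∀ hi : i < R, V (g i) = y ⟨i, hi⟩) ∧
        ∀ i j, i < j → j < t → g i < g j := by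
  induction c with
  | zero =>
    intro t ht h
    have : t = 0 := by simpa [hits] using h
    subst this
    exact ⟨fun i => i, fun i hi => absurd hi (by omega), fun i j _ hj => absurd hj (by omega)⟩
  | succ c ih =>
    intro t ht h
    by_cases h1 : t ≤ hits hR W X y V c
    · obtain ⟨g, hg1, hg2⟩ := ih t ht h1
      refine ⟨g, fun i hi => ?_, hg2⟩
      obtain ⟨a, b⟩ := hg1 i hi
      exact ⟨by omega, b⟩
    · simp only [hits] at h
      split_ifs at h with hc
      · have h2 : t = hits hR W X y V c + 1 := by omega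
        have h3 : hits hR W X y V c < R := by omega
        obtain ⟨g, hg1, hg2⟩ := ih (hits hR W X y V c) (by omega) le_rfl
        refine ⟨fun i => if i = hits hR W X y V c then c else g i, fun i hi => ?_, ?_⟩
        · by_cases hi2 : i = hits hR W X y V c
          · simp only [hi2, if_true]
            refine ⟨by omega, hc.1, fun hi3 => ?_⟩
            rw [hc.2]
            congr 1
            simp only [Fin.mk.injEq]
            exact Nat.mod_eq_of_lt h3
          · simp only [hi2, if_false]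
            obtain ⟨a, b⟩ := hg1 i (by omega)
            exact ⟨by omega, b⟩
        · intro i j hij hj
          have hi2 : i ≠ hits hR W X y V c := by omega
          by_cases hj2 : j = hits hR W X y V c
          · simp only [hi2, hj2, if_false, if_true]
            exact (hg1 i (by omega)).1
          · simp only [hi2, hj2, if_false]
            exact hg2 i j hij (by omega)
      · omega

/-- extend by zero. -/
noncomputable def extV {n N : ℕ} (V : Fin n → Fin N) (c : ℕ) : ℕ :=
  if h : c < n then (V ⟨c, h⟩ : ℕ) else 0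

theorem emb_of_hits {n N R : ℕ} (hR : 0 < R) (V : Fin n → Fin N) (W X : ℕ) (y : Fin R → ℕ)
    (h : R ≤ hits hR W X y (extV V) n) : Emb V W X y := by
  obtain ⟨g, hg1, hg2⟩ := exists_of_hits hR W X y (extV V) n R le_rfl h
  refine ⟨fun l => ⟨g l, (hg1 l l.2).1⟩, ?_, ?_⟩
  · intro i j hij
    exact hg2 i j hij j.2
  · intro l
    obtain ⟨a, b, c⟩ := hg1 l l.2
    refine ⟨b, ?_⟩
    have := c l.2
    simp only [extV, a, dif_pos] at this
    exact this

/-- one column. -/
theorem sum_one_column {N : ℕ} {ι : Type*} (hN : 0 < N) (z : ℝ)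
    (A : Finset ι) (tg : ι → ℕ) (htg : ∀ f ∈ A, tg f < N)
    (hinj : ∀ f ∈ A, ∀ g ∈ A, f ≠ g → tg f ≠ tg g) :
    ∑ v : Fin N, z ^ (∑ f ∈ A, if (v : ℕ) = tg f then 1 else 0) ≤
      N * Real.exp (-((1 - z) * A.card / N)) := by
  have hN' : (0 : ℝ) < N := by exact_mod_cast hN
  have h1 : ∀ v : Fin N, z ^ (∑ f ∈ A, if (v : ℕ) = tg f then 1 else 0) ≤
      1 - (1 - z) * (∑ f ∈ A, if (v : ℕ) = tg f then (1 : ℝ) else 0) := by
    intro v
    by_cases hv : ∃ f ∈ A, (v : ℕ) = tg f
    · obtain ⟨f, hf, hvf⟩ := hv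
      have h2 : ∀ g ∈ A, g ≠ f → ¬ ((v : ℕ) = tg g) := by
        intro g hg hgf h
        exact hinj f hf g hg hgf.symm (by omega)
      rw [Finset.sum_eq_single f, Finset.sum_eq_single f]
      · simp [hvf]
      · intro g hg hgf; simp [h2 g hg hgf]
      · intro h; exact absurd hf h
      · intro g hg hgf; simp [h2 g hg hgf]
      · intro h; exact absurd hf h
    · push Not at hv
      rw [Finset.sum_eq_zero (fun f hf => by simp [hv f hf]),
        Finset.sum_eq_zero (fun f hf => by simp [hv f hf])]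
      simp
  have h3 : ∑ v : Fin N, (∑ f ∈ A, if (v : ℕ) = tg f then (1 : ℝ) else 0) = A.card := by
    rw [Finset.sum_comm]
    have : ∀ f ∈ A, (∑ v : Fin N, if (v : ℕ) = tg f then (1 : ℝ) else 0) = 1 := by
      intro f hf
      rw [Finset.sum_eq_single (⟨tg f, htg f hf⟩ : Fin N)]
      · simp
      · intro v _ hv
        have : (v : ℕ) ≠ tg f := fun h => hv (Fin.ext h)
        simp [this]
      · intro h; exact absurd (Finset.mem_univ _) h
    rw [Finset.sum_congr rfl this]
    simp
  calc ∑ v : Fin N, z ^ (∑ f ∈ A, if (v : ℕ) = tg f then 1 else 0)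
      ≤ ∑ v : Fin N, (1 - (1 - z) * (∑ f ∈ A, if (v : ℕ) = tg f then (1 : ℝ) else 0)) :=
        Finset.sum_le_sum fun v _ => h1 v
    _ = N - (1 - z) * A.card := by
        rw [Finset.sum_sub_distrib, ← Finset.mul_sum, h3]
        simp
    _ = N * (1 - (1 - z) * A.card / N) := by field_simp
    _ ≤ N * Real.exp (-((1 - z) * A.card / N)) := by
        apply mul_le_mul_of_nonneg_left _ hN'.le
        have := Real.add_one_le_exp (-((1 - z) * A.card / N))
        linarith

theorem moment_all {N R : ℕ} (hR : 0 < R) (W : ℕ) (hN : 0 < N) (z : ℝ) (hz : 0 < z)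
    (F : Finset (ℕ × (Fin R → ℕ)))
    (hy : ∀ f ∈ F, ∀ l, f.2 l < N)
    (hsep : ∀ f ∈ F, ∀ g ∈ F, f ≠ g → f.1 ≠ g.1 ∨ ∀ l l', f.2 l ≠ g.2 l') (n : ℕ) :
    ∑ V : Fin n → Fin N, z ^ (∑ f ∈ F, hits hR W f.1 f.2 (extV V) n) ≤
      ∏ c ∈ range n, (N * Real.exp (-((1 - z) * (F.filter fun f => c / W = f.1).card / N))) := by
  induction n with
  | zero => simp [hits]
  | succ n ih =>
    rw [Finset.prod_range_succ]
    have e1 : ∑ V : Fin (n + 1) → Fin N, z ^ (∑ f ∈ F, hits hR W f.1 f.2 (extV V) (n + 1)) =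
        ∑ V : Fin n → Fin N, ∑ v : Fin N,
          z ^ (∑ f ∈ F, hits hR W f.1 f.2 (extV (Fin.snoc V v : Fin (n + 1) → Fin N)) (n + 1)) := by
      rw [← (Fin.snocEquiv (fun _ : Fin (n + 1) => Fin N)).sum_comp, Fintype.sum_prod_type,
        Finset.sum_comm]
      rfl
    rw [e1]
    calc _ ≤ ∑ V : Fin n → Fin N, z ^ (∑ f ∈ F, hits hR W f.1 f.2 (extV V) n) *
          (N * Real.exp (-((1 - z) * (F.filter fun f => n / W = f.1).card / N))) := ?_
      _ ≤ _ := by
        rw [← Finset.sum_mul]
        exact mul_le_mul_of_nonneg_right ih (by positivity)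
    apply Finset.sum_le_sum
    intro V _
    have e2 : ∀ v : Fin N, z ^ (∑ f ∈ F, hits hR W f.1 f.2
        (extV (Fin.snoc V v : Fin (n + 1) → Fin N)) (n + 1)) =
        z ^ (∑ f ∈ F, hits hR W f.1 f.2 (extV V) n) *
        z ^ (∑ f ∈ F.filter (fun f => n / W = f.1), if (v : ℕ) =
          f.2 ⟨hits hR W f.1 f.2 (extV V) n % R, Nat.mod_lt _ hR⟩ then 1 else 0) := by
      intro v
      have e3 : ∀ f : ℕ × (Fin R → ℕ),
          hits hR W f.1 f.2 (extV (Fin.snoc V v : Fin (n + 1) → Fin N)) n =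
          hits hR W f.1 f.2 (extV V) n := by
        intro f
        apply hits_congr
        intro i hi
        have h1 : i < n + 1 := by omega
        simp only [extV, h1, hi, dif_pos]
        have : (⟨i, h1⟩ : Fin (n + 1)) = Fin.castSucc ⟨i, hi⟩ := rfl
        rw [this, Fin.snoc_castSucc (α := fun _ => Fin N)]
      have e4 : extV (Fin.snoc V v : Fin (n + 1) → Fin N) n = v := by
        have h1 : n < n + 1 := by omega
        simp only [extV, h1, dif_pos]
        have : (⟨n, h1⟩ : Fin (n + 1)) = Fin.last n := rfl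
        rw [this, Fin.snoc_last (α := fun _ => Fin N)]
      rw [← pow_add]
      congr 1
      rw [Finset.sum_filter, ← Finset.sum_add_distrib]
      apply Finset.sum_congr rfl
      intro f hf
      simp only [hits, e3 f, e4]
      congr 1
      by_cases h : n / W = f.1 <;> simp [h]
    rw [Finset.sum_congr rfl (fun v _ => e2 v), ← Finset.mul_sum]
    apply mul_le_mul_of_nonneg_left _ (by positivity)
    apply sum_one_column hN z
    · intro f hf
      exact hy f (Finset.mem_filter.mp hf).1 _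
    · intro f hf g hg hfg
      rw [Finset.mem_filter] at hf hg
      rcases hsep f hf.1 g hg.1 hfg with h | h
      · exact absurd (hf.2.symm.trans hg.2) h
      · exact h _ _

theorem count_block {n W B X : ℕ} (hBW : B * W ≤ n) (hX : X < B) :
    W ≤ ((range n).filter fun c => c / W = X).card := by
  have : (Finset.Ico (X * W) (X * W + W)) ⊆ (range n).filter fun c => c / W = X := by
    intro c hc
    rw [Finset.mem_Ico] at hc
    rw [Finset.mem_filter, Finset.mem_range]
    have h1 : X * W + W ≤ B * W := by nlinarith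
    refine ⟨by omega, ?_⟩
    exact Nat.div_eq_of_lt_le (by linarith) (by linarith)
  calc W = (Finset.Ico (X * W) (X * W + W)).card := by simp
    _ ≤ _ := Finset.card_le_card this

theorem level_zero {n N R : ℕ} (W B : ℕ) (hBW : B * W ≤ n) (hN : 0 < N) (z : ℝ) (hz : 0 < z)
    (hz1 : z ≤ 1) (F : Finset (ℕ × (Fin R → ℕ)))
    (hX : ∀ f ∈ F, f.1 < B) (hy : ∀ f ∈ F, ∀ l, f.2 l < N)
    (hsep : ∀ f ∈ F, ∀ g ∈ F, f ≠ g → f.1 ≠ g.1 ∨ ∀ l l', f.2 l ≠ g.2 l') :
    ((univ.filter fun V : Fin n → Fin N => ∀ f ∈ F, ¬ Emb V W f.1 f.2).card : ℝ) ≤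
      (N : ℝ) ^ n * ((z ^ R)⁻¹ * Real.exp (-((1 - z) * W / N))) ^ F.card := by
  have hN' : (0 : ℝ) < N := by exact_mod_cast hN
  have hall : ((univ.filter fun V : Fin n → Fin N => ∀ f ∈ F, ¬ Emb V W f.1 f.2).card : ℝ) ≤
      (N : ℝ) ^ n := by
    have h1 : (univ.filter fun V : Fin n → Fin N => ∀ f ∈ F, ¬ Emb V W f.1 f.2).card ≤ N ^ n := by
      refine (Finset.card_filter_le _ _).trans ?_
      simp
    exact_mod_cast h1
  rcases Nat.eq_zero_or_pos R with hR | hR
  · subst hR
    rcases F.eq_empty_or_nonempty with hF | ⟨f, hf⟩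
    · subst hF; simp
    · have : (univ.filter fun V : Fin n → Fin N => ∀ f ∈ F, ¬ Emb V W f.1 f.2) = ∅ := by
        apply Finset.filter_false_of_mem
        intro V _ h
        exact h f hf ⟨fun l => l.elim0, fun i => i.elim0, fun l => l.elim0⟩
      rw [this]
      simp only [Finset.card_empty, Nat.cast_zero]
      positivity
  rcases Nat.eq_zero_or_pos W with hW | hW
  · subst hW
    refine hall.trans ?_
    apply le_mul_of_one_le_right (by positivity)
    apply one_le_pow₀
    simp only [Nat.cast_zero, mul_zero, zero_div, neg_zero, Real.exp_zero, mul_one]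
    exact (one_le_inv₀ (by positivity)).mpr (pow_le_one₀ hz.le hz1)
  have h1 : ((univ.filter fun V : Fin n → Fin N => ∀ f ∈ F, ¬ Emb V W f.1 f.2).card : ℝ) ≤
      ∑ V : Fin n → Fin N, (z ^ (R * F.card))⁻¹ *
        z ^ (∑ f ∈ F, hits hR W f.1 f.2 (extV V) n) := by
    rw [Finset.card_filter]
    push_cast
    apply Finset.sum_le_sum
    intro V _
    split_ifs with h
    · have h2 : ∑ f ∈ F, hits hR W f.1 f.2 (extV V) n ≤ R * F.card := by
        rw [mul_comm]
        apply Finset.sum_le_card_nsmul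
        intro f hf
        by_contra hcon
        push Not at hcon
        exact h f hf (emb_of_hits hR V W f.1 f.2 hcon.le)
      have h3 : z ^ (R * F.card) ≤ z ^ (∑ f ∈ F, hits hR W f.1 f.2 (extV V) n) :=
        pow_le_pow_of_le_one hz.le hz1 h2
      rw [inv_mul_eq_div, le_div_iff₀ (by positivity), one_mul]
      exact h3
    · positivity
  refine h1.trans ?_
  rw [← Finset.mul_sum]
  have h2 := moment_all hR W hN z hz F hy hsep n
  have h3 : ∏ c ∈ range n, (N * Real.exp (-((1 - z) *
      (F.filter fun f => c / W = f.1).card / N))) ≤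
      (N : ℝ) ^ n * Real.exp (-((1 - z) * W / N)) ^ F.card := by
    rw [Finset.prod_mul_distrib, Finset.prod_const, Finset.card_range, ← Real.exp_sum,
      ← Real.exp_nat_mul]
    apply mul_le_mul_of_nonneg_left _ (by positivity)
    apply Real.exp_le_exp.mpr
    rw [Finset.sum_neg_distrib, mul_neg]
    apply neg_le_neg
    rw [← Finset.sum_div, ← Finset.mul_sum, ← mul_div_assoc]
    apply div_le_div_of_nonneg_right _ hN'.le
    have h4 : F.card * W ≤ ∑ c ∈ range n, (F.filter fun f => c / W = f.1).card := by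
      have e1 : ∑ c ∈ range n, (F.filter fun f => c / W = f.1).card =
          ∑ f ∈ F, ((range n).filter fun c => c / W = f.1).card := by
        simp only [Finset.card_filter]
        rw [Finset.sum_comm]
      rw [e1]
      rw [← smul_eq_mul]
      apply Finset.card_nsmul_le_sum
      intro f hf
      exact count_block hBW (hX f hf)
    have h5 : (F.card : ℝ) * W ≤ ∑ c ∈ range n, ((F.filter fun f => c / W = f.1).card : ℝ) := by
      exact_mod_cast h4
    have h6 : 0 ≤ 1 - z := by linarith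
    calc (F.card : ℝ) * ((1 - z) * W) = (1 - z) * (F.card * W) := by ring
      _ ≤ _ := mul_le_mul_of_nonneg_left h5 h6
  have h4 : ∑ V : Fin n → Fin N, z ^ (∑ f ∈ F, hits hR W f.1 f.2 (extV V) n) ≤
      (N : ℝ) ^ n * Real.exp (-((1 - z) * W / N)) ^ F.card := h2.trans h3
  calc _ ≤ (z ^ (R * F.card))⁻¹ * ((N : ℝ) ^ n * Real.exp (-((1 - z) * W / N)) ^ F.card) :=
        mul_le_mul_of_nonneg_left h4 (by positivity)
    _ = _ := by rw [mul_pow, pow_mul, inv_pow]; ring

end Pool.H15.Univ
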