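import Mathlib
import Pool.Agent.H15.Univ.Defs

/-!
UNIV module M7a: numeric parameter choice.
-/

set_option autoImplicit false
open Classical Finset

namespace Pool.H15.Univ

/-- exponents of the ranges. -/
def hh (G : ℕ) : ℕ → ℕ
  | 0 => 0
  | j + 1 => 2 * hh G j + (G + 2 * j)

/-- ratios of consecutive ranges. -/
def rr (G : ℕ) (j : ℕ) : ℕ := 2 ^ (hh G j + (G + 2 * j))

theorem rho_rr (G j : ℕ) : rho (rr G) j = 2 ^ hh G j := by
  induction j with
  | zero => simp [rho, hh]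
  | succ j ih =>
    have : rho (rr G) (j + 1) = rho (rr G) j * rr G j := by
      simp [rho, Finset.prod_range_succ]
    rw [this, ih, rr, ← pow_add, hh]
    congr 1
    ring

theorem hh_closed (G j : ℕ) : hh G j + 2 * j + (G + 2) = (G + 2) * 2 ^ j := by
  induction j with
  | zero => simp [hh]
  | succ j ih =>
    rw [pow_succ, hh]
    linarith

/-- multiplicities. -/
def mm (G l : ℕ) (j : ℕ) : ℕ := 2 ^ (l + j + 1 + hh G (j + 1))

theorem c0 (l : ℕ) : 6 * (3 * l + 9) + 2 * l + 13 ≤ 2 ^ (l + 7) := by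
  induction l with
  | zero => norm_num
  | succ l ih =>
    have : 2 ^ (l + 1 + 7) = 2 ^ (l + 7) + 2 ^ (l + 7) := by ring
    have h2 : 2 ^ 7 ≤ 2 ^ (l + 7) := Nat.pow_le_pow_right (by norm_num) (by omega)
    omega

theorem c2 (l : ℕ) : 4 * (5 * (3 * l + 9) + l + 9) + 3 * l + 20 ≤ 2 ^ (3 * l + 8) := by
  induction l with
  | zero => norm_num
  | succ l ih =>
    have : 2 ^ (3 * (l + 1) + 8) = 8 * 2 ^ (3 * l + 8) := by
      rw [show 3 * (l + 1) + 8 = (3 * l + 8) + 3 by ring, pow_add]; ring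
    have h2 : 2 ^ 8 ≤ 2 ^ (3 * l + 8) := Nat.pow_le_pow_right (by norm_num) (by omega)
    omega

/-- bad probabilities. -/
noncomputable def pp (e : ℝ) (s : ℕ) : ℕ → ℝ
  | 0 => Real.exp (-(((2 ^ s : ℕ) : ℝ) * e ^ 2 / 4))
  | j + 1 => 2 ^ (s * 2 ^ s) / 2 ^ (2 ^ (2 * s + j))

theorem pp_nonneg (e : ℝ) (s j : ℕ) : 0 ≤ pp e s j := by
  cases j with
  | zero => exact (Real.exp_pos _).le
  | succ j => unfold pp; positivity

theorem D_le (s G l j : ℕ) :
    3 * (((2 ^ s : ℕ) : ℝ) + 1) * (mm G l j : ℕ) ≤ 2 ^ (s + 3 + (l + j + 1 + hh G (j + 1))) := by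
  have h1 : (1 : ℝ) ≤ 2 ^ s := one_le_pow₀ (by norm_num)
  have h2 : 3 * (((2 ^ s : ℕ) : ℝ) + 1) ≤ 2 ^ (s + 3) := by
    push_cast
    rw [pow_add]
    linarith
  rw [pow_add]
  apply mul_le_mul h2 _ (by positivity) (by positivity)
  simp [mm]

theorem half1 (e : ℝ) (l : ℕ) (hl : (1 / 2 : ℝ) ^ l ≤ e) (j : ℕ) :
    3 * (((2 ^ (3 * l + 9) : ℕ) : ℝ) + 1) * (mm (5 * (3 * l + 9) + l + 7) l j : ℕ) *
      pp e (3 * l + 9) j ≤ 1 / 4 := by
  set s := 3 * l + 9 with hs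
  set G := 5 * s + l + 7 with hG
  have hD := D_le s G l j
  cases j with
  | zero =>
    have h1 : pp e s 0 ≤ ((2 : ℝ) ^ (6 * s + 2 * l + 13))⁻¹ := by
      have h2 : pp e s 0 = Real.exp (-(((2 ^ s : ℕ) : ℝ) * e ^ 2 / 4)) := rfl
      rw [h2, Real.exp_neg]
      apply inv_anti₀ (by positivity)
      have h3 : (2 : ℝ) ^ (l + 7) ≤ ((2 ^ s : ℕ) : ℝ) * e ^ 2 / 4 := by
        have h4 : ((1 / 2 : ℝ) ^ l) ^ 2 ≤ e ^ 2 := pow_le_pow_left₀ (by positivity) hl 2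
        have h5 : (2 : ℝ) ^ (l + 7) = (2 : ℝ) ^ s * ((1 / 2 : ℝ) ^ l) ^ 2 / 4 := by
          have e1 : (2 : ℝ) ^ s = 2 ^ (l + 7) * 2 ^ (l * 2) * 4 := by
            rw [hs, show 3 * l + 9 = (l + 7) + (l * 2) + 2 by ring,
              pow_add (2 : ℝ) ((l + 7) + (l * 2)) 2, pow_add (2 : ℝ) (l + 7) (l * 2)]
            norm_num
          rw [e1, one_div, inv_pow, inv_pow, ← pow_mul]
          field_simp
        rw [h5]
        push_cast
        have := mul_le_mul_of_nonneg_left h4 (show (0 : ℝ) ≤ 2 ^ s by positivity)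
        linarith
      calc (2 : ℝ) ^ (6 * s + 2 * l + 13) ≤ 2 ^ (2 ^ (l + 7)) :=
            pow_le_pow_right₀ (by norm_num) (by rw [hs]; exact c0 l)
        _ ≤ Real.exp 1 ^ (2 ^ (l + 7)) :=
            pow_le_pow_left₀ (by norm_num) (by linarith [Real.add_one_le_exp (1 : ℝ)]) _
        _ = Real.exp ((2 : ℝ) ^ (l + 7)) := by
            rw [← Real.exp_nat_mul]; push_cast; rw [mul_one]
        _ ≤ _ := Real.exp_le_exp.mpr h3
    calc _ ≤ (2 : ℝ) ^ (s + 3 + (l + 0 + 1 + hh G (0 + 1))) * ((2 : ℝ) ^ (6 * s + 2 * l + 13))⁻¹ :=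
          mul_le_mul hD h1 (pp_nonneg _ _ _) (by positivity)
      _ = 1 / 4 := by
          have : 6 * s + 2 * l + 13 = (s + 3 + (l + 0 + 1 + hh G (0 + 1))) + 2 := by
            simp only [hh]; omega
          rw [this, pow_add _ _ 2]
          field_simp
          norm_num
  | succ j =>
    have h2 : pp e s (j + 1) = 2 ^ (s * 2 ^ s) / 2 ^ (2 ^ (2 * s + j)) := rfl
    rw [h2]
    have hc := hh_closed G (j + 2)
    have hc2 := c2 l
    have h3 : s + 3 + (l + (j + 1) + 1 + hh G (j + 1 + 1)) + s * 2 ^ s + 2 ≤ 2 ^ (2 * s + j) := by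
      have e1 : 4 * (G + 2) + s + 11 ≤ 2 ^ (s - 1) := by
        have : s - 1 = 3 * l + 8 := by omega
        rw [this]
        omega
      have e2 : 2 ^ s = 2 * 2 ^ (s - 1) := by
        rw [← pow_succ']; congr 1
      have e3 : 2 ^ (2 * s + j) = 2 ^ s * 2 ^ s * 2 ^ j := by
        rw [← pow_add, ← pow_add]; congr 1; ring
      have e4 : (G + 2) * 2 ^ (j + 2) = 4 * (G + 2) * 2 ^ j := by ring
      have e5 : 1 ≤ 2 ^ j := Nat.one_le_two_pow
      have e6 : 4 * (G + 2) + s * 2 ^ s ≤ 2 ^ s * 2 ^ s := by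
        have : 4 * (G + 2) ≤ 2 ^ (s - 1) * 2 ^ s := by
          calc 4 * (G + 2) ≤ 2 ^ (s - 1) := by omega
            _ ≤ 2 ^ (s - 1) * 2 ^ s := Nat.le_mul_of_pos_right _ (by positivity)
        have h7 : s * 2 ^ s ≤ 2 ^ (s - 1) * 2 ^ s := Nat.mul_le_mul_right _ (by omega)
        calc 4 * (G + 2) + s * 2 ^ s ≤ 2 ^ (s - 1) * 2 ^ s + 2 ^ (s - 1) * 2 ^ s :=
              Nat.add_le_add this h7
          _ = 2 ^ s * 2 ^ s := by
              conv_rhs => rw [e2]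
              rw [e2]; ring
      have e7 : 4 * (G + 2) * 2 ^ j + s * 2 ^ s ≤ 2 ^ s * 2 ^ s * 2 ^ j := by
        calc 4 * (G + 2) * 2 ^ j + s * 2 ^ s ≤ 4 * (G + 2) * 2 ^ j + s * 2 ^ s * 2 ^ j := by
              apply Nat.add_le_add_left
              exact Nat.le_mul_of_pos_right _ (by positivity)
          _ = (4 * (G + 2) + s * 2 ^ s) * 2 ^ j := by ring
          _ ≤ _ := Nat.mul_le_mul_right _ e6
      rw [e3]
      rw [e4] at hc
      have e8 : s + 3 + (l + (j + 1) + 1 + hh G (j + 1 + 1)) + s * 2 ^ s + 2 ≤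
          4 * (G + 2) * 2 ^ j + s * 2 ^ s := by
        have : hh G (j + 1 + 1) = hh G (j + 2) := rfl
        omega
      exact e8.trans e7
    calc _ ≤ (2 : ℝ) ^ (s + 3 + (l + (j + 1) + 1 + hh G (j + 1 + 1))) *
          (2 ^ (s * 2 ^ s) / 2 ^ (2 ^ (2 * s + j))) :=
          mul_le_mul_of_nonneg_right hD (by positivity)
      _ = 2 ^ (s + 3 + (l + (j + 1) + 1 + hh G (j + 1 + 1)) + s * 2 ^ s) /
          2 ^ (2 ^ (2 * s + j)) := by rw [pow_add _ _ (s * 2 ^ s)]; ring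
      _ ≤ 1 / 4 := by
          rw [div_le_div_iff₀ (by positivity) (by norm_num), one_mul]
          calc (2 : ℝ) ^ (s + 3 + (l + (j + 1) + 1 + hh G (j + 1 + 1)) + s * 2 ^ s) * 4 =
              2 ^ (s + 3 + (l + (j + 1) + 1 + hh G (j + 1 + 1)) + s * 2 ^ s + 2) := by
                rw [pow_add (2 : ℝ) (s + 3 + (l + (j + 1) + 1 + hh G (j + 1 + 1)) + s * 2 ^ s) 2]
                norm_num
            _ ≤ _ := pow_le_pow_right₀ (by norm_num) h3

theorem half2 (l j : ℕ) :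
    3 * (((2 ^ (3 * l + 9) : ℕ) : ℝ) + 1) * (mm (5 * (3 * l + 9) + l + 7) l j : ℕ) *
      (((2 ^ (2 * (3 * l + 9) + j) : ℕ) : ℝ) * (2 * ((2 ^ (3 * l + 9) : ℕ) : ℝ) ^ 2) /
        ((rr (5 * (3 * l + 9) + l + 7) j : ℕ) : ℝ) ^ 2) ≤ 1 / 4 := by
  set s := 3 * l + 9 with hs
  set G := 5 * s + l + 7 with hG
  have hD := D_le s G l j
  calc _ ≤ (2 : ℝ) ^ (s + 3 + (l + j + 1 + hh G (j + 1))) *
        (((2 ^ (2 * s + j) : ℕ) : ℝ) * (2 * ((2 ^ s : ℕ) : ℝ) ^ 2) /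
        ((rr G j : ℕ) : ℝ) ^ 2) := mul_le_mul_of_nonneg_right hD (by positivity)
    _ = 1 / 4 := by
      rw [rr]
      push_cast
      have e1 : (2 : ℝ) ^ (s + 3 + (l + j + 1 + hh G (j + 1))) * 2 ^ (2 * s + j) *
          (2 * (2 ^ s) ^ 2) * 4 = (2 ^ (hh G j + (G + 2 * j))) ^ 2 := by
        rw [← pow_mul, ← pow_mul]
        rw [show (4 : ℝ) = 2 ^ 2 by norm_num]
        rw [show (2 : ℝ) * 2 ^ (s * 2) = 2 ^ (s * 2 + 1) by rw [pow_succ]; ring]
        rw [← pow_add, ← pow_add, ← pow_add]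
        congr 1
        simp only [hh]
        omega
      rw [← mul_div_assoc, div_eq_div_iff (by positivity) (by norm_num), ← e1]
      ring

theorem params (e : ℝ) (he : 0 < e) (he1 : e ≤ 1) :
    ∃ (R : ℕ) (r m a : ℕ → ℕ) (p : ℕ → ℝ), 0 < R ∧ (∀ j, 0 < r j) ∧ (∀ j, 0 < m j) ∧
      (∀ j, 0 ≤ p j) ∧ p 0 = Real.exp (-(R * e ^ 2 / 4)) ∧
      (∀ j, (R : ℝ) ^ R *
        (3 * (R + 1) * m j * (p j + a j * (2 * R ^ 2) / (r j) ^ 2)) ^ (a j) ≤ p (j + 1)) ∧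
      (∀ J g : ℕ, ((∑ l ∈ range J, rho r (l + 1) * (g / m l) : ℕ) : ℝ) ≤ e * g) ∧
      ∀ η : ℝ, 0 < η → ∃ K : ℕ, ∀ k : ℕ, K ≤ k → ∃ J : ℕ,
        (rho r J : ℝ) ≤ η * k ∧ p J * (2 * (k : ℝ)) ^ (R + 1) ≤ η := by
  have _ := he1
  obtain ⟨l, hl⟩ := exists_pow_lt_of_lt_one he (show (1 / 2 : ℝ) < 1 by norm_num)
  have hl' := hl.le
  have hh1 := half1 e l hl'
  have hh2 := half2 l
  have hc2 := c2 l
  set s := 3 * l + 9 with hs
  set G := 5 * s + l + 7 with hG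
  clear_value s G
  refine ⟨2 ^ s, rr G, mm G l, fun j => 2 ^ (2 * s + j), pp e s, by positivity,
    fun j => by unfold rr; positivity, fun j => by unfold mm; positivity,
    pp_nonneg e s, rfl, ?_, ?_, ?_⟩
  · intro j
    have h1 := hh1 j
    have h2 := hh2 j
    have h3 : 3 * (((2 ^ s : ℕ) : ℝ) + 1) * (mm G l j : ℕ) * (pp e s j +
        ((2 ^ (2 * s + j) : ℕ) : ℝ) * (2 * ((2 ^ s : ℕ) : ℝ) ^ 2) / ((rr G j : ℕ) : ℝ) ^ 2) ≤
        1 / 2 := by
      rw [mul_add]; linarith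
    have h4 : 0 ≤ 3 * (((2 ^ s : ℕ) : ℝ) + 1) * (mm G l j : ℕ) * (pp e s j +
        ((2 ^ (2 * s + j) : ℕ) : ℝ) * (2 * ((2 ^ s : ℕ) : ℝ) ^ 2) / ((rr G j : ℕ) : ℝ) ^ 2) := by
      have := pp_nonneg e s j
      positivity
    calc _ ≤ (((2 ^ s : ℕ) : ℝ)) ^ (2 ^ s) * (1 / 2) ^ (2 ^ (2 * s + j)) :=
          mul_le_mul_of_nonneg_left (pow_le_pow_left₀ h4 h3 _) (by positivity)
      _ = pp e s (j + 1) := by
          have : pp e s (j + 1) = 2 ^ (s * 2 ^ s) / 2 ^ (2 ^ (2 * s + j)) := rfl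
          rw [this, one_div, inv_pow, ← div_eq_mul_inv, pow_mul]
          push_cast
          rfl
  · intro J g
    have h1 : ∀ i : ℕ, ((rho (rr G) (i + 1) * (g / mm G l i) : ℕ) : ℝ) ≤
        g * ((1 / 2) ^ l * (1 / 2) ^ (i + 1)) := by
      intro i
      rw [rho_rr]
      have h2 : ((g / mm G l i : ℕ) : ℝ) ≤ g / (mm G l i : ℕ) := Nat.cast_div_le
      calc ((2 ^ hh G (i + 1) * (g / mm G l i) : ℕ) : ℝ) =
          2 ^ hh G (i + 1) * ((g / mm G l i : ℕ) : ℝ) := by push_cast; rfl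
        _ ≤ 2 ^ hh G (i + 1) * (g / (mm G l i : ℕ)) :=
            mul_le_mul_of_nonneg_left h2 (by positivity)
        _ = g * ((1 / 2) ^ l * (1 / 2) ^ (i + 1)) := by
            rw [mm]
            push_cast
            rw [pow_add _ (l + i + 1), show l + i + 1 = l + (i + 1) by ring, pow_add _ l (i + 1)]
            rw [one_div, inv_pow, inv_pow]
            field_simp
    have h2 : ∀ J : ℕ, ∑ i ∈ range J, (1 / 2 : ℝ) ^ (i + 1) ≤ 1 := by
      intro J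
      have : ∑ i ∈ range J, (1 / 2 : ℝ) ^ (i + 1) = 1 - (1 / 2) ^ J := by
        induction J with
        | zero => simp
        | succ J ih => rw [Finset.sum_range_succ, ih, pow_succ]; ring
      rw [this]
      have : (0 : ℝ) ≤ (1 / 2) ^ J := by positivity
      linarith
    calc ((∑ i ∈ range J, rho (rr G) (i + 1) * (g / mm G l i) : ℕ) : ℝ) =
        ∑ i ∈ range J, ((rho (rr G) (i + 1) * (g / mm G l i) : ℕ) : ℝ) := by push_cast; rfl
      _ ≤ ∑ i ∈ range J, (g : ℝ) * ((1 / 2) ^ l * (1 / 2) ^ (i + 1)) :=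
          Finset.sum_le_sum fun i _ => h1 i
      _ = (g : ℝ) * ((1 / 2) ^ l * ∑ i ∈ range J, (1 / 2) ^ (i + 1)) := by
          rw [← Finset.mul_sum, ← Finset.mul_sum]
      _ ≤ (g : ℝ) * (e * 1) := by
          apply mul_le_mul_of_nonneg_left _ (by positivity)
          exact mul_le_mul hl' (h2 J) (Finset.sum_nonneg fun i _ => by positivity) he.le
      _ = e * g := by ring
  · intro η hη
    obtain ⟨y, hy⟩ := exists_pow_lt_of_lt_one hη (show (1 / 2 : ℝ) < 1 by norm_num)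
    obtain ⟨k1, hk1⟩ := exists_nat_gt (1 / η ^ 2)
    set x0 := s * 2 ^ s + 2 * (2 ^ s + 1) + y + 4 * (G + 2) with hx0
    clear_value x0
    refine ⟨max (2 ^ x0) k1, fun k hk => ?_⟩
    have hk2 : 2 ^ x0 ≤ k := (le_max_left _ _).trans hk
    have hk3 : k1 ≤ k := (le_max_right _ _).trans hk
    have hkpos : 0 < k := lt_of_lt_of_le (by positivity) hk2
    set x := Nat.log 2 k with hx
    have hx1 : 2 ^ x ≤ k := Nat.pow_log_le_self 2 (by omega)
    have hx2 : k < 2 ^ (x + 1) := Nat.lt_pow_succ_log_self (by norm_num) k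
    have hx3 : x0 ≤ x := (Nat.le_log_iff_pow_le (by norm_num) (by omega)).mpr hk2
    set J := Nat.log 2 (x / (2 * (G + 2))) with hJ
    have hxd : 2 ≤ x / (2 * (G + 2)) := by
      rw [Nat.le_div_iff_mul_le (by omega)]
      omega
    have hJ1 : 2 ^ J ≤ x / (2 * (G + 2)) := Nat.pow_log_le_self 2 (by omega)
    have hJ2 : x / (2 * (G + 2)) < 2 ^ (J + 1) := Nat.lt_pow_succ_log_self (by norm_num) _
    have hJ3 : 1 ≤ J := (Nat.le_log_iff_pow_le (by norm_num) (by omega)).mpr (by simpa using hxd)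
    have hJ4 : 2 ^ J * (2 * (G + 2)) ≤ x := (Nat.le_div_iff_mul_le (by omega)).mp hJ1
    have hJ5 : x < 2 ^ (J + 1) * (2 * (G + 2)) := (Nat.div_lt_iff_lt_mul (by omega)).mp hJ2
    clear_value x J
    refine ⟨J, ?_, ?_⟩
    · rw [rho_rr]
      have h1 : (2 ^ hh G J) ^ 2 ≤ k := by
        rw [← pow_mul]
        refine le_trans (Nat.pow_le_pow_right (by norm_num) ?_) hx1
        have := hh_closed G J
        have e1 : 2 ^ J * (2 * (G + 2)) = 2 * ((G + 2) * 2 ^ J) := by ring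
        omega
      have h2 : (((2 ^ hh G J : ℕ) : ℝ)) ^ 2 ≤ k := by exact_mod_cast h1
      by_contra hcon
      push Not at hcon
      have h3 : (0 : ℝ) < k := by exact_mod_cast hkpos
      have h4 : (η * k) ^ 2 < (((2 ^ hh G J : ℕ) : ℝ)) ^ 2 :=
        pow_lt_pow_left₀ hcon (by positivity) (by norm_num)
      have h5 : (η ^ 2 * k) * k < 1 * k := by
        calc (η ^ 2 * k) * k = (η * k) ^ 2 := by ring
          _ < _ := h4
          _ ≤ _ := h2
          _ = 1 * k := by ring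
      have h6 : η ^ 2 * k < 1 := lt_of_mul_lt_mul_right h5 h3.le
      have h7 : 1 / η ^ 2 < k := lt_of_lt_of_le hk1 (by exact_mod_cast hk3)
      rw [div_lt_iff₀ (by positivity)] at h7
      linarith
    · obtain ⟨j, hj⟩ : ∃ j, J = j + 1 := ⟨J - 1, by omega⟩
      have h1 : pp e s J = 2 ^ (s * 2 ^ s) / 2 ^ (2 ^ (2 * s + j)) := by rw [hj]; rfl
      rw [h1]
      have h2 : (2 * (k : ℝ)) ^ (2 ^ s + 1) ≤ 2 ^ ((x + 2) * (2 ^ s + 1)) := by
        rw [pow_mul]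
        apply pow_le_pow_left₀ (by positivity)
        have : (k : ℝ) ≤ 2 ^ (x + 1) := by exact_mod_cast hx2.le
        calc 2 * (k : ℝ) ≤ 2 * 2 ^ (x + 1) := by linarith
          _ = 2 ^ (x + 2) := by ring
      have h3 : s * 2 ^ s + (x + 2) * (2 ^ s + 1) + y ≤ 2 ^ (2 * s + j) := by
        have e1 : 4 * (G + 2) + s + 11 ≤ 2 ^ (s - 1) := by
          have : s - 1 = 3 * l + 8 := by omega
          rw [this]
          omega
        have e2 : 2 ^ s = 2 * 2 ^ (s - 1) := by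
          rw [← pow_succ']; congr 1; omega
        have e3 : 2 ^ (2 * s + j) = 2 ^ (s - 1) * 2 ^ s * 2 ^ J := by
          rw [← pow_add, ← pow_add]; congr 1; omega
        have e4 : 4 * (G + 2) * (2 ^ s + 3) ≤ 2 ^ (s - 1) * 2 ^ s := by
          have h5 : (4 * (G + 2) + 11) * 2 ^ s ≤ 2 ^ (s - 1) * 2 ^ s :=
            Nat.mul_le_mul_right _ (by omega)
          have h6 : 8 * (G + 2) ≤ 2 ^ s := by omega
          nlinarith
        have e5 : x + 1 ≤ 4 * (G + 2) * 2 ^ J := by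
          have : 2 ^ (J + 1) * (2 * (G + 2)) = 4 * (G + 2) * 2 ^ J := by ring
          omega
        have e6 : (x + 1) * (2 ^ s + 3) ≤ 2 ^ (2 * s + j) := by
          rw [e3]
          calc (x + 1) * (2 ^ s + 3) ≤ 4 * (G + 2) * 2 ^ J * (2 ^ s + 3) :=
                Nat.mul_le_mul_right _ e5
            _ = 4 * (G + 2) * (2 ^ s + 3) * 2 ^ J := by ring
            _ ≤ _ := Nat.mul_le_mul_right _ e4
        refine le_trans ?_ e6
        nlinarith
      calc 2 ^ (s * 2 ^ s) / 2 ^ (2 ^ (2 * s + j)) * (2 * (k : ℝ)) ^ (2 ^ s + 1)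
          ≤ 2 ^ (s * 2 ^ s) / 2 ^ (2 ^ (2 * s + j)) * 2 ^ ((x + 2) * (2 ^ s + 1)) :=
            mul_le_mul_of_nonneg_left h2 (by positivity)
        _ = 2 ^ (s * 2 ^ s + (x + 2) * (2 ^ s + 1)) / 2 ^ (2 ^ (2 * s + j)) := by
            rw [pow_add _ (s * 2 ^ s)]; ring
        _ ≤ (1 / 2) ^ y := by
            rw [one_div, inv_pow, div_le_iff₀ (by positivity), inv_mul_eq_div,
              le_div_iff₀ (by positivity), ← pow_add]
            exact pow_le_pow_right₀ (by norm_num) h3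
        _ ≤ η := hy.le

end Pool.H15.Univ
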