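import Mathlib

/-!
# Arithmetic circuits, weakly skew circuits, the classes VP and VP_ws

Definitions follow the problem file MP_f18ce0_lc.
-/

set_option autoImplicit false

namespace Pool.Agent.H80

open MvPolynomial

universe u v

/-- The label of a node of an arithmetic circuit with node set `V`: an input labelled by a variable
or by a constant, or a gate `+` or `*` with its two predecessors (the tails of its two incoming
edges, which may coincide). -/
inductive Gate (K : Type u) (σ : Type) (V : Type) : Type u
  | var (i : σ) : Gate K σ V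
  | const (c : K) : Gate K σ V
  | add (a b : V) : Gate K σ V
  | mul (a b : V) : Gate K σ V

namespace Gate

variable {K : Type u} {σ : Type} {V W : Type}

/-- The tail of the incoming edge number `j` of a node (there is none at an input node). -/
def tail : Gate K σ V → Fin 2 → Option V
  | var _, _ => none
  | const _, _ => none
  | add a b, j => some (if j = 0 then a else b)
  | mul a b, j => some (if j = 0 then a else b)

/-- The polynomial computed at a node, given the polynomials at its predecessors. -/
noncomputable def value [CommSemiring K] (g : Gate K σ V) (val : V → MvPolynomial σ K) :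
    MvPolynomial σ K :=
  match g with
  | var i => X i
  | const c => C c
  | add a b => val a + val b
  | mul a b => val a * val b

end Gate

/-- An arithmetic circuit over `K` in the variables `σ`: a finite directed acyclic graph whose
nodes carry gates, with exactly one node of out-degree zero, the output `out`. -/
structure Circuit (K : Type u) (σ : Type) : Type (max u 1) where
  /-- the nodes -/
  V : Type
  /-- there are finitely many nodes -/
  fin : Fintype V
  /-- the labels, which also contain the incoming edges -/
  gate : V → Gate K σ V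
  /-- the graph has no directed cycle -/
  acyclic : ∃ rank : V → ℕ, ∀ (v : V) (j : Fin 2) (t : V), (gate v).tail j = some t →
    rank t < rank v
  /-- the output node -/
  out : V
  /-- the output is the only node of out-degree zero -/
  out_iff : ∀ v : V, v = out ↔ ∀ (w : V) (j : Fin 2), (gate w).tail j ≠ some v

namespace Circuit

variable {K : Type u} {σ : Type}

/-- The size of a circuit is its number of nodes. -/
def size (D : Circuit K σ) : ℕ := @Fintype.card D.V D.fin

/-- `D` computes `f`: there is an assignment of polynomials to the nodes (it is unique, as the graph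
is acyclic) which is compatible with the labels and takes the value `f` at the output. -/
def Computes [CommSemiring K] (D : Circuit K σ) (f : MvPolynomial σ K) : Prop :=
  ∃ val : D.V → MvPolynomial σ K, (∀ v, val v = (D.gate v).value val) ∧ val D.out = f

/-- `D.Path s t`: there is a directed path (possibly of length zero) from `s` to `t`. -/
def Path (D : Circuit K σ) : D.V → D.V → Prop :=
  Relation.ReflTransGen (fun s t => ∃ j : Fin 2, (D.gate t).tail j = some s)

/-- `D` is weakly skew: every multiplication gate `g` has an incoming edge `e_j`, with tail `t`,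
such that each edge from the sub-circuit feeding it (the nodes with a directed path to `t`) to a
node outside of this sub-circuit is the edge `e_j` itself. -/
def WeaklySkew (D : Circuit K σ) : Prop :=
  ∀ g a b : D.V, D.gate g = Gate.mul a b → ∃ (j : Fin 2) (t : D.V), (D.gate g).tail j = some t ∧
    ∀ (w : D.V) (k : Fin 2) (s : D.V), (D.gate w).tail k = some s → D.Path s t → ¬ D.Path w t →
      w = g ∧ k = j

end Circuit

/-- A p-family over `K`: a sequence of polynomials `f n` in `v n` variables with `v n` and the
degree of `f n` bounded by a polynomial in `n`. -/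
structure PFamily (K : Type u) [CommSemiring K] : Type u where
  /-- the number of variables -/
  v : ℕ → ℕ
  /-- the polynomials -/
  f : (n : ℕ) → MvPolynomial (Fin (v n)) K
  /-- the number of variables is polynomially bounded -/
  v_bdd : ∃ p : Polynomial ℕ, ∀ n, v n ≤ p.eval n
  /-- the degree is polynomially bounded -/
  deg_bdd : ∃ p : Polynomial ℕ, ∀ n, (f n).totalDegree ≤ p.eval n

/-- The class `VP`: p-families computed by circuits of polynomially bounded size. -/
def VP (K : Type u) [CommSemiring K] : Set (PFamily K) :=
  {F | ∃ p : Polynomial ℕ, ∀ n, ∃ D : Circuit K (Fin (F.v n)),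
    D.Computes (F.f n) ∧ D.size ≤ p.eval n}

/-- The class `VP_ws`: p-families computed by weakly skew circuits of polynomially bounded size. -/
def VPws (K : Type u) [CommSemiring K] : Set (PFamily K) :=
  {F | ∃ p : Polynomial ℕ, ∀ n, ∃ D : Circuit K (Fin (F.v n)),
    D.WeaklySkew ∧ D.Computes (F.f n) ∧ D.size ≤ p.eval n}

theorem VPws_subset_VP (K : Type u) [CommSemiring K] : VPws K ⊆ VP K := by
  rintro F ⟨p, hp⟩
  exact ⟨p, fun n => by
    obtain ⟨D, -, h1, h2⟩ := hp n
    exact ⟨D, h1, h2⟩⟩

/-! ### Pre-circuits: no condition on sinks -/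

/-- A circuit without the condition on nodes of out-degree zero. -/
structure Pre (K : Type u) (σ : Type) : Type (max u 1) where
  V : Type
  fin : Fintype V
  gate : V → Gate K σ V
  acyclic : ∃ rank : V → ℕ, ∀ (v : V) (j : Fin 2) (t : V), (gate v).tail j = some t →
    rank t < rank v

namespace Pre

variable {K : Type u} {σ : Type}

abbrev Edge (D : Pre K σ) (s t : D.V) : Prop := ∃ j : Fin 2, (D.gate t).tail j = some s

abbrev Path (D : Pre K σ) : D.V → D.V → Prop := Relation.ReflTransGen D.Edge

/-- compatible values -/
def IsVal [CommSemiring K] (D : Pre K σ) (val : D.V → MvPolynomial σ K) : Prop :=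
  ∀ v, val v = (D.gate v).value val

def WeaklySkew (D : Pre K σ) : Prop :=
  ∀ g a b : D.V, D.gate g = Gate.mul a b → ∃ (j : Fin 2) (t : D.V), (D.gate g).tail j = some t ∧
    ∀ (w : D.V) (k : Fin 2) (s : D.V), (D.gate w).tail k = some s → D.Path s t → ¬ D.Path w t →
      w = g ∧ k = j

theorem Path.rank_le {D : Pre K σ} {rank : D.V → ℕ}
    (hr : ∀ (v : D.V) (j : Fin 2) (t : D.V), (D.gate v).tail j = some t → rank t < rank v)
    {s t : D.V} (h : D.Path s t) : rank s ≤ rank t := by
  induction h with
  | refl => exact le_rfl
  | tail _ h2 ih =>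
    obtain ⟨j, hj⟩ := h2
    exact ih.trans (hr _ _ _ hj).le

/-- Restrict a gate to a subset containing its tails. -/
def restrictGate {V : Type} (P : V → Prop) :
    (g : Gate K σ V) → (∀ (j : Fin 2) (t : V), g.tail j = some t → P t) → Gate K σ {x : V // P x}
  | Gate.var i, _ => Gate.var i
  | Gate.const c, _ => Gate.const c
  | Gate.add a b, h => Gate.add ⟨a, h 0 a rfl⟩ ⟨b, h 1 b rfl⟩
  | Gate.mul a b, h => Gate.mul ⟨a, h 0 a rfl⟩ ⟨b, h 1 b rfl⟩

theorem restrictGate_tail {V : Type} (P : V → Prop) (g : Gate K σ V)
    (h : ∀ (j : Fin 2) (t : V), g.tail j = some t → P t) (j : Fin 2) (t : {x : V // P x}) :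
    (restrictGate P g h).tail j = some t ↔ g.tail j = some t.1 := by
  cases g with
  | var i => simp [restrictGate, Gate.tail]
  | const c => simp [restrictGate, Gate.tail]
  | add a b =>
    simp only [restrictGate, Gate.tail, Option.some.injEq]
    by_cases hj : j = 0
    · simp [hj, Subtype.ext_iff]
    · simp [hj, Subtype.ext_iff]
  | mul a b =>
    simp only [restrictGate, Gate.tail, Option.some.injEq]
    by_cases hj : j = 0
    · simp [hj, Subtype.ext_iff]
    · simp [hj, Subtype.ext_iff]

theorem restrictGate_value [CommSemiring K] {V : Type} (P : V → Prop) (g : Gate K σ V)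
    (h : ∀ (j : Fin 2) (t : V), g.tail j = some t → P t) (val : V → MvPolynomial σ K) :
    (restrictGate P g h).value (fun x => val x.1) = g.value val := by
  cases g <;> rfl

theorem restrictGate_mul {V : Type} (P : V → Prop) (g : Gate K σ V)
    (h : ∀ (j : Fin 2) (t : V), g.tail j = some t → P t) (a b : {x : V // P x})
    (hm : restrictGate P g h = Gate.mul a b) : g = Gate.mul a.1 b.1 := by
  cases g with
  | var i => simp [restrictGate] at hm
  | const c => simp [restrictGate] at hm
  | add a b => simp [restrictGate] at hm
  | mul a' b' =>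
    simp only [restrictGate, Gate.mul.injEq] at hm
    obtain ⟨h1, h2⟩ := hm
    subst h1
    subst h2
    rfl

/-- Keep only the ancestors of a node `o`. -/
noncomputable def prune (D : Pre K σ) (o : D.V) : Circuit K σ where
  V := {x : D.V // D.Path x o}
  fin := by
    classical
    have := D.fin
    exact Fintype.ofFinite _
  gate := fun v => restrictGate (fun x => D.Path x o) (D.gate v.1)
    (fun j _ ht => Relation.ReflTransGen.head ⟨j, ht⟩ v.2)
  acyclic := by
    obtain ⟨rank, hr⟩ := D.acyclic
    refine ⟨fun v => rank v.1, ?_⟩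
    intro v j t ht
    exact hr _ _ _ ((restrictGate_tail _ _ _ _ _).1 ht)
  out := ⟨o, Relation.ReflTransGen.refl⟩
  out_iff := by
    intro v
    constructor
    · rintro rfl w j hj
      have hj' := (restrictGate_tail _ _ _ _ _).1 hj
      obtain ⟨rank, hr⟩ := D.acyclic
      have h1 := hr _ _ _ hj'
      have h2 := Path.rank_le hr w.2
      simp only at h1
      omega
    · intro h
      obtain ⟨v, hv⟩ := v
      by_contra hne
      have hne' : v ≠ o := fun h' => hne (by subst h'; rfl)
      rcases Relation.ReflTransGen.cases_head hv with h1 | ⟨w, hw, hwo⟩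
      · exact hne' h1
      · obtain ⟨j, hj⟩ := hw
        exact h ⟨w, hwo⟩ j ((restrictGate_tail _ _ _ _ _).2 hj)

theorem prune_size_le (D : Pre K σ) (o : D.V) : (D.prune o).size ≤ @Fintype.card D.V D.fin := by
  unfold Circuit.size
  have h : @Fintype.card (D.prune o).V (D.prune o).fin = Nat.card {x : D.V // D.Path x o} :=
    (@Nat.card_eq_fintype_card _ (D.prune o).fin).symm
  have h2 : @Fintype.card D.V D.fin = Nat.card D.V := (@Nat.card_eq_fintype_card _ D.fin).symm
  rw [h, h2]
  have := @Finite.of_fintype D.V D.fin
  exact Nat.card_le_card_of_injective (fun x : {x : D.V // D.Path x o} => x.1)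
    Subtype.val_injective

theorem prune_computes [CommSemiring K] (D : Pre K σ) (o : D.V) (val : D.V → MvPolynomial σ K)
    (h : D.IsVal val) : (D.prune o).Computes (val o) := by
  refine ⟨fun x => val x.1, ?_, rfl⟩
  intro v
  exact (h v.1).trans (restrictGate_value _ _ _ _).symm

theorem prune_path (D : Pre K σ) (o : D.V) (s t : (D.prune o).V) :
    (D.prune o).Path s t ↔ D.Path s.1 t.1 := by
  constructor
  · intro h
    induction h with
    | refl => exact Relation.ReflTransGen.refl
    | tail _ h2 ih =>
      obtain ⟨j, hj⟩ := h2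
      refine ih.tail ⟨j, ?_⟩
      exact (restrictGate_tail _ _ _ _ _).1 hj
  · intro h
    obtain ⟨s, hs⟩ := s
    obtain ⟨t, ht⟩ := t
    simp only at h
    induction h using Relation.ReflTransGen.head_induction_on with
    | refl => exact Relation.ReflTransGen.refl
    | head h1 h2 ih =>
      rename_i a c
      have hc : D.Path c o := h2.trans ht
      refine Relation.ReflTransGen.head (b := (⟨c, hc⟩ : (D.prune o).V)) ?_ (ih hc)
      obtain ⟨j, hj⟩ := h1
      exact ⟨j, (restrictGate_tail _ _ _ _ _).2 hj⟩

theorem prune_weaklySkew (D : Pre K σ) (o : D.V) (h : D.WeaklySkew) :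
    (D.prune o).WeaklySkew := by
  intro g a b hg
  have hg' : D.gate g.1 = Gate.mul a.1 b.1 := restrictGate_mul _ _ _ _ _ hg
  obtain ⟨j, t, ht, hall⟩ := h g.1 a.1 b.1 hg'
  have hto : D.Path t o := Relation.ReflTransGen.head ⟨j, ht⟩ g.2
  refine ⟨j, ⟨t, hto⟩, (restrictGate_tail _ _ _ _ _).2 ht, ?_⟩
  intro w k s hs hst hwt
  have hst' := (prune_path D o s ⟨t, hto⟩).1 hst
  have hwt' : ¬ D.Path w.1 t := fun h' => hwt ((prune_path D o w ⟨t, hto⟩).2 h')
  have hs' := (restrictGate_tail _ _ _ _ _).1 hs
  obtain ⟨h1, h2⟩ := hall w.1 k s.1 hs' hst' hwt'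
  exact ⟨Subtype.ext h1, h2⟩

/-! #### Adding a node -/

/-- Map the tails of a gate. -/
def mapGate {V W : Type} (f : V → W) : Gate K σ V → Gate K σ W
  | Gate.var i => Gate.var i
  | Gate.const c => Gate.const c
  | Gate.add a b => Gate.add (f a) (f b)
  | Gate.mul a b => Gate.mul (f a) (f b)

theorem mapGate_tail {V W : Type} (f : V → W) (g : Gate K σ V) (j : Fin 2) :
    (mapGate f g).tail j = (g.tail j).map f := by
  cases g with
  | var i => rfl
  | const c => rfl
  | add a b => by_cases hj : j = 0 <;> simp [mapGate, Gate.tail, hj]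
  | mul a b => by_cases hj : j = 0 <;> simp [mapGate, Gate.tail, hj]

theorem mapGate_value [CommSemiring K] {V W : Type} (f : V → W) (g : Gate K σ V)
    (val : W → MvPolynomial σ K) : (mapGate f g).value val = g.value (fun x => val (f x)) := by
  cases g <;> rfl

/-- Add a new node `none` with the gate `g`. -/
def addNode (D : Pre K σ) (g : Gate K σ D.V) : Pre K σ where
  V := Option D.V
  fin := by
    have := D.fin
    exact inferInstance
  gate := fun v => match v with
    | none => mapGate some g
    | some v => mapGate some (D.gate v)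
  acyclic := by
    obtain ⟨rank, hr⟩ := D.acyclic
    have := D.fin
    obtain ⟨M, hM⟩ : ∃ M, ∀ v : D.V, rank v < M := by
      refine ⟨(Finset.univ.sup rank) + 1, fun v => Nat.lt_succ_of_le ?_⟩
      exact Finset.le_sup (f := rank) (Finset.mem_univ v)
    refine ⟨fun v => match v with
      | none => M
      | some v => rank v, ?_⟩
    intro v j t ht
    cases v with
    | none =>
      have h1 : (mapGate some g).tail j = some t := ht
      rw [mapGate_tail, Option.map_eq_some_iff] at h1
      obtain ⟨a, _, rfl⟩ := h1
      exact hM a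
    | some v =>
      have h1 : (mapGate some (D.gate v)).tail j = some t := ht
      rw [mapGate_tail, Option.map_eq_some_iff] at h1
      obtain ⟨a, ha, rfl⟩ := h1
      exact hr _ _ _ ha

theorem addNode_card (D : Pre K σ) (g : Gate K σ D.V) :
    @Fintype.card (D.addNode g).V (D.addNode g).fin = @Fintype.card D.V D.fin + 1 :=
  @Fintype.card_option D.V D.fin

/-- Values after adding a node. -/
noncomputable def addVal [CommSemiring K] (D : Pre K σ) (g : Gate K σ D.V)
    (val : D.V → MvPolynomial σ K) :
    (D.addNode g).V → MvPolynomial σ K := fun v => match v with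
  | none => g.value val
  | some v => val v

theorem addNode_isVal [CommSemiring K] (D : Pre K σ) (g : Gate K σ D.V)
    (val : D.V → MvPolynomial σ K) (h : D.IsVal val) :
    (D.addNode g).IsVal (addVal D g val) := by
  intro v
  cases v with
  | none => exact (mapGate_value some g (addVal D g val)).symm
  | some v => exact (h v).trans (mapGate_value some (D.gate v) (addVal D g val)).symm

/-- The empty pre-circuit. -/
def empty (K : Type u) (σ : Type) : Pre K σ where
  V := Empty
  fin := inferInstance
  gate := fun v => v.elim
  acyclic := ⟨fun v => v.elim, fun v => v.elim⟩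

end Pre

/-! ### Straight-line programs as lists of polynomials -/

section SLP

variable {K : Type u} [CommSemiring K] {σ : Type}

/-- One step of a straight-line program. -/
inductive Step (l : List (MvPolynomial σ K)) : MvPolynomial σ K → Prop
  | var (i : σ) : Step l (X i)
  | const (c : K) : Step l (C c)
  | add {a b : MvPolynomial σ K} (ha : a ∈ l) (hb : b ∈ l) : Step l (a + b)
  | mul {a b : MvPolynomial σ K} (ha : a ∈ l) (hb : b ∈ l) : Step l (a * b)

theorem Step.mono {l l' : List (MvPolynomial σ K)} (h : l ⊆ l') {p : MvPolynomial σ K}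
    (hp : Step l p) : Step l' p := by
  cases hp with
  | var i => exact Step.var i
  | const c => exact Step.const c
  | add ha hb => exact Step.add (h ha) (h hb)
  | mul ha hb => exact Step.mul (h ha) (h hb)

/-- `SLP l`: the list `l` (latest result first) is a straight-line program. -/
inductive SLP : List (MvPolynomial σ K) → Prop
  | nil : SLP []
  | cons {l : List (MvPolynomial σ K)} {p : MvPolynomial σ K} (h : SLP l) (hp : Step l p) :
      SLP (p :: l)

theorem SLP.exists_pre {l : List (MvPolynomial σ K)} (h : SLP l) :
    ∃ (D : Pre K σ) (val : D.V → MvPolynomial σ K), D.IsVal val ∧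
      @Fintype.card D.V D.fin = l.length ∧ ∀ p ∈ l, ∃ v, val v = p := by
  induction h with
  | nil =>
    refine ⟨Pre.empty K σ, fun v => v.elim, fun v => v.elim, rfl, ?_⟩
    intro p hp
    simp at hp
  | cons h hp ih =>
    rename_i l p
    obtain ⟨D, val, hval, hcard, hmem⟩ := ih
    have key : ∃ g : Gate K σ D.V, g.value val = p := by
      cases hp with
      | var i => exact ⟨Gate.var i, rfl⟩
      | const c => exact ⟨Gate.const c, rfl⟩
      | add ha hb =>
        obtain ⟨v, rfl⟩ := hmem _ ha
        obtain ⟨w, rfl⟩ := hmem _ hb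
        exact ⟨Gate.add v w, rfl⟩
      | mul ha hb =>
        obtain ⟨v, rfl⟩ := hmem _ ha
        obtain ⟨w, rfl⟩ := hmem _ hb
        exact ⟨Gate.mul v w, rfl⟩
    obtain ⟨g, hg⟩ := key
    refine ⟨D.addNode g, Pre.addVal D g val, D.addNode_isVal g val hval, ?_, ?_⟩
    · rw [Pre.addNode_card, hcard]; rfl
    · intro q hq
      rcases List.mem_cons.1 hq with rfl | hq
      · exact ⟨none, hg⟩
      · obtain ⟨v, hv⟩ := hmem q hq
        exact ⟨some v, hv⟩

theorem SLP.exists_circuit {l : List (MvPolynomial σ K)} (h : SLP l) {p : MvPolynomial σ K}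
    (hp : p ∈ l) : ∃ D : Circuit K σ, D.Computes p ∧ D.size ≤ l.length := by
  obtain ⟨D, val, hval, hcard, hmem⟩ := h.exists_pre
  obtain ⟨v, rfl⟩ := hmem p hp
  exact ⟨D.prune v, D.prune_computes v val hval, (D.prune_size_le v).trans hcard.le⟩

/-- `Reach l k S`: from the SLP results `l`, `k` further steps suffice to have all of `S`. -/
def Der (l : List (MvPolynomial σ K)) (k : ℕ) (l' : List (MvPolynomial σ K)) : Prop :=
  (SLP l → SLP l') ∧ l ⊆ l' ∧ l'.length ≤ l.length + k

theorem Der.refl (l : List (MvPolynomial σ K)) : Der l 0 l := ⟨id, List.Subset.refl _, le_rfl⟩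

theorem Der.trans {l l' l'' : List (MvPolynomial σ K)} {k k' : ℕ} (h : Der l k l')
    (h' : Der l' k' l'') : Der l (k + k') l'' :=
  ⟨fun hl => h'.1 (h.1 hl), List.Subset.trans h.2.1 h'.2.1, by
    have := h.2.2; have := h'.2.2; omega⟩

theorem Der.step {l l' : List (MvPolynomial σ K)} {k : ℕ} (h : Der l k l')
    {p : MvPolynomial σ K} (hp : Step l' p) : Der l (k + 1) (p :: l') :=
  ⟨fun hl => SLP.cons (h.1 hl) hp, fun _ hx => List.mem_cons_of_mem _ (h.2.1 hx), by
    have := h.2.2; simp; omega⟩

/-- Sum of products: `Σ_{i ∈ s} a_i b_i` in `2|s|+1` further steps. -/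
theorem Der.sum_mul {ι : Type*} (s : Finset ι) (a b : ι → MvPolynomial σ K)
    (l : List (MvPolynomial σ K)) (ha : ∀ i ∈ s, a i ∈ l) (hb : ∀ i ∈ s, b i ∈ l) :
    ∃ l', Der l (2 * s.card + 1) l' ∧ ∑ i ∈ s, a i * b i ∈ l' := by
  classical
  induction s using Finset.induction_on with
  | empty =>
    refine ⟨C 0 :: l, (Der.refl l).step (Step.const 0), ?_⟩
    simp
  | insert i s hi ih =>
    obtain ⟨l', h1, h2⟩ := ih (fun j hj => ha j (Finset.mem_insert_of_mem hj))
      (fun j hj => hb j (Finset.mem_insert_of_mem hj))
    have h3 := h1.step (Step.mul (h1.2.1 (ha i (Finset.mem_insert_self i s)))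
      (h1.2.1 (hb i (Finset.mem_insert_self i s))))
    have h4 := h3.step (Step.add (a := a i * b i) (b := ∑ i ∈ s, a i * b i)
      List.mem_cons_self (List.mem_cons_of_mem _ h2))
    refine ⟨_, ⟨h4.1, h4.2.1, ?_⟩, ?_⟩
    · rw [Finset.card_insert_of_notMem hi]
      have := h4.2.2
      omega
    · rw [Finset.sum_insert hi]
      exact List.mem_cons_self

/-- Derive one element for each member of a finite set of indices, each in at most `k` steps. -/
theorem Der.all {ι : Type*} (s : Finset ι) (p : ι → MvPolynomial σ K) (k : ℕ)
    (l : List (MvPolynomial σ K))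
    (h : ∀ i ∈ s, ∀ l₁ : List (MvPolynomial σ K), l ⊆ l₁ → ∃ l', Der l₁ k l' ∧ p i ∈ l') :
    ∃ l', Der l (s.card * k) l' ∧ ∀ i ∈ s, p i ∈ l' := by
  classical
  induction s using Finset.induction_on with
  | empty => exact ⟨l, by simpa using Der.refl l, by simp⟩
  | insert i s hi ih =>
    obtain ⟨l', h1, h2⟩ := ih (fun j hj => h j (Finset.mem_insert_of_mem hj))
    obtain ⟨l'', h3, h4⟩ := h i (Finset.mem_insert_self i s) l' h1.2.1
    refine ⟨l'', ?_, ?_⟩
    · rw [Finset.card_insert_of_notMem hi, add_mul, one_mul]
      exact h1.trans h3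
    · intro j hj
      rcases Finset.mem_insert.1 hj with rfl | hj
      · exact h4
      · exact h3.2.1 (h2 j hj)

end SLP

end Pool.Agent.H80
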