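import Pool.Agent.H80.Hard

set_option autoImplicit false

namespace Pool.Agent.H80

open MvPolynomial

universe u v

theorem exists_bounded_rank {V : Type} [Fintype V] {K : Type u} {σ : Type} (gate : V → Gate K σ V)
    (h : ∃ rank : V → ℕ, ∀ (v : V) (j : Fin 2) (t : V), (gate v).tail j = some t →
      rank t < rank v) :
    ∃ rk : V → ℕ, (∀ (v : V) (j : Fin 2) (t : V), (gate v).tail j = some t → rk t < rk v) ∧
      ∀ v, rk v + 1 ≤ Fintype.card V := by
  classical
  obtain ⟨rank, hr⟩ := h
  refine ⟨fun v => (Finset.univ.filter (fun u => rank u < rank v)).card, ?_, ?_⟩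
  · intro v j t ht
    apply Finset.card_lt_card
    have h1 := hr v j t ht
    refine ⟨?_, ?_⟩
    · intro u hu
      simp only [Finset.mem_filter, Finset.mem_univ, true_and] at hu ⊢
      omega
    · intro hsub
      have h2 := hsub (by simpa using h1 : t ∈ Finset.univ.filter (fun u => rank u < rank v))
      simp at h2
  · intro v
    have h1 : (Finset.univ.filter (fun u => rank u < rank v)).card < Fintype.card V := by
      rw [← Finset.card_univ]
      apply Finset.card_lt_card
      refine ⟨Finset.subset_univ _, ?_⟩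
      intro hsub
      have h2 := hsub (Finset.mem_univ v)
      simp at h2
    exact h1

theorem exists_label_injection {L : Type} [Fintype L] (l₀ : L) (m : ℕ)
    (h : Fintype.card L ≤ m + 1) :
    ∃ ι : L → Fin (m + 1), Function.Injective ι ∧ ι l₀ = 0 := by
  obtain ⟨f⟩ : Nonempty (L ↪ Fin (m + 1)) :=
    Function.Embedding.nonempty_of_card_le (by simpa using h)
  refine ⟨fun x => Equiv.swap (f l₀) 0 (f x), ?_, ?_⟩
  · exact (Equiv.injective _).comp f.injective
  · simp

/-- Every family in `VP` is a p-projection of the tree family. -/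
theorem projLE_treeFamily (K : Type u) [CommSemiring K] [Nontrivial K] (F : PFamily K)
    (hF : F ∈ VP K) : F.ProjLE (treeFamily K) := by
  classical
  obtain ⟨p, hp⟩ := hF
  obtain ⟨q, hq⟩ := F.deg_bdd
  refine ⟨p * q + 1, fun n => ?_⟩
  obtain ⟨D, ⟨val, hval, hout⟩, hs⟩ := hp n
  have := D.fin
  obtain ⟨rk, hrk, hrk'⟩ := exists_bounded_rank D.gate D.acyclic
  have hsize : Fintype.card D.V ≤ p.eval n := by
    refine le_trans (le_of_eq ?_) hs
    unfold Circuit.size
    congr
    exact Subsingleton.elim _ _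
  refine ⟨(p * q + 1).eval n, le_rfl, ?_⟩
  set m := (p * q + 1).eval n with hm
  have hm' : m = p.eval n * q.eval n + 1 := by simp [hm]
  set d := q.eval n with hd
  have hdeg : (val D.out).totalDegree ≤ d := by rw [hout]; exact hq n
  obtain ⟨ι, hι, hι0⟩ := exists_label_injection (L := RLabel D.V d) none m (by
    simp only [Fintype.card_option, Fintype.card_prod, Fintype.card_fin]
    have : Fintype.card D.V * d ≤ p.eval n * d := Nat.mul_le_mul hsize le_rfl
    omega)
  let ι3 : RLabel D.V d × RLabel D.V d × RLabel D.V d →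
      Fin (m + 1) × Fin (m + 1) × Fin (m + 1) := fun t => (ι t.1, ι t.2.1, ι t.2.2)
  have hι3 : Function.Injective ι3 := by
    rintro ⟨a, b, c⟩ ⟨a', b', c'⟩ h
    simp only [ι3, Prod.mk.injEq] at h
    rw [hι h.1, hι h.2.1, hι h.2.2]
  let lf' : Fin (m + 1) → Fin (F.v n) ⊕ K :=
    Function.extend ι (leafVal d D.gate val D.out) (fun _ => Sum.inr 0)
  let cf' : Fin (m + 1) × Fin (m + 1) × Fin (m + 1) → K :=
    Function.extend ι3 (fun t => ruleCoeff d D.gate val D.out t.1 t.2.1 t.2.2) (fun _ => 0)
  let ρ' : TVar (Fin (m + 1)) → Fin (F.v n) ⊕ K := Sum.elim lf' (fun t => Sum.inr (cf' t))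
  refine ⟨fun x => ρ' ((tvarEquiv (m + 1)).symm x), ?_⟩
  change F.f n = aeval (fun i => Sum.elim X C (ρ' ((tvarEquiv (m + 1)).symm i)))
    (rename (tvarEquiv (m + 1)) (tsum K (Fin (m + 1)) (m + 1) 0))
  rw [aeval_rename]
  have h1 : ((fun i => Sum.elim (X : Fin (F.v n) → MvPolynomial (Fin (F.v n)) K) C
      (ρ' ((tvarEquiv (m + 1)).symm i))) ∘ (tvarEquiv (m + 1))) =
      Sum.elim (fun i => Sum.elim X C (lf' i))
        (fun t : Fin (m + 1) × Fin (m + 1) × Fin (m + 1) => C (cf' (t.1, t.2.1, t.2.2))) := by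
    funext x
    simp only [Function.comp_apply, Equiv.symm_apply_apply]
    rcases x with x | x
    · rfl
    · rfl
  rw [h1, tsum, map_sum]
  rw [Finset.sum_congr rfl fun k _ => aeval_tp (K := K)
    (fun i => Sum.elim (X : Fin (F.v n) → MvPolynomial (Fin (F.v n)) K) C (lf' i))
    (fun i j k => C (cf' (i, j, k))) k 0]
  rw [← hι0]
  rw [Finset.sum_congr rfl fun k _ => tval_extend ι hι
    (fun i => Sum.elim X C (leafVal d D.gate val D.out i))
    (fun i j k => (C (ruleCoeff d D.gate val D.out i j k) : MvPolynomial (Fin (F.v n)) K))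
    (fun i => Sum.elim (X : Fin (F.v n) → MvPolynomial (Fin (F.v n)) K) C (lf' i))
    (fun i j k => C (cf' (i, j, k))) ?_ ?_ ?_ k none]
  · rw [← hout]
    refine (rtsum_root d D.gate val D.out rk hrk hval hdeg (m + 1) ?_).symm
    have : d * (rk D.out + 1) ≤ d * p.eval n :=
      Nat.mul_le_mul le_rfl ((hrk' D.out).trans hsize)
    rw [mul_comm d (p.eval n)] at this
    omega
  · intro i
    simp only [lf', hι.extend_apply]
  · intro i j k
    have := hι3.extend_apply (fun t => ruleCoeff d D.gate val D.out t.1 t.2.1 t.2.2)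
      (fun _ => 0) (i, j, k)
    simp only [ι3] at this
    simp only [cf', ι3, this]
  · intro i j' k' h
    have h2 : cf' (ι i, j', k') = 0 := by
      simp only [cf']
      rw [Function.extend_apply']
      rintro ⟨⟨a, b, c⟩, habc⟩
      simp only [ι3, Prod.mk.injEq] at habc
      rcases h with h | h
      · exact h ⟨b, habc.2.1⟩
      · exact h ⟨c, habc.2.2⟩
    rw [h2, C_0]

/-- `VP = VP_ws` if and only if the tree family is in `VP_ws`. -/
theorem VP_eq_VPws_iff (K : Type u) [CommSemiring K] [Nontrivial K] :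
    VP K = VPws K ↔ treeFamily K ∈ VPws K := by
  constructor
  · intro h
    rw [← h]
    exact treeFamily_mem_VP K
  · intro h
    refine Set.Subset.antisymm ?_ (VPws_subset_VP K)
    intro F hF
    exact mem_VPws_of_projLE (projLE_treeFamily K F hF) h

end Pool.Agent.H80
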