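import Pool.Agent.H80.Lin

set_option autoImplicit false

namespace Pool.Agent.H80

open MvPolynomial

universe u v

section merge

variable {K : Type u} {σ : Type}

/-- The edge number `j` into the multiplication gate `g`, with tail `t`, is closed: deleting it
separates the sub-circuit feeding it from the rest. -/
def Pre.ClosedEdge (D : Pre K σ) (g : D.V) (j : Fin 2) (t : D.V) : Prop :=
  (D.gate g).tail j = some t ∧
    ∀ (w : D.V) (k : Fin 2) (s : D.V), (D.gate w).tail k = some s → D.Path s t →
      ¬ D.Path w t → w = g ∧ k = j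

def Pre.DownClosed (D : Pre K σ) (S : Finset D.V) : Prop :=
  ∀ v ∈ S, ∀ (j : Fin 2) (t : D.V), (D.gate v).tail j = some t → t ∈ S

def Pre.OpenIn (D : Pre K σ) (S : Finset D.V) (v : D.V) : Prop :=
  v ∈ S ∧ ∀ g ∈ S, ∀ (j : Fin 2) (t : D.V), D.ClosedEdge g j t → ¬ D.Path v t

theorem Pre.OpenIn.mono {D : Pre K σ} {S S' : Finset D.V} {v : D.V} (h : D.OpenIn S v)
    (hS : S' ⊆ S) (hv : v ∈ S') : D.OpenIn S' v :=
  ⟨hv, fun g hg j t ht => h.2 g (hS hg) j t ht⟩

theorem Pre.DownClosed.path {D : Pre K σ} {S : Finset D.V} (h : D.DownClosed S) {s t : D.V}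
    (hp : D.Path s t) (ht : t ∈ S) : s ∈ S := by
  induction hp using Relation.ReflTransGen.head_induction_on with
  | refl => exact ht
  | head h1 _ ih =>
    obtain ⟨j, hj⟩ := h1
    exact h _ ih j _ hj

section anc

variable (D : Pre K σ) [Fintype D.V]

/-- The nodes with a path to `t`. -/
noncomputable def Pre.anc (t : D.V) : Finset D.V := by
  classical
  exact Finset.univ.filter (fun s => D.Path s t)

theorem Pre.mem_anc (s t : D.V) : s ∈ D.anc t ↔ D.Path s t := by
  classical
  simp [Pre.anc]

theorem Pre.anc_downClosed (t : D.V) : D.DownClosed (D.anc t) := by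
  intro v hv j s hs
  rw [D.mem_anc] at hv ⊢
  exact Relation.ReflTransGen.head ⟨j, hs⟩ hv

theorem Pre.anc_openIn (t : D.V) : D.OpenIn (D.anc t) t := by
  obtain ⟨rank, hr⟩ := D.acyclic
  refine ⟨(D.mem_anc t t).2 Relation.ReflTransGen.refl, ?_⟩
  intro g hg j t' ht' hp
  have h1 := Pre.Path.rank_le hr ((D.mem_anc g t).1 hg)
  have h2 := Pre.Path.rank_le hr hp
  have h3 := hr _ _ _ ht'.1
  omega

end anc

theorem Pre.openIn_tail (D : Pre K σ) [DecidableEq D.V] (S : Finset D.V)
    (hS : D.DownClosed S) (rank : D.V → ℕ)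
    (hr : ∀ (v : D.V) (j : Fin 2) (t : D.V), (D.gate v).tail j = some t → rank t < rank v)
    (g : D.V) (hg : g ∈ S) (hmax : ∀ v ∈ S, rank v ≤ rank g) (k : Fin 2) (r : D.V)
    (hk : (D.gate g).tail k = some r) : D.OpenIn (S.erase g) r := by
  refine ⟨Finset.mem_erase.2 ⟨?_, hS g hg k r hk⟩, ?_⟩
  · rintro rfl
    have := hr _ _ _ hk
    omega
  · intro g' hg' j' t' ht' hp
    have hg'S := Finset.mem_of_mem_erase hg'
    have hne := Finset.ne_of_mem_erase hg'
    by_cases hgt : D.Path g t'
    · have h1 := Pre.Path.rank_le hr hgt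
      have h2 := hr _ _ _ ht'.1
      have h3 := hmax g' hg'S
      omega
    · exact hne (ht'.2 g k r hk hp hgt).1.symm

variable [CommSemiring K]

theorem Pre.derive (D : Pre K σ) [Fintype D.V] (val : D.V → MvPolynomial σ K)
    (hval : D.IsVal val) (h : D.V → ℕ)
    (hmono : ∀ (v : D.V) (j : Fin 2) (t : D.V), (D.gate v).tail j = some t → h t ≤ h v)
    (hmul : ∀ g a b : D.V, D.gate g = Gate.mul a b →
      (∃ j t, D.ClosedEdge g j t) ∨ ∃ (j : Fin 2) (t : D.V), (D.gate g).tail j = some t ∧ h t < h g)
    (k : ℕ) : ∀ (n : ℕ) (S : Finset D.V), S.card = n → D.DownClosed S → (∀ v ∈ S, h v ≤ k) →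
      ∀ (l : List (MvPolynomial σ K)) (c : MvPolynomial σ K), c ∈ l →
      ∃ l', LDer l (S.card * Fintype.card D.V ^ k) l' ∧ ∀ v, D.OpenIn S v → c * val v ∈ l' := by
  classical
  have hmonoP : ∀ {s t : D.V}, D.Path s t → h s ≤ h t := by
    intro s t hp
    induction hp with
    | refl => exact le_rfl
    | tail _ h2 ih =>
      obtain ⟨j, hj⟩ := h2
      exact ih.trans (hmono _ _ _ hj)
  obtain ⟨rank, hr⟩ := D.acyclic
  induction k using Nat.strong_induction_on with
  | _ k ihk =>
  intro n
  induction n using Nat.strong_induction_on with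
  | _ n ihn =>
  intro S hSn hS hSk l c hc
  rcases S.eq_empty_or_nonempty with rfl | hne
  · refine ⟨l, by simpa using LDer.refl l, ?_⟩
    intro v hv
    exact absurd hv.1 (Finset.notMem_empty v)
  obtain ⟨g, hg, hmax⟩ := Finset.exists_max_image S rank hne
  have hpos : 0 < Fintype.card D.V := Fintype.card_pos_iff.2 ⟨g⟩
  have hpow : ∀ i, 1 ≤ Fintype.card D.V ^ i := fun i => Nat.one_le_pow _ _ hpos
  have hS' : D.DownClosed (S.erase g) := by
    intro v hv j t ht
    have hvS := Finset.mem_of_mem_erase hv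
    refine Finset.mem_erase.2 ⟨?_, hS v hvS j t ht⟩
    rintro rfl
    have h1 := hr _ _ _ ht
    have h2 := hmax v hvS
    omega
  have hcard' : (S.erase g).card + 1 = S.card := Finset.card_erase_add_one hg
  -- derive everything below `g`
  obtain ⟨l1, h1, h1'⟩ := ihn (S.erase g).card (by omega) (S.erase g) rfl hS'
    (fun v hv => hSk v (Finset.mem_of_mem_erase hv)) l c hc
  have hsub : ∀ v, D.OpenIn S v → v = g ∨ D.OpenIn (S.erase g) v := by
    intro v hv
    by_cases hvg : v = g
    · exact Or.inl hvg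
    · exact Or.inr (hv.mono (Finset.erase_subset _ _) (Finset.mem_erase.2 ⟨hvg, hv.1⟩))
  have finish1 : ∀ p, LStep l1 p → p = c * val g → ∃ l', LDer l (S.card * Fintype.card D.V ^ k) l' ∧
      ∀ v, D.OpenIn S v → c * val v ∈ l' := by
    intro p hp hpe
    refine ⟨p :: l1, (h1.step hp).mono ?_, ?_⟩
    · rw [← hcard', add_mul, one_mul]
      exact Nat.add_le_add_left (hpow k) _
    · intro v hv
      rcases hsub v hv with rfl | hv'
      · rw [hpe]; exact List.mem_cons_self
      · exact List.mem_cons_of_mem _ (h1' v hv')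
  have hcl1 : c ∈ l1 := h1.2.1 hc
  cases hgate : D.gate g with
  | var i =>
    refine finish1 (c * X i) (LStep.mulVar hcl1 i) ?_
    rw [hval g, hgate]
    rfl
  | const a =>
    refine finish1 (c * C a) (LStep.mulConst hcl1 a) ?_
    rw [hval g, hgate]
    rfl
  | add a b =>
    have ha := D.openIn_tail S hS rank hr g hg hmax 0 a (by rw [hgate]; rfl)
    have hb := D.openIn_tail S hS rank hr g hg hmax 1 b (by rw [hgate]; rfl)
    refine finish1 (c * val a + c * val b) (LStep.add (h1' a ha) (h1' b hb)) ?_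
    rw [hval g, hgate, ← mul_add]
    rfl
  | mul a b =>
    have hvg : val g = val a * val b := by rw [hval g, hgate]; rfl
    -- the two operands
    have htails : ∀ (j : Fin 2) (t : D.V), (D.gate g).tail j = some t →
        ∃ (k : Fin 2) (r : D.V), k ≠ j ∧ (D.gate g).tail k = some r ∧ val g = val r * val t := by
      intro j t ht
      rw [hgate] at ht
      simp only [Gate.tail, Option.some.injEq] at ht
      by_cases hj : j = 0
      · rw [if_pos hj] at ht
        subst ht
        refine ⟨1, b, by rw [hj]; decide, by rw [hgate]; rfl, ?_⟩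
        rw [hvg, mul_comm]
      · rw [if_neg hj] at ht
        subst ht
        refine ⟨0, a, fun h' => hj h'.symm, by rw [hgate]; rfl, hvg⟩
    rcases hmul g a b hgate with ⟨j, t, ht⟩ | ⟨j, t, ht, hlt⟩
    · -- closed edge
      obtain ⟨k', r, hk', hr', hvr⟩ := htails j t ht.1
      have hgt : ¬ D.Path g t := by
        intro hp
        have h2 := Pre.Path.rank_le hr hp
        have h3 := hr _ _ _ ht.1
        omega
      have hrt : ¬ D.Path r t := fun hp => hk' (ht.2 g k' r hr' hp hgt).2
      set S2 : Finset D.V := (S.erase g).filter (fun v => ¬ D.Path v t) with hS2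
      have hS2sub : S2 ⊆ S.erase g := Finset.filter_subset _ _
      have hS2d : D.DownClosed S2 := by
        intro v hv i u hu
        obtain ⟨hv1, hv2⟩ := Finset.mem_filter.1 hv
        refine Finset.mem_filter.2 ⟨hS' v hv1 i u hu, ?_⟩
        intro hp
        exact Finset.ne_of_mem_erase hv1 (ht.2 v i u hu hp hv2).1
      have hancsub : D.anc t ⊆ S.erase g := by
        intro v hv
        rw [D.mem_anc] at hv
        have htS : t ∈ S := hS g hg j t ht.1
        refine Finset.mem_erase.2 ⟨?_, hS.path hv htS⟩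
        rintro rfl
        exact hgt hv
      have hcardsum : S2.card + (D.anc t).card ≤ (S.erase g).card := by
        have hdisj : Disjoint S2 (D.anc t) := by
          rw [Finset.disjoint_left]
          intro v hv hv'
          exact (Finset.mem_filter.1 hv).2 ((D.mem_anc v t).1 hv')
        rw [← Finset.card_union_of_disjoint hdisj]
        exact Finset.card_le_card (Finset.union_subset hS2sub hancsub)
      have hrS2 : D.OpenIn S2 r := by
        have h2 := D.openIn_tail S hS rank hr g hg hmax k' r hr'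
        exact h2.mono hS2sub (Finset.mem_filter.2 ⟨h2.1, hrt⟩)
      obtain ⟨l2, h2, h2'⟩ := ihn S2.card (by omega) S2 rfl hS2d
        (fun v hv => hSk v (Finset.mem_of_mem_erase (hS2sub hv))) l c hc
      obtain ⟨l3, h3, h3'⟩ := ihn (D.anc t).card (by omega) (D.anc t) rfl (D.anc_downClosed t)
        (fun v hv => hSk v (Finset.mem_of_mem_erase (hancsub hv))) l2 (c * val r)
        (h2' r hrS2)
      refine ⟨l3, (h2.trans h3).mono ?_, ?_⟩
      · rw [← add_mul]
        exact Nat.mul_le_mul (by omega) le_rfl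
      · intro v hv
        by_cases hvg' : v = g
        · subst hvg'
          rw [hvr, ← mul_assoc]
          exact h3' t (D.anc_openIn t)
        · have hvt : ¬ D.Path v t := hv.2 g hg j t ht
          refine h3.2.1 (h2' v (hv.mono (hS2sub.trans (Finset.erase_subset _ _)) ?_))
          exact Finset.mem_filter.2 ⟨Finset.mem_erase.2 ⟨hvg', hv.1⟩, hvt⟩
    · -- the level drops
      obtain ⟨k', r, hk', hr', hvr⟩ := htails j t ht
      have hgk : h g ≤ k := hSk g hg
      have hro := D.openIn_tail S hS rank hr g hg hmax k' r hr'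
      obtain ⟨l2, h2, h2'⟩ := ihk (h t) (by omega) (D.anc t).card (D.anc t) rfl
        (D.anc_downClosed t) (fun v hv => hmonoP ((D.mem_anc v t).1 hv)) l1 (c * val r)
        (h1' r hro)
      refine ⟨l2, (h1.trans h2).mono ?_, ?_⟩
      · have h3 : (D.anc t).card * Fintype.card D.V ^ h t ≤ Fintype.card D.V ^ k := by
          calc (D.anc t).card * Fintype.card D.V ^ h t
              ≤ Fintype.card D.V * Fintype.card D.V ^ h t :=
                Nat.mul_le_mul (Finset.card_le_univ _) le_rfl
            _ = Fintype.card D.V ^ (h t + 1) := by rw [pow_succ, mul_comm]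
            _ ≤ Fintype.card D.V ^ k := Nat.pow_le_pow_right hpos (by omega)
        have h4 : S.card * Fintype.card D.V ^ k =
            (S.erase g).card * Fintype.card D.V ^ k + Fintype.card D.V ^ k := by
          rw [← hcard', add_mul, one_mul]
        omega
      · intro v hv
        rcases hsub v hv with rfl | hv'
        · rw [hvr, ← mul_assoc]
          exact h2' t (D.anc_openIn t)
        · exact h2.2.1 (h1' v hv')

/-- Skew programs from circuits with small levels. -/
theorem Pre.exists_lslp (D : Pre K σ) (val : D.V → MvPolynomial σ K)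
    (hval : D.IsVal val) (h : D.V → ℕ)
    (hmono : ∀ (v : D.V) (j : Fin 2) (t : D.V), (D.gate v).tail j = some t → h t ≤ h v)
    (hmul : ∀ g a b : D.V, D.gate g = Gate.mul a b →
      (∃ j t, D.ClosedEdge g j t) ∨ ∃ (j : Fin 2) (t : D.V), (D.gate g).tail j = some t ∧ h t < h g)
    (o : D.V) (r : ℕ) (hr : h o ≤ r) (N : ℕ) (hN : @Fintype.card D.V D.fin ≤ N) :
    ∃ l : List (MvPolynomial σ K), LSLP l ∧ l.length ≤ 1 + N ^ (r + 1) ∧ val o ∈ l := by
  have := D.fin
  have hN' : Fintype.card D.V ≤ N := by
    convert hN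
  have hmonoP : ∀ {s t : D.V}, D.Path s t → h s ≤ h t := by
    intro s t hp
    induction hp with
    | refl => exact le_rfl
    | tail _ h2 ih =>
      obtain ⟨j, hj⟩ := h2
      exact ih.trans (hmono _ _ _ hj)
  obtain ⟨l', h1, h2⟩ := D.derive val hval h hmono hmul r (D.anc o).card (D.anc o) rfl
    (D.anc_downClosed o) (fun v hv => (hmonoP ((D.mem_anc v o).1 hv)).trans hr) [1] 1
    (by simp)
  refine ⟨l', h1.1 LSLP.one, h1.2.2.trans ?_, ?_⟩
  · simp only [List.length_singleton]
    refine Nat.add_le_add_left ?_ _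
    rw [pow_succ, mul_comm]
    exact Nat.mul_le_mul (Nat.pow_le_pow_left hN' _) ((Finset.card_le_univ _).trans hN')
  · have := h2 o (D.anc_openIn o)
    rwa [one_mul] at this

/-- The pre-circuit underlying a circuit. -/
def Circuit.toPre (D : Circuit K σ) : Pre K σ where
  V := D.V
  fin := D.fin
  gate := D.gate
  acyclic := D.acyclic

/-- Skew programs from weakly skew circuits. -/
theorem Circuit.WeaklySkew.exists_lslp {D : Circuit K σ} (h : D.WeaklySkew)
    {f : MvPolynomial σ K} (hf : D.Computes f) :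
    ∃ l : List (MvPolynomial σ K), LSLP l ∧ l.length ≤ 1 + D.size ∧ f ∈ l := by
  obtain ⟨val, hval, rfl⟩ := hf
  obtain ⟨l, h1, h2, h3⟩ := D.toPre.exists_lslp val hval (fun _ => 0) (fun _ _ _ _ => le_rfl)
    (fun g a b hg => Or.inl (h g a b hg)) D.out 0 le_rfl D.size le_rfl
  exact ⟨l, h1, by simpa using h2, h3⟩

end merge

end Pool.Agent.H80
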