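import Pool.Agent.H80.Merge
import Pool.Agent.H80.Complete

set_option autoImplicit false

namespace Pool.Agent.H80

open MvPolynomial

universe u v w

/-! ### Mapping the tree family -/

theorem map_tp {K : Type u} {K' : Type v} [CommSemiring K] [CommSemiring K'] (φ : K →+* K')
    (L : Type) [Fintype L] (m : ℕ) (i : L) :
    MvPolynomial.map φ (tp K L m i) = tp K' L m i := by
  induction m using Nat.strong_induction_on generalizing i with
  | _ m ih =>
    match m, ih with
    | 0, _ => simp [tp]
    | 1, _ => simp [tp]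
    | (m + 2), ih =>
      rw [tp, tp]
      simp only [map_sum, map_mul, map_X]
      refine Finset.sum_congr rfl fun j _ => Finset.sum_congr rfl fun k _ => ?_
      congr 1
      refine Finset.sum_congr rfl fun a _ => ?_
      rw [ih (a.1 + 1) (by have := a.2; omega), ih (m + 1 - a.1) (by omega)]

theorem map_treePoly {K : Type u} {K' : Type v} [CommSemiring K] [CommSemiring K']
    (φ : K →+* K') (n : ℕ) :
    MvPolynomial.map φ (treePoly K n) = treePoly K' n := by
  change MvPolynomial.map φ (rename (tvarEquiv (n + 1)) (tsum K (Fin (n + 1)) (n + 1) 0)) =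
    rename (tvarEquiv (n + 1)) (tsum K' (Fin (n + 1)) (n + 1) 0)
  rw [map_rename]
  simp only [tsum, map_sum, map_tp]

theorem substHom_inl {K : Type u} {K' : Type v} [CommSemiring K] [CommSemiring K']
    {σ : Type} (φ : K →+* K') (p : MvPolynomial σ K) :
    substHom (fun i => (Sum.inl i : σ ⊕ K')) φ p = MvPolynomial.map φ p := by
  have h : substHom (fun i => (Sum.inl i : σ ⊕ K')) φ = MvPolynomial.map φ := by
    apply MvPolynomial.ringHom_ext
    · intro r
      simp [substHom]
    · intro i
      simp [substHom]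
  rw [h]

/-- The truth of `VP = VP_ws` passes to extensions. -/
theorem VP_eq_of_hom {K : Type u} {L : Type v} [CommSemiring K] [CommSemiring L]
    [Nontrivial K] [Nontrivial L] (φ : K →+* L) (h : VP K = VPws K) : VP L = VPws L := by
  rw [VP_eq_VPws_iff] at h ⊢
  obtain ⟨p, hp⟩ := h
  refine ⟨p, fun n => ?_⟩
  obtain ⟨D, h0, h1, h2⟩ : ∃ D : Circuit K (Fin (nvar n)), D.WeaklySkew ∧
    D.Computes (treePoly K n) ∧ D.size ≤ p.eval n := hp n
  change ∃ D : Circuit L (Fin (nvar n)), D.WeaklySkew ∧
    D.Computes (treePoly L n) ∧ D.size ≤ p.eval n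
  refine ⟨D.relabel (fun i => Sum.inl i) φ, D.relabel_weaklySkew _ _ h0, ?_, h2⟩
  have h3 := D.relabel_computes (fun i => (Sum.inl i : Fin (nvar n) ⊕ L)) φ h1
  rw [substHom_inl, map_treePoly] at h3
  exact h3

/-! ### Skew programs and coefficient rings -/

theorem LStep.map {K : Type u} {K' : Type v} [CommSemiring K] [CommSemiring K'] {σ : Type}
    (φ : K →+* K') {l : List (MvPolynomial σ K)} {p : MvPolynomial σ K} (h : LStep l p) :
    LStep (l.map (MvPolynomial.map φ)) (MvPolynomial.map φ p) := by
  cases h with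
  | mulVar hq i =>
    rw [map_mul, map_X]
    exact LStep.mulVar (List.mem_map_of_mem hq) i
  | mulConst hq c =>
    rw [map_mul, map_C]
    exact LStep.mulConst (List.mem_map_of_mem hq) _
  | add ha hb =>
    rw [map_add]
    exact LStep.add (List.mem_map_of_mem ha) (List.mem_map_of_mem hb)

theorem LSLP.map {K : Type u} {K' : Type v} [CommSemiring K] [CommSemiring K'] {σ : Type}
    (φ : K →+* K') {l : List (MvPolynomial σ K)} (h : LSLP l) :
    LSLP (l.map (MvPolynomial.map φ)) := by
  induction h with
  | one => simpa using LSLP.one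
  | cons h hp ih => exact LSLP.cons ih (hp.map φ)

/-- A skew program uses finitely many constants. -/
theorem LSLP.descend {K : Type u} {L : Type v} [Field K] [Field L] [Algebra K L] {σ : Type}
    {l : List (MvPolynomial σ L)} (h : LSLP l) :
    ∃ s : Finset L, ∀ A : Subalgebra K L, (s : Set L) ⊆ A →
      ∃ l' : List (MvPolynomial σ A), LSLP l' ∧ l'.map (MvPolynomial.map (algebraMap A L)) = l := by
  classical
  induction h with
  | one => exact ⟨∅, fun A _ => ⟨[1], LSLP.one, by simp⟩⟩
  | cons h hp ih =>
    rename_i l p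
    obtain ⟨s, hs⟩ := ih
    cases hp with
    | mulVar hq i =>
      refine ⟨s, fun A hA => ?_⟩
      obtain ⟨l', h1, rfl⟩ := hs A hA
      obtain ⟨q', hq', rfl⟩ := List.mem_map.1 hq
      exact ⟨q' * X i :: l', LSLP.cons h1 (LStep.mulVar hq' i), by simp⟩
    | mulConst hq c =>
      refine ⟨insert c s, fun A hA => ?_⟩
      have hc : c ∈ A := hA (by simp)
      obtain ⟨l', h1, rfl⟩ := hs A (fun x hx => hA (by simp at hx; simp [hx]))
      obtain ⟨q', hq', rfl⟩ := List.mem_map.1 hq
      refine ⟨q' * C ⟨c, hc⟩ :: l', LSLP.cons h1 (LStep.mulConst hq' _), ?_⟩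
      simp only [List.map_cons, map_mul, map_C]
      rfl
    | add ha hb =>
      refine ⟨s, fun A hA => ?_⟩
      obtain ⟨l', h1, rfl⟩ := hs A hA
      obtain ⟨a', ha', rfl⟩ := List.mem_map.1 ha
      obtain ⟨b', hb', rfl⟩ := List.mem_map.1 hb
      exact ⟨(a' + b') :: l', LSLP.cons h1 (LStep.add ha' hb'), by simp⟩

/-! ### Coordinates -/

section coord

variable {K : Type u} [CommSemiring K] {B : Type v} [CommSemiring B] [Algebra K B] {σ : Type}

/-- Apply a linear form to the coefficients of a polynomial. -/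
noncomputable def cmap (lam : B →ₗ[K] K) (p : MvPolynomial σ B) : MvPolynomial σ K :=
  ∑ d ∈ p.support, monomial d (lam (p.coeff d))

theorem coeff_cmap (lam : B →ₗ[K] K) (p : MvPolynomial σ B) (d : σ →₀ ℕ) :
    (cmap lam p).coeff d = lam (p.coeff d) := by
  classical
  unfold cmap
  rw [coeff_sum]
  simp only [coeff_monomial]
  rw [Finset.sum_ite_eq']
  split_ifs with h
  · rfl
  · rw [notMem_support_iff.1 h, map_zero]

theorem cmap_add (lam : B →ₗ[K] K) (p q : MvPolynomial σ B) :
    cmap lam (p + q) = cmap lam p + cmap lam q := by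
  ext d
  rw [coeff_cmap, coeff_add, coeff_add, map_add, coeff_cmap, coeff_cmap]

theorem cmap_mul_X (lam : B →ₗ[K] K) (p : MvPolynomial σ B) (i : σ) :
    cmap lam (p * X i) = cmap lam p * X i := by
  classical
  ext d
  rw [coeff_cmap, coeff_mul_X', coeff_mul_X']
  split_ifs
  · rw [coeff_cmap]
  · rw [map_zero]

theorem coeff_mul_C' (p : MvPolynomial σ K) (c : K) (d : σ →₀ ℕ) :
    (p * C c).coeff d = p.coeff d * c := by
  rw [mul_comm, coeff_C_mul, mul_comm]

theorem cmap_map (lam : B →ₗ[K] K) (p : MvPolynomial σ K) :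
    cmap lam (MvPolynomial.map (algebraMap K B) p) = p * C (lam 1) := by
  ext d
  rw [coeff_cmap, coeff_map, coeff_mul_C', Algebra.algebraMap_eq_smul_one, map_smul, smul_eq_mul]

variable {ι : Type w} [Fintype ι] (b : Module.Basis ι K B)

theorem cmap_mul_C (i : ι) (p : MvPolynomial σ B) (c : B) :
    cmap (b.coord i) (p * C c) =
      ∑ j : ι, cmap (b.coord j) p * C (b.coord i (b j * c)) := by
  ext d
  rw [coeff_cmap, coeff_mul_C', coeff_sum]
  simp only [coeff_mul_C', coeff_cmap]
  conv_lhs => rw [← b.sum_repr (p.coeff d), Finset.sum_mul, map_sum]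
  refine Finset.sum_congr rfl fun j _ => ?_
  rw [smul_mul_assoc, map_smul, smul_eq_mul]
  rfl

/-- Linear combinations in skew programs. -/
theorem LDer.linComb {κ : Type*} (s : Finset κ) (q : κ → MvPolynomial σ K) (c : κ → K)
    (l : List (MvPolynomial σ K)) (hq : ∀ i ∈ s, q i ∈ l) (hl : l ≠ []) :
    ∃ l', LDer l (2 * s.card + 1) l' ∧ ∑ i ∈ s, q i * C (c i) ∈ l' := by
  classical
  induction s using Finset.induction_on with
  | empty =>
    obtain ⟨a, ha⟩ := List.exists_mem_of_ne_nil l hl
    refine ⟨a * C 0 :: l, (LDer.refl l).step (LStep.mulConst ha 0), ?_⟩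
    simp
  | insert i s hi ih =>
    obtain ⟨l', h1, h2⟩ := ih (fun j hj => hq j (Finset.mem_insert_of_mem hj))
    have h3 := h1.step (LStep.mulConst (h1.2.1 (hq i (Finset.mem_insert_self i s))) (c i))
    have h4 := h3.step (LStep.add (a := q i * C (c i)) (b := ∑ i ∈ s, q i * C (c i))
      List.mem_cons_self (List.mem_cons_of_mem _ h2))
    refine ⟨_, ⟨h4.1, h4.2.1, ?_⟩, ?_⟩
    · rw [Finset.card_insert_of_notMem hi]
      have := h4.2.2
      omega
    · rw [Finset.sum_insert hi]
      exact List.mem_cons_self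

theorem LDer.all {κ : Type*} (s : Finset κ) (p : κ → MvPolynomial σ K) (k : ℕ)
    (l : List (MvPolynomial σ K))
    (h : ∀ i ∈ s, ∀ l₁ : List (MvPolynomial σ K), l ⊆ l₁ → ∃ l', LDer l₁ k l' ∧ p i ∈ l') :
    ∃ l', LDer l (s.card * k) l' ∧ ∀ i ∈ s, p i ∈ l' := by
  classical
  induction s using Finset.induction_on with
  | empty => exact ⟨l, by simpa using LDer.refl l, by simp⟩
  | insert i s hi ih =>
    obtain ⟨l', h1, h2⟩ := ih (fun j hj => h j (Finset.mem_insert_of_mem hj))
    obtain ⟨l'', h3, h4⟩ := h i (Finset.mem_insert_self i s) l' h1.2.1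
    refine ⟨l'', ?_, ?_⟩
    · rw [Finset.card_insert_of_notMem hi, add_mul, one_mul]
      exact h1.trans h3
    · intro j hj
      rcases Finset.mem_insert.1 hj with rfl | hj
      · exact h4
      · exact h3.2.1 (h2 j hj)

theorem LSLP.ne_nil {l : List (MvPolynomial σ K)} (h : LSLP l) : l ≠ [] := by
  cases h <;> simp

/-- The coordinates of a skew program over a finite free algebra. -/
theorem LSLP.coord {l : List (MvPolynomial σ B)} (h : LSLP l) :
    ∃ l' : List (MvPolynomial σ K), LSLP l' ∧
      l'.length ≤ 1 + l.length * (Fintype.card ι * (2 * Fintype.card ι + 1)) ∧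
      ∀ q ∈ l, ∀ i : ι, cmap (b.coord i) q ∈ l' := by
  classical
  induction h with
  | one =>
    obtain ⟨l', h1, h2⟩ := LDer.all (Finset.univ : Finset ι)
      (fun i => (1 : MvPolynomial σ K) * C (b.coord i 1)) 1 [1] (by
        intro i _ l1 hl1
        exact ⟨_, (LDer.refl l1).step (LStep.mulConst (hl1 (by simp)) _), List.mem_cons_self⟩)
    refine ⟨l', h1.1 LSLP.one, h1.2.2.trans ?_, ?_⟩
    · simp only [List.length_singleton, Finset.card_univ]
      nlinarith [Nat.zero_le (Fintype.card ι)]
    · intro q hq i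
      simp only [List.mem_singleton] at hq
      subst hq
      have := h2 i (Finset.mem_univ i)
      have h3 := cmap_map (σ := σ) (b.coord i) (1 : MvPolynomial σ K)
      rw [map_one] at h3
      rw [h3]
      exact this
  | cons h hp ih =>
    rename_i l p
    obtain ⟨l', h1, h2, h3⟩ := ih
    have key : ∃ l'', LDer l' (Fintype.card ι * (2 * Fintype.card ι + 1)) l'' ∧
        ∀ i : ι, cmap (b.coord i) p ∈ l'' := by
      cases hp with
      | mulVar hq j =>
        obtain ⟨l'', h4, h5⟩ := LDer.all (Finset.univ : Finset ι)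
          (fun i => cmap (b.coord i) (_ * X j)) (2 * Fintype.card ι + 1) l' (by
            intro i _ l1 hl1
            refine ⟨_, ((LDer.refl l1).step
              (LStep.mulVar (hl1 (h3 _ hq i)) j)).mono (by omega), ?_⟩
            rw [cmap_mul_X]
            exact List.mem_cons_self)
        rw [Finset.card_univ] at h4
        exact ⟨l'', h4, fun i => h5 i (Finset.mem_univ i)⟩
      | mulConst hq c =>
        obtain ⟨l'', h4, h5⟩ := LDer.all (Finset.univ : Finset ι)
          (fun i => cmap (b.coord i) (_ * C c)) (2 * Fintype.card ι + 1) l' (by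
            intro i _ l1 hl1
            obtain ⟨l2, h6, h7⟩ := LDer.linComb (Finset.univ : Finset ι)
              (fun j => cmap (b.coord j) _) (fun j => b.coord i (b j * c)) l1
              (fun j _ => hl1 (h3 _ hq j)) (by
                intro h8
                rw [h8] at hl1
                exact h1.ne_nil (List.subset_nil.1 hl1))
            rw [Finset.card_univ] at h6
            refine ⟨l2, h6, ?_⟩
            rw [cmap_mul_C]
            exact h7)
        rw [Finset.card_univ] at h4
        exact ⟨l'', h4, fun i => h5 i (Finset.mem_univ i)⟩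
      | add ha hb =>
        obtain ⟨l'', h4, h5⟩ := LDer.all (Finset.univ : Finset ι)
          (fun i => cmap (b.coord i) (_ + _)) (2 * Fintype.card ι + 1) l' (by
            intro i _ l1 hl1
            refine ⟨_, ((LDer.refl l1).step
              (LStep.add (hl1 (h3 _ ha i)) (hl1 (h3 _ hb i)))).mono (by omega), ?_⟩
            rw [cmap_add]
            exact List.mem_cons_self)
        rw [Finset.card_univ] at h4
        exact ⟨l'', h4, fun i => h5 i (Finset.mem_univ i)⟩
    obtain ⟨l'', h4, h5⟩ := key
    refine ⟨l'', h4.1 h1, ?_, ?_⟩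
    · rw [List.length_cons, add_mul, one_mul]
      have := h4.2.2
      omega
    · intro q hq i
      rcases List.mem_cons.1 hq with rfl | hq
      · exact h5 i
      · exact h4.2.1 (h3 q hq i)

end coord

end Pool.Agent.H80
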