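import Pool.Agent.H80.Circuit

set_option autoImplicit false

namespace Pool.Agent.H80

open MvPolynomial

universe u v

/-! ### Skew straight-line programs -/

section LSLP

variable {K : Type u} [CommSemiring K] {σ : Type}

/-- One step of a skew straight-line program: multiply an earlier result by a variable or by a
constant, or add two earlier results. -/
inductive LStep (l : List (MvPolynomial σ K)) : MvPolynomial σ K → Prop
  | mulVar {q : MvPolynomial σ K} (hq : q ∈ l) (i : σ) : LStep l (q * X i)
  | mulConst {q : MvPolynomial σ K} (hq : q ∈ l) (c : K) : LStep l (q * C c)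
  | add {a b : MvPolynomial σ K} (ha : a ∈ l) (hb : b ∈ l) : LStep l (a + b)

/-- Skew straight-line programs (latest result first), starting from the constant `1`. -/
inductive LSLP : List (MvPolynomial σ K) → Prop
  | one : LSLP [1]
  | cons {l : List (MvPolynomial σ K)} {p : MvPolynomial σ K} (h : LSLP l) (hp : LStep l p) :
      LSLP (p :: l)

/-- `LDer l k l'`: the program `l` extends to `l'` in at most `k` further steps. -/
def LDer (l : List (MvPolynomial σ K)) (k : ℕ) (l' : List (MvPolynomial σ K)) : Prop :=
  (LSLP l → LSLP l') ∧ l ⊆ l' ∧ l'.length ≤ l.length + k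

theorem LDer.refl (l : List (MvPolynomial σ K)) : LDer l 0 l := ⟨id, List.Subset.refl _, le_rfl⟩

theorem LDer.trans {l l' l'' : List (MvPolynomial σ K)} {k k' : ℕ} (h : LDer l k l')
    (h' : LDer l' k' l'') : LDer l (k + k') l'' :=
  ⟨fun hl => h'.1 (h.1 hl), List.Subset.trans h.2.1 h'.2.1, by
    have := h.2.2; have := h'.2.2; omega⟩

theorem LDer.step {l l' : List (MvPolynomial σ K)} {k : ℕ} (h : LDer l k l')
    {p : MvPolynomial σ K} (hp : LStep l' p) : LDer l (k + 1) (p :: l') :=
  ⟨fun hl => LSLP.cons (h.1 hl) hp, fun _ hx => List.mem_cons_of_mem _ (h.2.1 hx), by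
    have := h.2.2; simp; omega⟩

theorem LDer.mono {l l' : List (MvPolynomial σ K)} {k k' : ℕ} (h : LDer l k l') (hk : k ≤ k') :
    LDer l k' l' := ⟨h.1, h.2.1, h.2.2.trans (by omega)⟩

/-! #### From skew programs to circuits -/

/-- A circuit is skew if one of the two operands of each multiplication is an input which is used
nowhere else. -/
def Circuit.Skew (D : Circuit K σ) : Prop :=
  ∀ g a b : D.V, D.gate g = Gate.mul a b → ∃ (j : Fin 2) (t : D.V), (D.gate g).tail j = some t ∧
    (∀ k : Fin 2, (D.gate t).tail k = none) ∧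
    ∀ (w : D.V) (k : Fin 2), (D.gate w).tail k = some t → w = g ∧ k = j

def Pre.Skew (D : Pre K σ) : Prop :=
  ∀ g a b : D.V, D.gate g = Gate.mul a b → ∃ (j : Fin 2) (t : D.V), (D.gate g).tail j = some t ∧
    (∀ k : Fin 2, (D.gate t).tail k = none) ∧
    ∀ (w : D.V) (k : Fin 2), (D.gate w).tail k = some t → w = g ∧ k = j

omit [CommSemiring K] in
theorem Circuit.Skew.weaklySkew {D : Circuit K σ} (h : D.Skew) : D.WeaklySkew := by
  intro g a b hg
  obtain ⟨j, t, ht, hin, hout⟩ := h g a b hg
  refine ⟨j, t, ht, ?_⟩
  intro w k s hs hst _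
  have hst' : s = t := by
    rcases Relation.ReflTransGen.cases_tail hst with h1 | ⟨c, _, k', hk'⟩
    · exact h1.symm
    · rw [hin k'] at hk'
      simp at hk'
  subst hst'
  exact hout w k hs

omit [CommSemiring K] in
theorem Pre.prune_skew (D : Pre K σ) (o : D.V) (h : D.Skew) : (D.prune o).Skew := by
  intro g a b hg
  obtain ⟨j, t, ht, hin, hout⟩ := h g.1 a.1 b.1 (Pre.restrictGate_mul _ _ _ _ _ hg)
  have hto : D.Path t o := Relation.ReflTransGen.head ⟨j, ht⟩ g.2
  refine ⟨j, ⟨t, hto⟩, (Pre.restrictGate_tail _ _ _ _ _).2 ht, ?_, ?_⟩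
  · intro k
    cases hk : ((D.prune o).gate ⟨t, hto⟩).tail k with
    | none => rfl
    | some s =>
      have h1 := (Pre.restrictGate_tail _ _ _ _ _).1 hk
      rw [hin k] at h1
      simp at h1
  · intro w k hk
    have h1 := (Pre.restrictGate_tail _ _ _ _ _).1 hk
    obtain ⟨h2, h3⟩ := hout w.1 k h1
    exact ⟨Subtype.ext h2, h3⟩

/-- The invariant for the construction: `O` is the set of nodes that may be used further. -/
def Pre.Inv (D : Pre K σ) (O : D.V → Prop) : Prop :=
  ∀ g a b : D.V, D.gate g = Gate.mul a b → ∃ (j : Fin 2) (t : D.V), (D.gate g).tail j = some t ∧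
    (∀ k : Fin 2, (D.gate t).tail k = none) ∧ ¬ O t ∧
    ∀ (w : D.V) (k : Fin 2), (D.gate w).tail k = some t → w = g ∧ k = j

omit [CommSemiring K] in
theorem Pre.Inv.skew {D : Pre K σ} {O : D.V → Prop} (h : D.Inv O) : D.Skew := by
  intro g a b hg
  obtain ⟨j, t, h1, h2, _, h3⟩ := h g a b hg
  exact ⟨j, t, h1, h2, h3⟩

omit [CommSemiring K] in
theorem Pre.mapGate_mul_some {V W : Type} (f : V → W) (g : Gate K σ V) (a b : W)
    (h : Pre.mapGate f g = Gate.mul a b) : ∃ a' b', g = Gate.mul a' b' ∧ f a' = a ∧ f b' = b := by
  cases g with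
  | var i => simp [Pre.mapGate] at h
  | const c => simp [Pre.mapGate] at h
  | add a' b' => simp [Pre.mapGate] at h
  | mul a' b' =>
    simp only [Pre.mapGate, Gate.mul.injEq] at h
    exact ⟨a', b', rfl, h.1, h.2⟩

/-- Extend a set of nodes to the new circuit. -/
def Pre.extSet {V : Type} (O : V → Prop) (b : Prop) : Option V → Prop
  | none => b
  | some v => O v

omit [CommSemiring K] in
/-- Adding a node which is not a multiplication and uses only open nodes. -/
theorem Pre.inv_addNode_of_not_mul (D : Pre K σ) (O : D.V → Prop) (h : D.Inv O)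
    (g : Gate K σ D.V) (hg : ∀ a b, g ≠ Gate.mul a b) (hO : ∀ k t, g.tail k = some t → O t)
    (b : Prop) : (D.addNode g).Inv (Pre.extSet O b) := by
  intro w a' b' hw
  cases w with
  | none =>
    obtain ⟨a'', b'', h1, _, _⟩ := Pre.mapGate_mul_some some g a' b' hw
    exact absurd h1 (hg _ _)
  | some w =>
    obtain ⟨a'', b'', h1, _, _⟩ := Pre.mapGate_mul_some some (D.gate w) a' b' hw
    obtain ⟨j, t, ht, hin, hnO, hout⟩ := h w a'' b'' h1
    refine ⟨j, some t, ?_, ?_, hnO, ?_⟩
    · have : (Pre.mapGate some (D.gate w)).tail j = some (some t) := by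
        rw [Pre.mapGate_tail, ht]; rfl
      exact this
    · intro k
      have : (Pre.mapGate some (D.gate t)).tail k = none := by
        rw [Pre.mapGate_tail, hin k]; rfl
      exact this
    · intro w' k hk
      cases w' with
      | none =>
        exfalso
        have h2 : (Pre.mapGate some g).tail k = some (some t) := hk
        rw [Pre.mapGate_tail, Option.map_eq_some_iff] at h2
        obtain ⟨t', ht', h3⟩ := h2
        have h4 : t' = t := Option.some_injective _ h3
        subst h4
        exact hnO (hO k t' ht')
      | some w' =>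
        have h2 : (Pre.mapGate some (D.gate w')).tail k = some (some t) := hk
        rw [Pre.mapGate_tail, Option.map_eq_some_iff] at h2
        obtain ⟨t', ht', h3⟩ := h2
        have h4 : t' = t := Option.some_injective _ h3
        subst h4
        obtain ⟨h5, h6⟩ := hout w' k ht'
        exact ⟨congrArg some h5, h6⟩

omit [CommSemiring K] in
/-- Adding a multiplication of an open node by a fresh input. -/
theorem Pre.inv_addNode_mul (D : Pre K σ) (O : D.V → Prop) (h : D.Inv O)
    (a t : D.V) (ha : O a) (ht : ¬ O t) (hin : ∀ k, (D.gate t).tail k = none)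
    (hfresh : ∀ w k, (D.gate w).tail k ≠ some t) :
    (D.addNode (Gate.mul a t)).Inv (Pre.extSet O True) := by
  have hat : a ≠ t := fun h' => ht (h' ▸ ha)
  intro w a' b' hw
  cases w with
  | none =>
    refine ⟨1, some t, rfl, ?_, ht, ?_⟩
    · intro k
      have : (Pre.mapGate some (D.gate t)).tail k = none := by
        rw [Pre.mapGate_tail, hin k]; rfl
      exact this
    · intro w' k hk
      cases w' with
      | none =>
        refine ⟨rfl, ?_⟩
        have h2 : (if k = 0 then some a else some t) = some t := by
          have h3 : (Pre.mapGate some (Gate.mul a t : Gate K σ D.V)).tail k = some (some t) := hk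
          simp only [Pre.mapGate, Gate.tail] at h3
          exact Option.some_injective _ h3
        by_contra hk1
        have hk0 : k = 0 := by omega
        rw [if_pos hk0] at h2
        exact hat (Option.some_injective _ h2)
      | some w' =>
        exfalso
        have h2 : (Pre.mapGate some (D.gate w')).tail k = some (some t) := hk
        rw [Pre.mapGate_tail, Option.map_eq_some_iff] at h2
        obtain ⟨t', ht', h3⟩ := h2
        have h4 : t' = t := Option.some_injective _ h3
        subst h4
        exact hfresh w' k ht'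
  | some w =>
    obtain ⟨a'', b'', h1, _, _⟩ := Pre.mapGate_mul_some some (D.gate w) a' b' hw
    obtain ⟨j, t0, ht0, hin0, hnO, hout⟩ := h w a'' b'' h1
    refine ⟨j, some t0, ?_, ?_, hnO, ?_⟩
    · have : (Pre.mapGate some (D.gate w)).tail j = some (some t0) := by
        rw [Pre.mapGate_tail, ht0]; rfl
      exact this
    · intro k
      have : (Pre.mapGate some (D.gate t0)).tail k = none := by
        rw [Pre.mapGate_tail, hin0 k]; rfl
      exact this
    · intro w' k hk
      cases w' with
      | none =>
        exfalso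
        have h2 : (if k = 0 then some a else some t) = some t0 := by
          have h3 : (Pre.mapGate some (Gate.mul a t : Gate K σ D.V)).tail k = some (some t0) := hk
          simp only [Pre.mapGate, Gate.tail] at h3
          exact Option.some_injective _ h3
        split_ifs at h2 with hk0
        · have := Option.some_injective _ h2
          subst this
          exact hnO ha
        · have := Option.some_injective _ h2
          subst this
          exact hfresh w j ht0
      | some w' =>
        have h2 : (Pre.mapGate some (D.gate w')).tail k = some (some t0) := hk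
        rw [Pre.mapGate_tail, Option.map_eq_some_iff] at h2
        obtain ⟨t', ht', h3⟩ := h2
        have h4 : t' = t0 := Option.some_injective _ h3
        subst h4
        obtain ⟨h5, h6⟩ := hout w' k ht'
        exact ⟨congrArg some h5, h6⟩

omit [CommSemiring K] in
/-- Adding a multiplication by a fresh input node carrying the input gate `g₀`. -/
theorem Pre.inv_addMul (D : Pre K σ) (O : D.V → Prop) (h : D.Inv O) (g₀ : Gate K σ D.V)
    (hg₀ : ∀ k, g₀.tail k = none) (a : D.V) (ha : O a) :
    ((D.addNode g₀).addNode (Gate.mul (some a) none)).Inv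
      (Pre.extSet (Pre.extSet O False) True) := by
  refine Pre.inv_addNode_mul (D.addNode g₀) (Pre.extSet O False) ?_ (some a) none ha
    (fun h' => h') ?_ ?_
  · refine D.inv_addNode_of_not_mul O h g₀ ?_ ?_ False
    · rintro a' b' rfl
      have := hg₀ 0
      simp [Gate.tail] at this
    · intro k t hk
      rw [hg₀ k] at hk
      simp at hk
  · intro k
    have : (Pre.mapGate some g₀).tail k = none := by
      rw [Pre.mapGate_tail, hg₀ k]; rfl
    exact this
  · intro w k hk
    cases w with
    | none =>
      have h2 : (Pre.mapGate some g₀).tail k = some none := hk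
      rw [Pre.mapGate_tail, hg₀ k] at h2
      simp at h2
    | some w =>
      have h2 : (Pre.mapGate some (D.gate w)).tail k = some none := hk
      rw [Pre.mapGate_tail, Option.map_eq_some_iff] at h2
      obtain ⟨t', _, h3⟩ := h2
      simp at h3

theorem LSLP.exists_pre {l : List (MvPolynomial σ K)} (h : LSLP l) :
    ∃ (D : Pre K σ) (val : D.V → MvPolynomial σ K) (O : D.V → Prop), D.IsVal val ∧ D.Inv O ∧
      @Fintype.card D.V D.fin + 1 ≤ 2 * l.length ∧ ∀ p ∈ l, ∃ v, O v ∧ val v = p := by
  induction h with
  | one =>
    refine ⟨(Pre.empty K σ).addNode (Gate.const 1), Pre.addVal _ _ (fun v => v.elim),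
      Pre.extSet (fun _ => True) True, ?_, ?_, ?_, ?_⟩
    · exact Pre.addNode_isVal _ _ _ (fun v => v.elim)
    · refine Pre.inv_addNode_of_not_mul (Pre.empty K σ) (fun _ => True)
        (fun g => Empty.elim g) (Gate.const 1) (by simp) ?_ True
      intro k t hk
      simp [Gate.tail] at hk
    · rw [Pre.addNode_card]
      rfl
    · intro p hp
      simp only [List.mem_singleton] at hp
      subst hp
      exact ⟨none, trivial, C_1⟩
  | cons h hp ih =>
    rename_i l p
    obtain ⟨D, val, O, hval, hinv, hcard, hmem⟩ := ih
    have keymul : ∀ (g₀ : Gate K σ D.V) (hg₀ : ∀ k, g₀.tail k = none) (q : MvPolynomial σ K),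
        q ∈ l → ∃ (D' : Pre K σ) (val' : D'.V → MvPolynomial σ K) (O' : D'.V → Prop),
        D'.IsVal val' ∧ D'.Inv O' ∧ @Fintype.card D'.V D'.fin + 1 ≤
          2 * (q * g₀.value val :: l).length ∧
        ∀ p ∈ (q * g₀.value val :: l), ∃ v, O' v ∧ val' v = p := by
      intro g₀ hg₀ q hq
      obtain ⟨a, haO, rfl⟩ := hmem q hq
      refine ⟨_, Pre.addVal (D.addNode g₀) (Gate.mul (some a) none) (Pre.addVal D g₀ val), _,
        Pre.addNode_isVal _ _ _ (Pre.addNode_isVal _ _ _ hval),
        D.inv_addMul O hinv g₀ hg₀ a haO, ?_, ?_⟩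
      · rw [Pre.addNode_card, Pre.addNode_card, List.length_cons]
        omega
      · intro p hp
        rcases List.mem_cons.1 hp with rfl | hp
        · exact ⟨none, trivial, rfl⟩
        · obtain ⟨v, hvO, hv⟩ := hmem p hp
          exact ⟨some (some v), hvO, hv⟩
    cases hp with
    | mulVar hq i => exact keymul (Gate.var i) (fun _ => rfl) _ hq
    | mulConst hq c => exact keymul (Gate.const c) (fun _ => rfl) _ hq
    | add ha hb =>
      obtain ⟨a, haO, rfl⟩ := hmem _ ha
      obtain ⟨b, hbO, rfl⟩ := hmem _ hb
      refine ⟨D.addNode (Gate.add a b), Pre.addVal D _ val, Pre.extSet O True,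
        Pre.addNode_isVal _ _ _ hval, ?_, ?_, ?_⟩
      · refine D.inv_addNode_of_not_mul O hinv _ (by simp) ?_ True
        intro k t hk
        simp only [Gate.tail, Option.some.injEq] at hk
        split_ifs at hk
        · exact hk ▸ haO
        · exact hk ▸ hbO
      · rw [Pre.addNode_card, List.length_cons]
        omega
      · intro p hp
        rcases List.mem_cons.1 hp with rfl | hp
        · exact ⟨none, trivial, rfl⟩
        · obtain ⟨v, hvO, hv⟩ := hmem p hp
          exact ⟨some v, hvO, hv⟩

/-- A polynomial computed by a skew program of length `N` has a skew circuit of size `< 2N`. -/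
theorem LSLP.exists_circuit {l : List (MvPolynomial σ K)} (h : LSLP l) {p : MvPolynomial σ K}
    (hp : p ∈ l) : ∃ D : Circuit K σ, D.Skew ∧ D.Computes p ∧ D.size + 1 ≤ 2 * l.length := by
  obtain ⟨D, val, O, hval, hinv, hcard, hmem⟩ := h.exists_pre
  obtain ⟨v, _, rfl⟩ := hmem p hp
  refine ⟨D.prune v, D.prune_skew v hinv.skew, D.prune_computes v val hval, ?_⟩
  have := D.prune_size_le v
  omega

end LSLP

end Pool.Agent.H80
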