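import Pool.Agent.H80.Merge
import Pool.Agent.H80.Complete

set_option autoImplicit false

namespace Pool.Agent.H80

open MvPolynomial

universe u v

section weights

variable {K : Type u} [CommSemiring K] {σ : Type}

/-- `(p, w)` or `(p, w')` with a smaller weight is in the list. -/
def WMem (l : List (MvPolynomial σ K × ℕ)) (p : MvPolynomial σ K) (w : ℕ) : Prop :=
  ∃ w' ≤ w, (p, w') ∈ l

theorem WMem.sub {l l' : List (MvPolynomial σ K × ℕ)} {p : MvPolynomial σ K} {w : ℕ}
    (h : WMem l p w) (hl : l ⊆ l') : WMem l' p w := by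
  obtain ⟨w', h1, h2⟩ := h
  exact ⟨w', h1, hl h2⟩

theorem WMem.mono {l : List (MvPolynomial σ K × ℕ)} {p : MvPolynomial σ K} {w w' : ℕ}
    (h : WMem l p w) (hw : w ≤ w') : WMem l p w' := by
  obtain ⟨w'', h1, h2⟩ := h
  exact ⟨w'', h1.trans hw, h2⟩

theorem WMem.head (l : List (MvPolynomial σ K × ℕ)) (p : MvPolynomial σ K) (w : ℕ) :
    WMem ((p, w) :: l) p w := ⟨w, le_rfl, List.mem_cons_self⟩

/-- Steps of a straight-line program with weights. -/
inductive WStep (l : List (MvPolynomial σ K × ℕ)) : MvPolynomial σ K × ℕ → Prop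
  | var (i : σ) : WStep l (X i, 1)
  | const (c : K) : WStep l (C c, 1)
  | add {a b : MvPolynomial σ K} {w : ℕ} (ha : WMem l a w) (hb : WMem l b w) : WStep l (a + b, w)
  | mul {a b : MvPolynomial σ K} {u v w : ℕ} (ha : WMem l a u) (hb : WMem l b v)
      (h : u + v ≤ w) : WStep l (a * b, w)

inductive WSLP : List (MvPolynomial σ K × ℕ) → Prop
  | nil : WSLP []
  | cons {l : List (MvPolynomial σ K × ℕ)} {p : MvPolynomial σ K × ℕ} (h : WSLP l)
      (hp : WStep l p) : WSLP (p :: l)

omit [CommSemiring K] in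
theorem mapGate_tail_some {V : Type} (g : Gate K σ V) (j : Fin 2) (t : Option V)
    (h : (Pre.mapGate some g).tail j = some t) : ∃ a, g.tail j = some a ∧ t = some a := by
  rw [Pre.mapGate_tail, Option.map_eq_some_iff] at h
  obtain ⟨a, ha, rfl⟩ := h
  exact ⟨a, ha, rfl⟩

/-- Weights on the nodes of a pre-circuit. -/
structure Pre.Weighted (D : Pre K σ) (wt : D.V → ℕ) : Prop where
  pos : ∀ v, 1 ≤ wt v
  mono : ∀ (v : D.V) (j : Fin 2) (t : D.V), (D.gate v).tail j = some t → wt t ≤ wt v
  mul : ∀ g a b : D.V, D.gate g = Gate.mul a b → wt a + wt b ≤ wt g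

theorem WSLP.exists_pre {l : List (MvPolynomial σ K × ℕ)} (h : WSLP l) :
    ∃ (D : Pre K σ) (val : D.V → MvPolynomial σ K) (wt : D.V → ℕ), D.IsVal val ∧
      D.Weighted wt ∧ @Fintype.card D.V D.fin = l.length ∧
      ∀ p ∈ l, ∃ v, val v = p.1 ∧ wt v = p.2 := by
  induction h with
  | nil =>
    refine ⟨Pre.empty K σ, fun v => v.elim, fun v => v.elim, fun v => v.elim,
      ⟨fun v => v.elim, fun v => v.elim, fun v => v.elim⟩, rfl, ?_⟩
    intro p hp
    simp at hp
  | cons h hp ih =>
    rename_i l p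
    obtain ⟨D, val, wt, hval, hwt, hcard, hmem⟩ := ih
    have hmem' : ∀ (q : MvPolynomial σ K) (w : ℕ), WMem l q w → ∃ v, val v = q ∧ wt v ≤ w := by
      rintro q w ⟨w', hw', hq⟩
      obtain ⟨v, h1, h2⟩ := hmem _ hq
      exact ⟨v, h1, by simpa [h2] using hw'⟩
    have key : ∃ g : Gate K σ D.V, g.value val = p.1 ∧ 1 ≤ p.2 ∧
        (∀ j t, g.tail j = some t → wt t ≤ p.2) ∧
        ∀ a b, g = Gate.mul a b → wt a + wt b ≤ p.2 := by
      cases hp with
      | var i =>
        exact ⟨Gate.var i, rfl, le_rfl, fun j t h => by simp [Gate.tail] at h,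
          fun a b h => by simp at h⟩
      | const c =>
        exact ⟨Gate.const c, rfl, le_rfl, fun j t h => by simp [Gate.tail] at h,
          fun a b h => by simp at h⟩
      | add ha hb =>
        obtain ⟨v, rfl, hv⟩ := hmem' _ _ ha
        obtain ⟨w, rfl, hw⟩ := hmem' _ _ hb
        refine ⟨Gate.add v w, rfl, (hwt.pos v).trans hv, ?_, fun a b h => by simp at h⟩
        intro j t h
        simp only [Gate.tail, Option.some.injEq] at h
        split_ifs at h
        · exact h ▸ hv
        · exact h ▸ hw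
      | mul ha hb h3 =>
        obtain ⟨v, rfl, hv⟩ := hmem' _ _ ha
        obtain ⟨w, rfl, hw⟩ := hmem' _ _ hb
        have h4 := hwt.pos v
        refine ⟨Gate.mul v w, rfl, by simp only; omega, ?_, ?_⟩
        · intro j t h
          simp only [Gate.tail, Option.some.injEq] at h
          split_ifs at h
          · subst h; simp only; omega
          · subst h; simp only; omega
        · intro a b h
          simp only [Gate.mul.injEq] at h
          rw [← h.1, ← h.2]
          simp only
          omega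
    obtain ⟨g, hg, hg1, hg2, hg3⟩ := key
    refine ⟨D.addNode g, Pre.addVal D g val, fun v => match v with
      | none => p.2
      | some v => wt v, D.addNode_isVal g val hval, ⟨?_, ?_, ?_⟩, ?_, ?_⟩
    · intro v
      cases v with
      | none => exact hg1
      | some v => exact hwt.pos v
    · intro v j t ht
      cases v with
      | none =>
        obtain ⟨a, ha, rfl⟩ := mapGate_tail_some g j t ht
        exact hg2 j a ha
      | some v =>
        obtain ⟨a, ha, rfl⟩ := mapGate_tail_some (D.gate v) j t ht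
        exact hwt.mono v j a ha
    · intro v a b hv
      cases v with
      | none =>
        obtain ⟨a', b', h1, rfl, rfl⟩ := Pre.mapGate_mul_some some g a b hv
        exact hg3 a' b' h1
      | some v =>
        obtain ⟨a', b', h1, rfl, rfl⟩ := Pre.mapGate_mul_some some (D.gate v) a b hv
        exact hwt.mul v a' b' h1
    · rw [Pre.addNode_card, hcard]; rfl
    · intro q hq
      rcases List.mem_cons.1 hq with rfl | hq
      · exact ⟨none, hg, rfl⟩
      · obtain ⟨v, hv⟩ := hmem q hq
        exact ⟨some v, hv⟩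

/-! #### Derivations -/

def WDer (l : List (MvPolynomial σ K × ℕ)) (k : ℕ) (l' : List (MvPolynomial σ K × ℕ)) : Prop :=
  (WSLP l → WSLP l') ∧ l ⊆ l' ∧ l'.length ≤ l.length + k

theorem WDer.refl (l : List (MvPolynomial σ K × ℕ)) : WDer l 0 l :=
  ⟨id, List.Subset.refl _, le_rfl⟩

theorem WDer.trans {l l' l'' : List (MvPolynomial σ K × ℕ)} {k k' : ℕ} (h : WDer l k l')
    (h' : WDer l' k' l'') : WDer l (k + k') l'' :=
  ⟨fun hl => h'.1 (h.1 hl), List.Subset.trans h.2.1 h'.2.1, by
    have := h.2.2; have := h'.2.2; omega⟩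

theorem WDer.step {l l' : List (MvPolynomial σ K × ℕ)} {k : ℕ} (h : WDer l k l')
    {p : MvPolynomial σ K × ℕ} (hp : WStep l' p) : WDer l (k + 1) (p :: l') :=
  ⟨fun hl => WSLP.cons (h.1 hl) hp, fun _ hx => List.mem_cons_of_mem _ (h.2.1 hx), by
    have := h.2.2; simp; omega⟩

theorem WDer.mono {l l' : List (MvPolynomial σ K × ℕ)} {k k' : ℕ} (h : WDer l k l')
    (hk : k ≤ k') : WDer l k' l' := ⟨h.1, h.2.1, h.2.2.trans (by omega)⟩

theorem WDer.sum_mul {ι : Type*} (s : Finset ι) (a b : ι → MvPolynomial σ K) (u v : ι → ℕ)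
    (w : ℕ) (hw : 1 ≤ w) (l : List (MvPolynomial σ K × ℕ)) (ha : ∀ i ∈ s, WMem l (a i) (u i))
    (hb : ∀ i ∈ s, WMem l (b i) (v i)) (huv : ∀ i ∈ s, u i + v i ≤ w) :
    ∃ l', WDer l (2 * s.card + 1) l' ∧ WMem l' (∑ i ∈ s, a i * b i) w := by
  classical
  induction s using Finset.induction_on with
  | empty =>
    refine ⟨(C 0, 1) :: l, (WDer.refl l).step (WStep.const 0), ?_⟩
    rw [Finset.sum_empty]
    exact ⟨1, hw, by simp⟩
  | insert i s hi ih =>
    obtain ⟨l', h1, h2⟩ := ih (fun j hj => ha j (Finset.mem_insert_of_mem hj))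
      (fun j hj => hb j (Finset.mem_insert_of_mem hj))
      (fun j hj => huv j (Finset.mem_insert_of_mem hj))
    have h3 := h1.step (WStep.mul ((ha i (Finset.mem_insert_self i s)).sub h1.2.1)
      ((hb i (Finset.mem_insert_self i s)).sub h1.2.1) (huv i (Finset.mem_insert_self i s)))
    have h4 := h3.step (WStep.add (a := a i * b i) (b := ∑ i ∈ s, a i * b i) (w := w)
      (WMem.head _ _ _) (h2.sub (List.subset_cons_self _ _)))
    refine ⟨_, ⟨h4.1, h4.2.1, ?_⟩, ?_⟩
    · rw [Finset.card_insert_of_notMem hi]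
      have := h4.2.2
      omega
    · rw [Finset.sum_insert hi]
      exact WMem.head _ _ _

theorem WDer.all {ι : Type*} (s : Finset ι) (p : ι → MvPolynomial σ K) (w : ℕ) (k : ℕ)
    (l : List (MvPolynomial σ K × ℕ))
    (h : ∀ i ∈ s, ∀ l₁ : List (MvPolynomial σ K × ℕ), l ⊆ l₁ →
      ∃ l', WDer l₁ k l' ∧ WMem l' (p i) w) :
    ∃ l', WDer l (s.card * k) l' ∧ ∀ i ∈ s, WMem l' (p i) w := by
  classical
  induction s using Finset.induction_on with
  | empty => exact ⟨l, by simpa using WDer.refl l, by simp⟩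
  | insert i s hi ih =>
    obtain ⟨l', h1, h2⟩ := ih (fun j hj => h j (Finset.mem_insert_of_mem hj))
    obtain ⟨l'', h3, h4⟩ := h i (Finset.mem_insert_self i s) l' h1.2.1
    refine ⟨l'', ?_, ?_⟩
    · rw [Finset.card_insert_of_notMem hi, add_mul, one_mul]
      exact h1.trans h3
    · intro j hj
      rcases Finset.mem_insert.1 hj with rfl | hj
      · exact h4
      · exact (h2 j hj).sub h3.2.1

end weights

section membership

variable (K : Type u) [CommSemiring K] (L : Type) [Fintype L]

theorem wder_tp (m : ℕ) (i : L) (l : List (MvPolynomial (TVar L) K × ℕ))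
    (hl : ∀ m' < m, ∀ i : L, WMem l (tp K L m' i) (max 1 (2 * m' - 1))) :
    ∃ l', WDer l ((Fintype.card L * Fintype.card L) * (2 * m + 4) + 1) l' ∧
      WMem l' (tp K L m i) (max 1 (2 * m - 1)) := by
  match m, hl with
  | 0, hl =>
    refine ⟨(C 0, 1) :: l, ((WDer.refl l).step (WStep.const 0)).mono (by omega), ?_⟩
    exact ⟨1, by simp, by simp [tp]⟩
  | 1, hl =>
    refine ⟨(X (Sum.inl i), 1) :: l, ((WDer.refl l).step (WStep.var (Sum.inl i))).mono (by omega),
      ?_⟩
    exact ⟨1, by simp, by simp [tp]⟩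
  | (m + 2), hl =>
    obtain ⟨l1, h1, h1'⟩ := WDer.all (Finset.univ : Finset (L × L))
      (fun t => ∑ a : Fin (m + 1), tp K L (a.1 + 1) t.1 * tp K L (m + 1 - a.1) t.2) (2 * m + 2)
      (2 * (m + 1) + 1) l (by
        intro t _ l1 hl1
        obtain ⟨l', h, h'⟩ := WDer.sum_mul (Finset.univ : Finset (Fin (m + 1)))
          (fun a => tp K L (a.1 + 1) t.1) (fun a => tp K L (m + 1 - a.1) t.2)
          (fun a => 2 * a.1 + 1) (fun a => 2 * (m - a.1) + 1) (2 * m + 2) (by omega) l1
          (fun a _ => ((hl _ (by have := a.2; omega) _).sub hl1).mono (by omega))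
          (fun a _ => ((hl _ (by omega) _).sub hl1).mono (by have := a.2; omega))
          (fun a _ => by have := a.2; omega)
        exact ⟨l', by simpa using h, h'⟩)
    obtain ⟨l2, h2, h2'⟩ := WDer.all (Finset.univ : Finset (L × L))
      (fun t => (X (Sum.inr (i, t.1, t.2)) : MvPolynomial (TVar L) K)) 1 1 l1 (by
        intro t _ l2 _
        exact ⟨_, (WDer.refl l2).step (WStep.var (Sum.inr (i, t.1, t.2))), WMem.head _ _ _⟩)
    obtain ⟨l3, h3, h3'⟩ := WDer.sum_mul (Finset.univ : Finset (L × L))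
      (fun t => (X (Sum.inr (i, t.1, t.2)) : MvPolynomial (TVar L) K))
      (fun t => ∑ a : Fin (m + 1), tp K L (a.1 + 1) t.1 * tp K L (m + 1 - a.1) t.2)
      (fun _ => 1) (fun _ => 2 * m + 2) (2 * m + 3) (by omega) l2
      (fun t ht => h2' t ht) (fun t ht => (h1' t ht).sub h2.2.1) (fun t _ => by omega)
    refine ⟨l3, ?_, ?_⟩
    · have h4 := (h1.trans h2).trans h3
      refine h4.mono ?_
      simp only [Finset.card_univ, Fintype.card_prod]
      have : ∀ c m : ℕ, c * (2 * (m + 1) + 1) + c * 1 + (2 * c + 1) ≤ c * (2 * (m + 2) + 4) + 1 := by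
        intro c m
        nlinarith
      exact this (Fintype.card L * Fintype.card L) m
    · rw [Fintype.sum_prod_type] at h3'
      rw [tp]
      exact h3'.mono (by omega)

theorem wder_tp_all (N : ℕ) :
    ∃ l' : List (MvPolynomial (TVar L) K × ℕ),
      WDer [] (N * (Fintype.card L * ((Fintype.card L * Fintype.card L) * (2 * N + 4) + 1))) l' ∧
      ∀ m < N, ∀ i : L, WMem l' (tp K L m i) (max 1 (2 * m - 1)) := by
  have key : ∀ N', N' ≤ N → ∃ l' : List (MvPolynomial (TVar L) K × ℕ),
      WDer [] (N' * (Fintype.card L * ((Fintype.card L * Fintype.card L) * (2 * N + 4) + 1))) l' ∧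
      ∀ m < N', ∀ i : L, WMem l' (tp K L m i) (max 1 (2 * m - 1)) := by
    intro N'
    induction N' with
    | zero =>
      intro _
      refine ⟨[], by simpa using WDer.refl _, ?_⟩
      intro m hm
      omega
    | succ N' ih =>
      intro hN'
      obtain ⟨l1, h1, h1'⟩ := ih (by omega)
      obtain ⟨l2, h2, h2'⟩ := WDer.all (Finset.univ : Finset L) (fun i => tp K L N' i)
        (max 1 (2 * N' - 1))
        ((Fintype.card L * Fintype.card L) * (2 * N + 4) + 1) l1 (by
          intro i _ l2 hl2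
          obtain ⟨l3, h3, h3'⟩ := wder_tp K L N' i l2 (fun m' hm' i => (h1' m' hm' i).sub hl2)
          refine ⟨l3, h3.mono ?_, h3'⟩
          gcongr
          omega)
      refine ⟨l2, ?_, ?_⟩
      · have h4 := h1.trans h2
        refine h4.mono ?_
        rw [Finset.card_univ]
        ring_nf
        exact le_rfl
      · intro m hm i
        rcases Nat.lt_succ_iff_lt_or_eq.1 hm with h | rfl
        · exact (h1' m h i).sub h2.2.1
        · exact h2' i (Finset.mem_univ i)
  exact key N le_rfl

theorem wder_tsum (N : ℕ) (i : L) :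
    ∃ l' : List (MvPolynomial (TVar L) K × ℕ), WSLP l' ∧ WMem l' (tsum K L N i) (2 * N + 2) ∧
      l'.length ≤ (N + 1) * (Fintype.card L * ((Fintype.card L * Fintype.card L) *
        (2 * (N + 1) + 4) + 1)) + (2 * (N + 1) + 2) := by
  obtain ⟨l1, h1, h1'⟩ := wder_tp_all K L (N + 1)
  have h2 := h1.step (WStep.const (1 : K))
  obtain ⟨l3, h3, h3'⟩ := WDer.sum_mul (Finset.range (N + 1))
    (fun _ => (C 1 : MvPolynomial (TVar L) K)) (fun m => tp K L m i) (fun _ => 1)
    (fun m => max 1 (2 * m - 1)) (2 * N + 2) (by omega) ((C 1, 1) :: l1)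
    (fun _ _ => WMem.head _ _ _)
    (fun m hm => (h1' m (Finset.mem_range.1 hm) i).sub (List.subset_cons_self _ _))
    (fun m hm => by have := Finset.mem_range.1 hm; omega)
  have h4 := h2.trans h3
  refine ⟨l3, h4.1 WSLP.nil, ?_, ?_⟩
  · simpa [tsum] using h3'
  · refine h4.2.2.trans ?_
    simp only [List.length_nil, Finset.card_range]
    omega

end membership

end Pool.Agent.H80
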