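import Pool.Agent.H80.DepthDef
import Pool.Agent.H80.Weight

set_option autoImplicit false

namespace Pool.Agent.H80

open MvPolynomial

universe u v

section depth

variable {K : Type u} {σ τ : Type}

theorem weaklySkew_iff_skewAt (D : Circuit K σ) :
    D.WeaklySkew ↔ ∀ g a b : D.V, D.gate g = Gate.mul a b → D.SkewAt g := Iff.rfl

theorem Circuit.MergeDepthLE.mono {D : Circuit K σ} {r r' : ℕ} (h : D.MergeDepthLE r)
    (hr : r ≤ r') : D.MergeDepthLE r' := by
  obtain ⟨h, h1, h2, h3⟩ := h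
  exact ⟨h, h1, h2, fun v => (h3 v).trans hr⟩

theorem Circuit.MergeDepthLE.relabel {K' : Type v} {D : Circuit K σ} {r : ℕ}
    (h : D.MergeDepthLE r) (ρ : σ → τ ⊕ K') (φ : K → K') : (D.relabel ρ φ).MergeDepthLE r := by
  obtain ⟨h, h1, h2, h3⟩ := h
  refine ⟨h, ?_, ?_, h3⟩
  · intro v j t ht
    exact h1 v j t ((relabelGate_tail ρ φ (D.gate v) j).symm.trans ht)
  · intro g a b hg hns
    refine h2 g a b (relabelGate_mul ρ φ (D.gate g) a b hg) ?_
    intro hs
    apply hns
    obtain ⟨j, t, ht, hall⟩ := hs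
    refine ⟨j, t, (relabelGate_tail ρ φ (D.gate g) j).trans ht, ?_⟩
    intro w k s hs hst hwt
    have hs' : (D.gate w).tail k = some s := (relabelGate_tail ρ φ (D.gate w) k).symm.trans hs
    exact hall w k s hs' ((D.relabel_path ρ φ s t).1 hst)
      (fun h' => hwt ((D.relabel_path ρ φ w t).2 h'))

theorem Pre.Weighted.mergeDepth {D : Pre K σ} {wt : D.V → ℕ} (h : D.Weighted wt) (v : D.V) :
    (D.prune v).MergeDepthLE (Nat.log 2 (wt v)) := by
  have hpath : ∀ {s t : D.V}, D.Path s t → wt s ≤ wt t := by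
    intro s t hp
    induction hp with
    | refl => exact le_rfl
    | tail _ h2 ih =>
      obtain ⟨j, hj⟩ := h2
      exact ih.trans (h.mono _ _ _ hj)
  refine ⟨fun x => Nat.log 2 (wt x.1), ?_, ?_, ?_⟩
  · intro x j t ht
    exact Nat.log_mono_right (h.mono _ _ _ ((Pre.restrictGate_tail _ _ _ _ _).1 ht))
  · intro g a b hg _
    have h1 := h.mul g.1 a.1 b.1 (Pre.restrictGate_mul _ _ _ _ _ hg)
    have h2 := h.pos a.1
    have h3 := h.pos b.1
    rcases le_total (wt a.1) (wt b.1) with hab | hab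
    · left
      have h4 : Nat.log 2 (wt a.1 * 2) ≤ Nat.log 2 (wt g.1) := Nat.log_mono_right (by omega)
      rw [Nat.log_mul_base (by norm_num) (by omega)] at h4
      exact h4
    · right
      have h4 : Nat.log 2 (wt b.1 * 2) ≤ Nat.log 2 (wt g.1) := Nat.log_mono_right (by omega)
      rw [Nat.log_mul_base (by norm_num) (by omega)] at h4
      exact h4
  · intro x
    exact Nat.log_mono_right (hpath x.2)

variable [CommSemiring K]

theorem WSLP.exists_circuit {l : List (MvPolynomial σ K × ℕ)} (h : WSLP l)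
    {p : MvPolynomial σ K} {w : ℕ} (hp : WMem l p w) :
    ∃ D : Circuit K σ, D.Computes p ∧ D.size ≤ l.length ∧ D.MergeDepthLE (Nat.log 2 w) := by
  obtain ⟨D, val, wt, hval, hwt, hcard, hmem⟩ := h.exists_pre
  obtain ⟨w', hw', hp'⟩ := hp
  obtain ⟨v, hv1, hv2⟩ := hmem _ hp'
  simp only at hv1 hv2
  subst hv1
  refine ⟨D.prune v, D.prune_computes v val hval, (D.prune_size_le v).trans hcard.le, ?_⟩
  refine (hwt.mergeDepth v).mono (Nat.log_mono_right ?_)
  rw [hv2]
  exact hw'

/-- Circuits of merge depth `r` and size `s` have weakly skew circuits of size at most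
`2 s ^ (r + 1) + 1`. -/
theorem exists_weaklySkew_of_mergeDepth (D : Circuit K σ) (f : MvPolynomial σ K) (r : ℕ)
    (hf : D.Computes f) (hr : D.MergeDepthLE r) :
    ∃ D' : Circuit K σ, D'.WeaklySkew ∧ D'.Computes f ∧ D'.size ≤ 2 * D.size ^ (r + 1) + 1 := by
  obtain ⟨val, hval, rfl⟩ := hf
  obtain ⟨h, h1, h2, h3⟩ := hr
  obtain ⟨l, hl1, hl2, hl3⟩ := D.toPre.exists_lslp val hval h h1 (by
    intro g a b hg
    by_cases hs : D.SkewAt g
    · exact Or.inl hs
    · right
      rcases h2 g a b hg hs with h4 | h4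
      · exact ⟨0, a, (congrArg (fun x : Gate K σ D.V => x.tail 0) hg : _), h4⟩
      · exact ⟨1, b, (congrArg (fun x : Gate K σ D.V => x.tail 1) hg : _), h4⟩)
    D.out r (h3 _) D.size le_rfl
  obtain ⟨D', h5, h6, h7⟩ := hl1.exists_circuit hl3
  exact ⟨D', h5.weaklySkew, h6, by omega⟩

theorem VPmerge_const (K : Type u) [CommSemiring K] (r : ℕ) :
    VPmerge K (fun _ => r) = VPws K := by
  ext F
  constructor
  · rintro ⟨p, hp⟩
    refine ⟨2 * p ^ (r + 1) + 1, fun n => ?_⟩
    obtain ⟨D, h1, h2, h3⟩ := hp n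
    obtain ⟨D', h4, h5, h6⟩ := exists_weaklySkew_of_mergeDepth D (F.f n) r h1 h3
    refine ⟨D', h4, h5, h6.trans ?_⟩
    simp only [Polynomial.eval_add, Polynomial.eval_mul, Polynomial.eval_pow,
      Polynomial.eval_one, Polynomial.eval_ofNat]
    have := Nat.pow_le_pow_left h2 (r + 1)
    omega
  · rintro ⟨p, hp⟩
    refine ⟨p, fun n => ?_⟩
    obtain ⟨D, h1, h2, h3⟩ := hp n
    exact ⟨D, h2, h3, fun _ => 0, fun _ _ _ _ => le_rfl,
      fun g a b hg hns => absurd (h1 g a b hg) hns, fun _ => Nat.zero_le _⟩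

theorem treePoly_mergeDepth (K : Type u) [CommSemiring K] (n : ℕ) :
    ∃ D : Circuit K (Fin (nvar n)), D.Computes (treePoly K n) ∧
      D.size ≤ ((Polynomial.X + 2) * ((Polynomial.X + 1) *
        (((Polynomial.X + 1) * (Polynomial.X + 1)) *
        (2 * (Polynomial.X + 2) + 4) + 1)) + (2 * (Polynomial.X + 2) + 2)).eval n ∧
      D.MergeDepthLE (Nat.log 2 (2 * n + 4)) := by
  obtain ⟨l, h1, h2, h3⟩ := wder_tsum K (Fin (n + 1)) (n + 1) 0
  obtain ⟨D, hD, hD', hD''⟩ := h1.exists_circuit h2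
  refine ⟨D.relabel (fun i => Sum.inl (tvarEquiv (n + 1) i)) (RingHom.id K), ?_, ?_, ?_⟩
  · have h4 := D.relabel_computes (fun i => Sum.inl (tvarEquiv (n + 1) i)) (RingHom.id K) hD
    rw [substHom_id] at h4
    simp only [Sum.elim_inl] at h4
    have h5 : treePoly K n = (aeval fun i => X ((tvarEquiv (n + 1)) i))
        (tsum K (Fin (n + 1)) (n + 1) 0) := by
      change rename (tvarEquiv (n + 1)) (tsum K (Fin (n + 1)) (n + 1) 0) = _
      rw [rename_eq_aeval]
      rfl
    rw [h5]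
    exact h4
  · refine (D.relabel_size _ _).le.trans (hD'.trans (h3.trans ?_))
    simp only [Fintype.card_fin, Polynomial.eval_add, Polynomial.eval_mul, Polynomial.eval_X,
      Polynomial.eval_one, Polynomial.eval_ofNat]
    exact le_of_eq (by ring)
  · exact (hD''.mono (Nat.log_mono_right (by omega))).relabel _ _

theorem VP_iff_mergeDepth_log (K : Type u) [CommSemiring K] [Nontrivial K] (F : PFamily K) :
    F ∈ VP K ↔ ∃ q : Polynomial ℕ, F ∈ VPmerge K (fun n => Nat.log 2 (q.eval n)) := by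
  constructor
  · intro hF
    obtain ⟨q, hq⟩ := projLE_treeFamily K F hF
    let P : Polynomial ℕ := ((Polynomial.X + 2) * ((Polynomial.X + 1) *
        (((Polynomial.X + 1) * (Polynomial.X + 1)) *
        (2 * (Polynomial.X + 2) + 4) + 1)) + (2 * (Polynomial.X + 2) + 2))
    refine ⟨2 * q + 4, P.comp q, fun n => ?_⟩
    obtain ⟨m, hm, ρ, hρ⟩ : ∃ m ≤ q.eval n, ∃ ρ : Fin (nvar m) → Fin (F.v n) ⊕ K,
      F.f n = aeval (fun i => Sum.elim X C (ρ i)) (treePoly K m) := hq n
    obtain ⟨D, h1, h2, h3⟩ := treePoly_mergeDepth K m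
    refine ⟨D.relabel ρ (RingHom.id K), ?_, ?_, ?_⟩
    · rw [hρ]
      have h4 := D.relabel_computes ρ (RingHom.id K) h1
      rw [substHom_id] at h4
      exact h4
    · rw [Polynomial.eval_comp]
      exact h2.trans (natPoly_mono P hm)
    · refine (h3.mono (Nat.log_mono_right ?_)).relabel _ _
      simp only [Polynomial.eval_add, Polynomial.eval_mul, Polynomial.eval_ofNat]
      omega
  · rintro ⟨q, p, hp⟩
    refine ⟨p, fun n => ?_⟩
    obtain ⟨D, h1, h2, _⟩ := hp n
    exact ⟨D, h1, h2⟩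

end depth

end Pool.Agent.H80
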