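import Pool.Agent.H80.Circuit

set_option autoImplicit false

namespace Pool.Agent.H80

universe u

/-- The condition of weak skewness at one multiplication gate `g`: for one of its incoming edges,
deleting the edge separates the sub-circuit feeding it from the rest of the circuit. -/
def Circuit.SkewAt {K : Type u} {σ : Type} (D : Circuit K σ) (g : D.V) : Prop :=
  ∃ (j : Fin 2) (t : D.V), (D.gate g).tail j = some t ∧
    ∀ (w : D.V) (k : Fin 2) (s : D.V), (D.gate w).tail k = some s → D.Path s t → ¬ D.Path w t →
      w = g ∧ k = j

/-- The merge depth of a circuit is at most `r`: the nodes carry levels `0, …, r` which do not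
decrease along edges, such that each multiplication gate violating the condition of weak skewness
has a predecessor of strictly smaller level. -/
def Circuit.MergeDepthLE {K : Type u} {σ : Type} (D : Circuit K σ) (r : ℕ) : Prop :=
  ∃ h : D.V → ℕ,
    (∀ (v : D.V) (j : Fin 2) (t : D.V), (D.gate v).tail j = some t → h t ≤ h v) ∧
    (∀ g a b : D.V, D.gate g = Gate.mul a b → ¬ D.SkewAt g → h a < h g ∨ h b < h g) ∧
    ∀ v, h v ≤ r

/-- p-families computed by circuits of polynomially bounded size and merge depth at most
`r n`. -/
def VPmerge (K : Type u) [CommSemiring K] (r : ℕ → ℕ) : Set (PFamily K) :=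
  {F | ∃ p : Polynomial ℕ, ∀ n, ∃ D : Circuit K (Fin (F.v n)),
    D.Computes (F.f n) ∧ D.size ≤ p.eval n ∧ D.MergeDepthLE (r n)}

end Pool.Agent.H80
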