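import Pool.Agent.H80.Transfer

set_option autoImplicit false

namespace Pool.Agent.H80

open MvPolynomial

universe u v w

/-- `L / K` has points of bounded degree: every finitely generated `K`-subalgebra of `L` has a
`K`-algebra homomorphism to a nonzero commutative `K`-algebra of dimension at most `m`. -/
def BoundedPoints (K : Type u) (L : Type v) [Field K] [Field L] [Algebra K L] (m : ℕ) : Prop :=
  ∀ s : Finset L, ∃ (B : Type w) (_ : CommRing B) (_ : Nontrivial B) (_ : Algebra K B),
    Module.Finite K B ∧ Module.finrank K B ≤ m ∧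
    Nonempty (Algebra.adjoin K (s : Set L) →ₐ[K] B)

theorem transfer_down {K : Type u} {L : Type v} [Field K] [Field L] [Algebra K L] {m : ℕ}
    (h : BoundedPoints.{u, v, w} K L m) (hL : VP L = VPws L) : VP K = VPws K := by
  classical
  rw [VP_eq_VPws_iff] at hL ⊢
  obtain ⟨p, hp⟩ := hL
  refine ⟨2 * (2 + (1 + p) * Polynomial.C (m * (2 * m + 1))), fun n => ?_⟩
  obtain ⟨D, h0, h1, h2⟩ : ∃ D : Circuit L (Fin (nvar n)), D.WeaklySkew ∧
    D.Computes (treePoly L n) ∧ D.size ≤ p.eval n := hp n
  change ∃ D : Circuit K (Fin (nvar n)), D.WeaklySkew ∧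
    D.Computes (treePoly K n) ∧ D.size ≤ _
  obtain ⟨l, hl, hlen, hmem⟩ := h0.exists_lslp h1
  obtain ⟨s, hs⟩ := hl.descend (K := K)
  obtain ⟨l', hl', hmap⟩ := hs (Algebra.adjoin K (s : Set L)) Algebra.subset_adjoin
  obtain ⟨B, _, _, _, hfin, hrank, ⟨φ⟩⟩ := h s
  -- the program over the subalgebra
  have hmem' : treePoly (Algebra.adjoin K (s : Set L)) n ∈ l' := by
    rw [← hmap] at hmem
    obtain ⟨q, hq, hq'⟩ := List.mem_map.1 hmem
    have hinj : Function.Injective (MvPolynomial.map (σ := Fin (nvar n))
        (algebraMap (Algebra.adjoin K (s : Set L)) L)) :=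
      MvPolynomial.map_injective _ Subtype.val_injective
    have h3 := map_treePoly (algebraMap (Algebra.adjoin K (s : Set L)) L) n
    have h4 : q = treePoly (Algebra.adjoin K (s : Set L)) n := hinj (hq'.trans h3.symm)
    rw [← h4]
    exact hq
  -- the program over `B`
  have hlB := hl'.map φ.toRingHom
  have hmemB : treePoly B n ∈ l'.map (MvPolynomial.map φ.toRingHom) := by
    have h3 := map_treePoly φ.toRingHom n
    rw [← h3]
    exact List.mem_map_of_mem hmem'
  let b := Module.finBasis K B
  obtain ⟨lK, hlK, hlenK, hmemK⟩ := hlB.coord b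
  obtain ⟨i, hi⟩ : ∃ i, b.coord i 1 ≠ 0 := by
    by_contra hcon
    push Not at hcon
    have h5 : (1 : B) = 0 := b.ext_elem fun i => by
      rw [map_zero]
      exact hcon i
    exact one_ne_zero h5
  have h6 : cmap (b.coord i) (treePoly B n) = treePoly K n * C (b.coord i 1) := by
    rw [← map_treePoly (algebraMap K B) n, cmap_map]
  have h7 := hmemK _ hmemB i
  rw [h6] at h7
  have h8 : treePoly K n * C (b.coord i 1) * C (b.coord i 1)⁻¹ = treePoly K n := by
    rw [mul_assoc, ← C_mul, mul_inv_cancel₀ hi, C_1, mul_one]
  obtain ⟨D', hD'1, hD'2, hD'3⟩ := (hlK.cons (LStep.mulConst h7 (b.coord i 1)⁻¹)).exists_circuit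
    List.mem_cons_self
  rw [h8] at hD'2
  refine ⟨D', hD'1.weaklySkew, hD'2, ?_⟩
  have h9 : l'.length = l.length := by rw [← hmap, List.length_map]
  rw [List.length_cons] at hD'3
  rw [List.length_map, h9, Fintype.card_fin] at hlenK
  have h10 : l.length * (Module.finrank K B * (2 * Module.finrank K B + 1)) ≤
      (1 + p.eval n) * (m * (2 * m + 1)) := by
    refine Nat.mul_le_mul (hlen.trans (by omega)) (Nat.mul_le_mul hrank (by omega))
  simp only [Polynomial.eval_mul, Polynomial.eval_add, Polynomial.eval_one,
    Polynomial.eval_ofNat, Polynomial.eval_C]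
  omega

theorem transfer_iff {K : Type u} {L : Type v} [Field K] [Field L] [Algebra K L] {m : ℕ}
    (h : BoundedPoints.{u, v, w} K L m) : VP K = VPws K ↔ VP L = VPws L :=
  ⟨VP_eq_of_hom (algebraMap K L), transfer_down h⟩

/-- Finite extensions. -/
theorem boundedPoints_of_finite (K : Type u) (L : Type v) [Field K] [Field L] [Algebra K L]
    [Module.Finite K L] : BoundedPoints.{u, v, v} K L (Module.finrank K L) := fun s =>
  ⟨L, inferInstance, inferInstance, inferInstance, inferInstance, le_rfl,
    ⟨(Algebra.adjoin K (s : Set L)).val⟩⟩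

/-- Algebraically closed base fields. -/
theorem boundedPoints_of_isAlgClosed (K : Type u) (L : Type v) [Field K] [Field L]
    [Algebra K L] [IsAlgClosed K] : BoundedPoints.{u, v, u} K L 1 := by
  intro s
  refine ⟨K, inferInstance, inferInstance, inferInstance, inferInstance,
    (Module.finrank_self K).le, ?_⟩
  set A := Algebra.adjoin K (s : Set L)
  have hft : Algebra.FiniteType K A := (Subalgebra.fg_iff_finiteType _).1 ⟨s, rfl⟩
  obtain ⟨M, hM⟩ := Ideal.exists_maximal A
  let _ : Field (A ⧸ M) := Ideal.Quotient.field M
  have hft' : Algebra.FiniteType K (A ⧸ M) :=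
    hft.of_surjective (Ideal.Quotient.mkₐ K M) (Ideal.Quotient.mkₐ_surjective K M)
  have hfin : Module.Finite K (A ⧸ M) := finite_of_finite_type_of_isJacobsonRing K (A ⧸ M)
  have hbij := IsAlgClosed.algebraMap_bijective_of_isIntegral (k := K) (K := A ⧸ M)
  let e : K ≃ₐ[K] (A ⧸ M) := AlgEquiv.ofBijective (Algebra.ofId K (A ⧸ M)) hbij
  exact ⟨e.symm.toAlgHom.comp (Ideal.Quotient.mkₐ K M)⟩

/-- Ring isomorphic fields. -/
theorem iff_of_homs {K : Type u} {L : Type v} [Field K] [Field L] (φ : K →+* L) (ψ : L →+* K) :
    VP K = VPws K ↔ VP L = VPws L :=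
  ⟨VP_eq_of_hom φ, VP_eq_of_hom ψ⟩

theorem iff_of_isAlgClosed_over (P : Type w) [Field P] (K : Type u) [Field K] [Algebra P K]
    [IsAlgClosed K] :
    VP (AlgebraicClosure P) = VPws (AlgebraicClosure P) ↔ VP K = VPws K := by
  let φ : AlgebraicClosure P →ₐ[P] K := IsAlgClosed.lift
  let _ : Algebra (AlgebraicClosure P) K := φ.toRingHom.toAlgebra
  exact transfer_iff (boundedPoints_of_isAlgClosed (AlgebraicClosure P) K)

/-- The question over an algebraically closed field depends only on the characteristic. -/
theorem iff_of_isAlgClosed (K : Type u) (L : Type v) [Field K] [Field L] [IsAlgClosed K]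
    [IsAlgClosed L] (p : ℕ) [CharP K p] [CharP L p] : VP K = VPws K ↔ VP L = VPws L := by
  rcases CharP.char_is_prime_or_zero K p with hp | rfl
  · have : Fact p.Prime := ⟨hp⟩
    let _ : Algebra (ZMod p) K := ZMod.algebra K p
    let _ : Algebra (ZMod p) L := ZMod.algebra L p
    exact (iff_of_isAlgClosed_over (ZMod p) K).symm.trans (iff_of_isAlgClosed_over (ZMod p) L)
  · have : CharZero K := CharP.charP_to_charZero K
    have : CharZero L := CharP.charP_to_charZero L
    exact (iff_of_isAlgClosed_over ℚ K).symm.trans (iff_of_isAlgClosed_over ℚ L)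

/-- Fields with a finite algebraic closure, that is, algebraically closed or real closed fields. -/
theorem iff_of_finite_algebraicClosure (K : Type u) (L : Type v) [Field K] [Field L]
    [Module.Finite K (AlgebraicClosure K)] [Module.Finite L (AlgebraicClosure L)]
    (p : ℕ) [CharP K p] [CharP L p] : VP K = VPws K ↔ VP L = VPws L := by
  have : CharP (AlgebraicClosure K) p := charP_of_injective_algebraMap
    (algebraMap K (AlgebraicClosure K)).injective p
  have : CharP (AlgebraicClosure L) p := charP_of_injective_algebraMap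
    (algebraMap L (AlgebraicClosure L)).injective p
  exact (transfer_iff (boundedPoints_of_finite K (AlgebraicClosure K))).trans
    ((iff_of_isAlgClosed (AlgebraicClosure K) (AlgebraicClosure L) p).trans
      (transfer_iff (boundedPoints_of_finite L (AlgebraicClosure L))).symm)

/-! ### Rational function fields -/

section ratfunc

variable (K : Type u) [Field K]

/-- Rational functions without pole at `x`. -/
noncomputable def regularAt (x : K) : Subalgebra K (RatFunc K) where
  carrier := {f | Polynomial.eval₂ (RingHom.id K) x f.denom ≠ 0}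
  mul_mem' := by
    intro a b ha hb h
    have := Polynomial.eval₂_eq_zero_of_dvd_of_eval₂_eq_zero (RingHom.id K) x
      (RatFunc.denom_mul_dvd a b) h
    rw [Polynomial.eval₂_mul] at this
    exact (mul_ne_zero ha hb) this
  add_mem' := by
    intro a b ha hb h
    have := Polynomial.eval₂_eq_zero_of_dvd_of_eval₂_eq_zero (RingHom.id K) x
      (RatFunc.denom_add_dvd a b) h
    rw [Polynomial.eval₂_mul] at this
    exact (mul_ne_zero ha hb) this
  algebraMap_mem' := by
    intro r
    have h : algebraMap K (RatFunc K) r = RatFunc.C r := rfl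
    simp only [Set.mem_ofPred_eq]
    rw [h, RatFunc.denom_C]
    simp

/-- Evaluation. -/
noncomputable def evalAt (x : K) : regularAt K x →ₐ[K] K where
  toFun := fun f => RatFunc.eval (RingHom.id K) x f.1
  map_one' := by simp
  map_mul' := fun a b => RatFunc.eval_mul (RingHom.id K) x a.2 b.2
  map_zero' := by simp
  map_add' := fun a b => RatFunc.eval_add (RingHom.id K) x a.2 b.2
  commutes' := fun r => by
    have h : algebraMap K (RatFunc K) r = RatFunc.C r := rfl
    change RatFunc.eval (RingHom.id K) x (algebraMap K (RatFunc K) r) = _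
    rw [h]
    simp

theorem boundedPoints_ratFunc [Infinite K] : BoundedPoints.{u, u, u} K (RatFunc K) 1 := by
  classical
  intro s
  refine ⟨K, inferInstance, inferInstance, inferInstance, inferInstance,
    (Module.finrank_self K).le, ?_⟩
  have hne : (∏ f ∈ s, f.denom) ≠ 0 := Finset.prod_ne_zero_iff.2 fun f _ => f.denom_ne_zero
  obtain ⟨x, hx⟩ : ∃ x : K, (∏ f ∈ s, f.denom).eval x ≠ 0 := by
    by_contra hcon
    push Not at hcon
    exact hne (Polynomial.funext fun x => by rw [hcon x, Polynomial.eval_zero])
  rw [Polynomial.eval_prod, Finset.prod_ne_zero_iff] at hx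
  have hle : Algebra.adjoin K (s : Set (RatFunc K)) ≤ regularAt K x := by
    refine Algebra.adjoin_le fun f hf => ?_
    have h1 := hx f hf
    change Polynomial.eval₂ (RingHom.id K) x f.denom ≠ 0
    rwa [Polynomial.eval₂_id]
  exact ⟨(evalAt K x).comp (Subalgebra.inclusion hle)⟩

/-- Finitely generated extensions of infinite fields. -/
theorem iff_of_fg [Infinite K] (L : Type v) [Field L] [Algebra K L]
    (h : (⊤ : IntermediateField K L).FG) : VP K = VPws K ↔ VP L = VPws L := by
  have key : ∀ M : IntermediateField K L, M.FG → (VP K = VPws K ↔ VP M = VPws M) := by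
    intro M hM
    refine IntermediateField.induction_on_adjoin_fg
      (fun M => (VP K = VPws K ↔ VP M = VPws M)) ?_ ?_ M hM
    · exact iff_of_homs (algebraMap K (⊥ : IntermediateField K L))
        (IntermediateField.botEquiv K L).toRingEquiv.toRingHom
    · intro M x hMx
      refine hMx.trans ?_
      have h1 : VP (IntermediateField.adjoin M {x}) = VPws (IntermediateField.adjoin M {x}) ↔
          VP (IntermediateField.restrictScalars K (IntermediateField.adjoin M {x})) =
            VPws (IntermediateField.restrictScalars K (IntermediateField.adjoin M {x})) :=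
        iff_of_homs (RingHom.id (IntermediateField.adjoin M {x}))
          (RingHom.id (IntermediateField.adjoin M {x}))
      refine Iff.trans ?_ h1
      by_cases hx : IsIntegral M x
      · have := IntermediateField.adjoin.finiteDimensional hx
        exact transfer_iff (boundedPoints_of_finite M (IntermediateField.adjoin M {x}))
      · have hx' : Transcendental M x := fun h => hx h.isIntegral
        have hinf : Infinite M := Infinite.of_injective (algebraMap K M)
          (algebraMap K M).injective
        refine (transfer_iff (boundedPoints_ratFunc M)).trans ?_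
        exact iff_of_homs (RatFunc.algEquivOfTranscendental x hx').toRingEquiv.toRingHom
          (RatFunc.algEquivOfTranscendental x hx').symm.toRingEquiv.toRingHom
  refine (key ⊤ h).trans ?_
  exact iff_of_homs (IntermediateField.topEquiv (F := K) (E := L)).toRingEquiv.toRingHom
    (IntermediateField.topEquiv (F := K) (E := L)).symm.toRingEquiv.toRingHom

end ratfunc

end Pool.Agent.H80
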