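import Pool.Agent.H80.Field

/-!
# How the question `VP = VP_ws` depends on the field (MP_f18ce0_lc)

The classes `VP K` and `VPws K` are defined in `Pool.Agent.H80.Circuit`, following the problem
file.
-/

set_option autoImplicit false

namespace Pool.Agent.H80.FieldTransferKept

open Pool.Agent.H80

universe u v

/-- Write `Q(K)` for `VP K = VPws K`.

1. `Q` passes from a field to every extension field.
2. If the algebraic closure of `K` has finite degree over `K` (that is, if `K` is algebraically
   closed or real closed), then `Q(K)` follows from `Q(L)` for any field `L` whatsoever of the same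
   characteristic.
3. `Q(K)` and `Q(L)` are equivalent for every finite extension `L / K`.
4. `Q(K)` and `Q(L)` are equivalent for every finitely generated field extension `L` of an infinite
   field `K`. -/
theorem result :
    (∀ (K : Type u) (L : Type v) [Field K] [Field L], (K →+* L) →
      VP K = VPws K → VP L = VPws L) ∧
    (∀ (K : Type u) (L : Type v) [Field K] [Field L] (p : ℕ) [CharP K p] [CharP L p],
      Module.Finite K (AlgebraicClosure K) → VP L = VPws L → VP K = VPws K) ∧
    (∀ (K : Type u) (L : Type v) [Field K] [Field L] [Algebra K L], Module.Finite K L →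
      (VP K = VPws K ↔ VP L = VPws L)) ∧
    (∀ (K : Type u) (L : Type v) [Field K] [Field L] [Algebra K L], Infinite K →
      (⊤ : IntermediateField K L).FG → (VP K = VPws K ↔ VP L = VPws L)) := by
  refine ⟨?_, ?_, ?_, ?_⟩
  · intro K L _ _ φ h
    exact VP_eq_of_hom φ h
  · intro K L _ _ p _ _ hK hL
    have h1 : VP (AlgebraicClosure L) = VPws (AlgebraicClosure L) :=
      VP_eq_of_hom (algebraMap L (AlgebraicClosure L)) hL
    have : CharP (AlgebraicClosure K) p := charP_of_injective_algebraMap
      (algebraMap K (AlgebraicClosure K)).injective p
    have : CharP (AlgebraicClosure L) p := charP_of_injective_algebraMap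
      (algebraMap L (AlgebraicClosure L)).injective p
    exact (transfer_iff (boundedPoints_of_finite K (AlgebraicClosure K))).2
      ((iff_of_isAlgClosed (AlgebraicClosure K) (AlgebraicClosure L) p).2 h1)
  · intro K L _ _ _ _
    exact transfer_iff (boundedPoints_of_finite K L)
  · intro K L _ _ _ _ h
    exact iff_of_fg K L h

end Pool.Agent.H80.FieldTransferKept
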