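import Pool.Agent.H80.Proj

set_option autoImplicit false

namespace Pool.Agent.H80

open MvPolynomial

universe u v

/-! ### Homogeneous parts through a grading variable -/

section hom

variable {K : Type u} [CommSemiring K] {σ : Type}

/-- `X_i ↦ X_i z`. -/
noncomputable def Phi : MvPolynomial σ K →ₐ[K] Polynomial (MvPolynomial σ K) :=
  aeval (fun i => Polynomial.C (X i) * Polynomial.X)

/-- The homogeneous part of degree `k`. -/
noncomputable def hpart (k : ℕ) (p : MvPolynomial σ K) : MvPolynomial σ K :=
  (Phi p).coeff k

theorem hpart_zero (p : MvPolynomial σ K) : hpart 0 p = C (constantCoeff p) := by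
  unfold hpart
  rw [Polynomial.coeff_zero_eq_eval_zero]
  have h : ((Polynomial.evalRingHom (0 : MvPolynomial σ K)).comp
      (Phi : MvPolynomial σ K →ₐ[K] Polynomial (MvPolynomial σ K)).toRingHom) =
      (C : K →+* MvPolynomial σ K).comp constantCoeff := by
    apply MvPolynomial.ringHom_ext
    · intro r
      simp [Phi, Polynomial.algebraMap_apply, MvPolynomial.algebraMap_eq]
    · intro i
      simp [Phi]
  exact congrArg (fun f : MvPolynomial σ K →+* MvPolynomial σ K => f p) h

theorem hpart_add (k : ℕ) (p q : MvPolynomial σ K) :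
    hpart k (p + q) = hpart k p + hpart k q := by
  simp [hpart]

theorem hpart_mul (k : ℕ) (p q : MvPolynomial σ K) :
    hpart k (p * q) = ∑ x ∈ Finset.HasAntidiagonal.antidiagonal k, hpart x.1 p * hpart x.2 q := by
  simp [hpart, Polynomial.coeff_mul]

theorem hpart_X (k : ℕ) (i : σ) :
    hpart k (X i : MvPolynomial σ K) = if k = 1 then X i else 0 := by
  simp [hpart, Phi, Polynomial.coeff_X, eq_comm]

theorem hpart_C_succ (k : ℕ) (c : K) : hpart (k + 1) (C c : MvPolynomial σ K) = 0 := by
  simp [hpart, Phi, Polynomial.algebraMap_apply]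

theorem Phi_natDegree_le (p : MvPolynomial σ K) : (Phi p).natDegree ≤ p.totalDegree := by
  unfold Phi
  rw [aeval_def, eval₂]
  unfold Finsupp.sum
  refine (Polynomial.natDegree_sum_le _ _).trans (Finset.sup_le ?_)
  intro d hd
  simp only [Function.comp_apply]
  have h1 : (d.prod fun i k => (Polynomial.C (X i : MvPolynomial σ K) * Polynomial.X) ^ k)
      = Polynomial.C (d.prod fun i k => (X i : MvPolynomial σ K) ^ k) *
        Polynomial.X ^ (d.sum fun _ e => e) := by
    simp only [mul_pow, Finsupp.prod_mul, ← Polynomial.C_pow]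
    congr 1
    · simp only [Finsupp.prod, map_prod]
    · simp [Finsupp.prod, Finsupp.sum, Finset.prod_pow_eq_pow_sum]
  rw [h1, Polynomial.algebraMap_apply, ← mul_assoc, ← Polynomial.C_mul]
  refine (Polynomial.natDegree_C_mul_X_pow_le _ _).trans ?_
  exact le_totalDegree hd

theorem sum_hpart (p : MvPolynomial σ K) (d : ℕ) (hd : p.totalDegree ≤ d) :
    ∑ k ∈ Finset.range (d + 1), hpart k p = p := by
  have h1 : (Phi p).eval 1 = p := by
    have h : ((Polynomial.evalRingHom (1 : MvPolynomial σ K)).comp
        (Phi : MvPolynomial σ K →ₐ[K] Polynomial (MvPolynomial σ K)).toRingHom) =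
        RingHom.id (MvPolynomial σ K) := by
      apply MvPolynomial.ringHom_ext
      · intro r
        simp [Phi, Polynomial.algebraMap_apply, MvPolynomial.algebraMap_eq]
      · intro i
        simp [Phi]
    exact congrArg (fun f : MvPolynomial σ K →+* MvPolynomial σ K => f p) h
  have h2 := Polynomial.eval_eq_sum_range' (p := Phi p) (n := d + 1)
    (Nat.lt_succ_of_le ((Phi_natDegree_le p).trans hd)) 1
  rw [h1] at h2
  simpa [hpart] using h2.symm

end hom

/-! ### The reduction -/

section reduction

variable {K : Type u} [CommSemiring K] {σ : Type}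

/-- A double sum over an indicator. -/
theorem sum_sum_ite {L : Type} [Fintype L] [DecidableEq L] {R : Type*} [CommSemiring R]
    (a b : L) (c : R) (F : L → L → R) :
    ∑ j : L, ∑ k : L, (if j = a ∧ k = b then c else 0) * F j k = c * F a b := by
  rw [Finset.sum_eq_single a]
  · rw [Finset.sum_eq_single b]
    · simp
    · intro k _ hk
      simp [hk]
    · simp
  · intro j _ hj
    refine Finset.sum_eq_zero fun k _ => ?_
    simp [hj]
  · simp

/-- The labels used in the reduction: the root, the unit, and one for each gate and each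
positive degree. -/
abbrev RLabel (V : Type) (d : ℕ) : Type := Option (Option (V × Fin d))

variable {V : Type} [DecidableEq V]

/-- The rule coefficients. -/
noncomputable def ruleCoeff (d : ℕ) (gate : V → Gate K σ V) (val : V → MvPolynomial σ K) (o : V) :
    RLabel V d → RLabel V d → RLabel V d → K
  | none, j, k => ∑ e : Fin d, if j = some (some (o, e)) ∧ k = some none then 1 else 0
  | some none, _, _ => 0
  | some (some (g, e)), j, k =>
    match gate g with
    | Gate.var _ => 0
    | Gate.const _ => 0
    | Gate.add a b => (if j = some (some (a, e)) ∧ k = some none then 1 else 0) +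
        (if j = some (some (b, e)) ∧ k = some none then 1 else 0)
    | Gate.mul a b => ((if j = some (some (b, e)) ∧ k = some none then
          constantCoeff (val a) else 0) +
        (if j = some (some (a, e)) ∧ k = some none then constantCoeff (val b) else 0)) +
        ∑ x : Fin d × Fin d, if j = some (some (a, x.1)) ∧ k = some (some (b, x.2)) then
          (if x.1.1 + x.2.1 + 1 = e.1 then 1 else 0) else 0

/-- The leaf values. -/
noncomputable def leafVal (d : ℕ) (gate : V → Gate K σ V) (val : V → MvPolynomial σ K) (o : V) :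
    RLabel V d → σ ⊕ K
  | none => Sum.inr (constantCoeff (val o))
  | some none => Sum.inr 1
  | some (some (g, e)) =>
    match gate g with
    | Gate.var i => if e.1 = 0 then Sum.inl i else Sum.inr 0
    | _ => Sum.inr 0

theorem sum_sum_ite_map {L : Type} [Fintype L] [DecidableEq L] {R : Type*} [CommSemiring R]
    (φ : K →+* R) (a b : L) (c : K) (F : L → L → R) :
    ∑ j : L, ∑ k : L, φ (if j = a ∧ k = b then c else 0) * F j k = φ c * F a b := by
  rw [← sum_sum_ite a b (φ c) F]
  refine Finset.sum_congr rfl fun j _ => Finset.sum_congr rfl fun k _ => ?_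
  congr 1
  split_ifs <;> simp

variable [Fintype V] (d : ℕ) (gate : V → Gate K σ V) (val : V → MvPolynomial σ K) (o : V)

/-- The series attached to a label. -/
noncomputable def rtau : RLabel V d → PowerSeries (MvPolynomial σ K) :=
  tau (fun i => Sum.elim X C (leafVal d gate val o i))
    (fun i j k => C (ruleCoeff d gate val o i j k))

theorem rtau_eq (i : RLabel V d) :
    rtau d gate val o i =
      PowerSeries.C (Sum.elim X C (leafVal d gate val o i)) * PowerSeries.X +
      ∑ j : RLabel V d, ∑ k : RLabel V d,
        ((PowerSeries.C (R := MvPolynomial σ K)).comp C) (ruleCoeff d gate val o i j k) *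
        (rtau d gate val o j * rtau d gate val o k) :=
  tau_eq _ _ i

theorem rtau_unit : rtau d gate val o (some none) = PowerSeries.X := by
  rw [rtau_eq]
  simp [leafVal, ruleCoeff]

theorem rtau_root : rtau d gate val o none =
    PowerSeries.C (C (constantCoeff (val o))) * PowerSeries.X +
      ∑ e : Fin d, rtau d gate val o (some (some (o, e))) * PowerSeries.X := by
  rw [rtau_eq]
  congr 1
  simp only [ruleCoeff, map_sum, Finset.sum_mul]
  rw [Finset.sum_congr rfl fun j _ => Finset.sum_comm, Finset.sum_comm]
  refine Finset.sum_congr rfl fun e _ => ?_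
  rw [sum_sum_ite_map, rtau_unit]
  simp

theorem rtau_var {g : V} {i : σ} (hg : gate g = Gate.var i) (e : Fin d) :
    rtau d gate val o (some (some (g, e))) =
      PowerSeries.C (if e.1 = 0 then X i else 0) * PowerSeries.X := by
  rw [rtau_eq]
  simp only [ruleCoeff, leafVal, hg, map_zero, zero_mul, Finset.sum_const_zero, add_zero]
  congr 2
  split_ifs <;> simp

theorem rtau_const {g : V} {c : K} (hg : gate g = Gate.const c) (e : Fin d) :
    rtau d gate val o (some (some (g, e))) = 0 := by
  rw [rtau_eq]
  simp only [ruleCoeff, leafVal, hg, map_zero, zero_mul, Finset.sum_const_zero, add_zero]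
  simp

theorem rtau_add {g a b : V} (hg : gate g = Gate.add a b) (e : Fin d) :
    rtau d gate val o (some (some (g, e))) =
      rtau d gate val o (some (some (a, e))) * PowerSeries.X +
      rtau d gate val o (some (some (b, e))) * PowerSeries.X := by
  rw [rtau_eq]
  simp only [ruleCoeff, leafVal, hg, map_add, add_mul, Finset.sum_add_distrib]
  rw [sum_sum_ite_map, sum_sum_ite_map, rtau_unit]
  simp

theorem rtau_mul {g a b : V} (hg : gate g = Gate.mul a b) (e : Fin d) :
    rtau d gate val o (some (some (g, e))) =
      PowerSeries.C (C (constantCoeff (val a))) *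
        (rtau d gate val o (some (some (b, e))) * PowerSeries.X) +
      PowerSeries.C (C (constantCoeff (val b))) *
        (rtau d gate val o (some (some (a, e))) * PowerSeries.X) +
      ∑ x : Fin d × Fin d, if x.1.1 + x.2.1 + 1 = e.1 then
        rtau d gate val o (some (some (a, x.1))) * rtau d gate val o (some (some (b, x.2)))
        else 0 := by
  rw [rtau_eq]
  simp only [ruleCoeff, leafVal, hg, map_add, add_mul, Finset.sum_add_distrib]
  rw [sum_sum_ite_map, sum_sum_ite_map, rtau_unit]
  simp only [map_sum, Finset.sum_mul]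
  rw [Finset.sum_congr rfl fun j _ => Finset.sum_comm (s := (Finset.univ : Finset (RLabel V d))),
    Finset.sum_comm (s := (Finset.univ : Finset (RLabel V d)))]
  simp only [Sum.elim_inr, map_zero, zero_mul, zero_add, RingHom.coe_comp, Function.comp_apply]
  congr 1
  refine Finset.sum_congr rfl fun x _ => ?_
  have h := sum_sum_ite_map ((PowerSeries.C (R := MvPolynomial σ K)).comp C)
    (some (some (a, x.1)) : RLabel V d) (some (some (b, x.2)))
    (if x.1.1 + x.2.1 + 1 = e.1 then (1 : K) else 0)
    (fun j k => rtau d gate val o j * rtau d gate val o k)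
  simp only [RingHom.coe_comp, Function.comp_apply] at h
  rw [h]
  split_ifs <;> simp

omit [DecidableEq V] [Fintype V] in
theorem sum_fin_pairs {R : Type*} [AddCommMonoid R] (g : ℕ → ℕ → R) (e : ℕ) (he : e < d) :
    ∑ x : Fin d × Fin d, (if x.1.1 + x.2.1 + 1 = e then g x.1.1 x.2.1 else 0) =
      ∑ k ∈ Finset.range e, g k (e - 1 - k) := by
  rw [Fintype.sum_prod_type]
  have h1 : ∀ x : Fin d, ∑ y : Fin d, (if x.1 + y.1 + 1 = e then g x.1 y.1 else 0) =
      if x.1 < e then g x.1 (e - 1 - x.1) else 0 := by
    intro x
    split_ifs with hx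
    · rw [Finset.sum_eq_single (⟨e - 1 - x.1, by omega⟩ : Fin d)]
      · rw [if_pos (by simp only; omega)]
      · intro y _ hy
        rw [if_neg]
        intro h
        apply hy
        ext
        simp only
        omega
      · intro h
        exact absurd (Finset.mem_univ _) h
    · refine Finset.sum_eq_zero fun y _ => ?_
      rw [if_neg]
      omega
  simp only [h1]
  rw [Fin.sum_univ_eq_sum_range (fun k => if k < e then g k (e - 1 - k) else 0) d]
  rw [← Finset.sum_filter]
  refine Finset.sum_congr ?_ fun _ _ => rfl
  ext k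
  simp only [Finset.mem_filter, Finset.mem_range]
  omega

omit [DecidableEq V] [Fintype V] in
theorem hpart_mul_succ (e : ℕ) (he : e < d) (p q : MvPolynomial σ K) :
    hpart (e + 1) (p * q) = C (constantCoeff p) * hpart (e + 1) q +
      C (constantCoeff q) * hpart (e + 1) p +
      ∑ x : Fin d × Fin d, if x.1.1 + x.2.1 + 1 = e then
        hpart (x.1.1 + 1) p * hpart (x.2.1 + 1) q else 0 := by
  rw [sum_fin_pairs d (fun i j => hpart (i + 1) p * hpart (j + 1) q) e he]
  rw [hpart_mul, Finset.Nat.sum_antidiagonal_eq_sum_range_succ_mk, Finset.sum_range_succ,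
    Finset.sum_range_succ']
  simp only [Nat.sub_self, hpart_zero, Nat.sub_zero]
  have h1 : ∑ k ∈ Finset.range e, hpart (k + 1) p * hpart (e + 1 - (k + 1)) q =
      ∑ k ∈ Finset.range e, hpart (k + 1) p * hpart (e - 1 - k + 1) q := by
    refine Finset.sum_congr rfl fun k hk => ?_
    have := Finset.mem_range.1 hk
    rw [show e + 1 - (k + 1) = e - 1 - k + 1 by omega]
  rw [h1]
  ring

omit [DecidableEq V] [Fintype V] in
theorem coe_poly_sum {R : Type*} [CommSemiring R] {ι : Type*} (s : Finset ι)
    (f : ι → Polynomial R) :
    ((∑ i ∈ s, f i : Polynomial R) : PowerSeries R) = ∑ i ∈ s, (f i : PowerSeries R) :=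
  map_sum (Polynomial.coeToPowerSeries.ringHom (R := R)) f s

theorem rtau_poly (rk : V → ℕ)
    (hrk : ∀ (v : V) (j : Fin 2) (t : V), (gate v).tail j = some t → rk t < rk v)
    (hval : ∀ v, val v = (gate v).value val) (v : V) (e : Fin d) :
    ∃ Q : Polynomial (MvPolynomial σ K),
      (Q : PowerSeries (MvPolynomial σ K)) = rtau d gate val o (some (some (v, e))) ∧
      Q.natDegree ≤ (e.1 + 1) * (rk v + 1) ∧ Q.eval 1 = hpart (e.1 + 1) (val v) := by
  induction hn : rk v using Nat.strong_induction_on generalizing v e with
  | _ n ih =>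
    subst hn
    have ih' : ∀ t, rk t < rk v → ∀ e : Fin d, ∃ Q : Polynomial (MvPolynomial σ K),
      (Q : PowerSeries (MvPolynomial σ K)) = rtau d gate val o (some (some (t, e))) ∧
      Q.natDegree ≤ (e.1 + 1) * (rk t + 1) ∧ Q.eval 1 = hpart (e.1 + 1) (val t) :=
      fun t ht e => ih (rk t) ht t e rfl
    clear ih
    cases hg : gate v with
    | var i =>
      refine ⟨Polynomial.C (if e.1 = 0 then X i else 0) * Polynomial.X, ?_, ?_, ?_⟩
      · rw [rtau_var d gate val o hg]
        simp
      · refine (Polynomial.natDegree_C_mul_le _ _).trans (Polynomial.natDegree_X_le.trans ?_)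
        nlinarith
      · rw [hval v, hg]
        simp only [Gate.value, hpart_X]
        simp
    | const c =>
      refine ⟨0, ?_, by simp, ?_⟩
      · rw [rtau_const d gate val o hg]
        simp
      · rw [hval v, hg]
        simp only [Gate.value, hpart_C_succ]
        simp
    | add a b =>
      have ha : rk a < rk v := hrk v 0 a (by rw [hg]; rfl)
      have hb : rk b < rk v := hrk v 1 b (by rw [hg]; rfl)
      obtain ⟨QA, hA1, hA2, hA3⟩ := ih' a ha e
      obtain ⟨QB, hB1, hB2, hB3⟩ := ih' b hb e
      refine ⟨QA * Polynomial.X + QB * Polynomial.X, ?_, ?_, ?_⟩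
      · rw [rtau_add d gate val o hg, Polynomial.coe_add, Polynomial.coe_mul, Polynomial.coe_mul,
          hA1, hB1, Polynomial.coe_X]
      · refine (Polynomial.natDegree_add_le _ _).trans (max_le ?_ ?_)
        · refine Polynomial.natDegree_mul_le.trans ?_
          have h1 := Polynomial.natDegree_X_le (R := MvPolynomial σ K)
          nlinarith
        · refine Polynomial.natDegree_mul_le.trans ?_
          have h1 := Polynomial.natDegree_X_le (R := MvPolynomial σ K)
          nlinarith
      · rw [hval v, hg]
        simp only [Gate.value, hpart_add]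
        simp [hA3, hB3]
    | mul a b =>
      have ha : rk a < rk v := hrk v 0 a (by rw [hg]; rfl)
      have hb : rk b < rk v := hrk v 1 b (by rw [hg]; rfl)
      choose QA hA1 hA2 hA3 using ih' a ha
      choose QB hB1 hB2 hB3 using ih' b hb
      refine ⟨Polynomial.C (C (constantCoeff (val a))) * (QB e * Polynomial.X) +
        Polynomial.C (C (constantCoeff (val b))) * (QA e * Polynomial.X) +
        ∑ x : Fin d × Fin d, if x.1.1 + x.2.1 + 1 = e.1 then QA x.1 * QB x.2 else 0, ?_, ?_, ?_⟩
      · rw [rtau_mul d gate val o hg, Polynomial.coe_add, Polynomial.coe_add, Polynomial.coe_mul,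
          Polynomial.coe_mul, Polynomial.coe_mul, Polynomial.coe_mul, Polynomial.coe_C,
          Polynomial.coe_C, Polynomial.coe_X, hA1, hB1, coe_poly_sum]
        congr 1
        refine Finset.sum_congr rfl fun x _ => ?_
        split_ifs
        · rw [Polynomial.coe_mul, hA1, hB1]
        · simp
      · refine (Polynomial.natDegree_add_le _ _).trans (max_le
          ((Polynomial.natDegree_add_le _ _).trans (max_le ?_ ?_)) ?_)
        · refine (Polynomial.natDegree_C_mul_le _ _).trans (Polynomial.natDegree_mul_le.trans ?_)
          have h1 := Polynomial.natDegree_X_le (R := MvPolynomial σ K)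
          have := hB2 e
          nlinarith
        · refine (Polynomial.natDegree_C_mul_le _ _).trans (Polynomial.natDegree_mul_le.trans ?_)
          have h1 := Polynomial.natDegree_X_le (R := MvPolynomial σ K)
          have := hA2 e
          nlinarith
        · refine Polynomial.natDegree_sum_le_of_forall_le _ _ fun x _ => ?_
          split_ifs with hx
          · refine Polynomial.natDegree_mul_le.trans ?_
            have h1 := hA2 x.1
            have h2 := hB2 x.2
            have h3 : (x.1.1 + 1) * (rk a + 1) ≤ (x.1.1 + 1) * (rk v + 1) :=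
              Nat.mul_le_mul le_rfl (by omega)
            have h4 : (x.2.1 + 1) * (rk b + 1) ≤ (x.2.1 + 1) * (rk v + 1) :=
              Nat.mul_le_mul le_rfl (by omega)
            have h5 : (e.1 + 1) * (rk v + 1) =
                (x.1.1 + 1) * (rk v + 1) + (x.2.1 + 1) * (rk v + 1) := by
              rw [← add_mul]
              congr 1
              omega
            omega
          · simp
      · rw [hval v, hg]
        simp only [Gate.value]
        rw [hpart_mul_succ d e.1 e.2]
        simp only [Polynomial.eval_add, Polynomial.eval_mul, Polynomial.eval_C,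
          Polynomial.eval_X, mul_one, hA3, hB3, Polynomial.eval_finsetSum]
        congr 1
        refine Finset.sum_congr rfl fun x _ => ?_
        split_ifs
        · rw [Polynomial.eval_mul, hA3, hB3]
        · simp

theorem rtau_poly_root (rk : V → ℕ)
    (hrk : ∀ (v : V) (j : Fin 2) (t : V), (gate v).tail j = some t → rk t < rk v)
    (hval : ∀ v, val v = (gate v).value val) (hd : (val o).totalDegree ≤ d) :
    ∃ Q : Polynomial (MvPolynomial σ K),
      (Q : PowerSeries (MvPolynomial σ K)) = rtau d gate val o none ∧
      Q.natDegree ≤ d * (rk o + 1) + 1 ∧ Q.eval 1 = val o := by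
  choose Q h1 h2 h3 using rtau_poly d gate val o rk hrk hval o
  refine ⟨Polynomial.C (C (constantCoeff (val o))) * Polynomial.X +
    ∑ e : Fin d, Q e * Polynomial.X, ?_, ?_, ?_⟩
  · rw [rtau_root, Polynomial.coe_add, Polynomial.coe_mul, Polynomial.coe_C, Polynomial.coe_X,
      coe_poly_sum]
    congr 1
    refine Finset.sum_congr rfl fun e _ => ?_
    rw [Polynomial.coe_mul, h1, Polynomial.coe_X]
  · refine (Polynomial.natDegree_add_le _ _).trans (max_le ?_ ?_)
    · refine (Polynomial.natDegree_C_mul_le _ _).trans (Polynomial.natDegree_X_le.trans ?_)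
      omega
    · refine Polynomial.natDegree_sum_le_of_forall_le _ _ fun e _ => ?_
      refine Polynomial.natDegree_mul_le.trans ?_
      have := Polynomial.natDegree_X_le (R := MvPolynomial σ K)
      have h4 := h2 e
      have h5 : (e.1 + 1) * (rk o + 1) ≤ d * (rk o + 1) := Nat.mul_le_mul e.2 le_rfl
      omega
  · simp only [Polynomial.eval_add, Polynomial.eval_mul, Polynomial.eval_C,
      Polynomial.eval_X, mul_one, Polynomial.eval_finsetSum, h3]
    rw [Fin.sum_univ_eq_sum_range (fun k => hpart (k + 1) (val o)) d, ← hpart_zero, add_comm,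
      ← Finset.sum_range_succ' (fun k => hpart k (val o)) d]
    exact sum_hpart (val o) d hd

theorem rtsum_root (rk : V → ℕ)
    (hrk : ∀ (v : V) (j : Fin 2) (t : V), (gate v).tail j = some t → rk t < rk v)
    (hval : ∀ v, val v = (gate v).value val) (hd : (val o).totalDegree ≤ d) (N : ℕ)
    (hN : d * (rk o + 1) + 1 ≤ N) :
    ∑ m ∈ Finset.range (N + 1), tval (fun i => Sum.elim X C (leafVal d gate val o i))
      (fun i j k => (C (ruleCoeff d gate val o i j k) : MvPolynomial σ K)) m none = val o := by
  obtain ⟨Q, h1, h2, h3⟩ := rtau_poly_root d gate val o rk hrk hval hd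
  rw [← h3, Polynomial.eval_eq_sum_range' (Nat.lt_succ_of_le (h2.trans hN))]
  refine Finset.sum_congr rfl fun m _ => ?_
  rw [one_pow, mul_one, ← Polynomial.coeff_coe, h1]
  simp [rtau, tau]

end reduction

end Pool.Agent.H80
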