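import Pool.Agent.H80.Depth

/-!
# Weakly skew circuits and merge depth (MP_f18ce0_lc)

The classes `VP K`, `VPws K` are defined in `Pool.Agent.H80.Circuit`, following the problem file;
the merge depth of a circuit and the classes `VPmerge K r` in `Pool.Agent.H80.DepthDef`.
-/

set_option autoImplicit false

namespace Pool.Agent.H80.MergeDepthKept

open Pool.Agent.H80 MvPolynomial

universe u

/-- 1. A circuit with `s` nodes and merge depth at most `r` can be replaced by a weakly skew
circuit with at most `2 s ^ (r + 1) + 1` nodes.
2. For every constant `r` the p-families with circuits of polynomial size and merge depth at most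
`r` are exactly those of `VP_ws`.
3. The p-families with circuits of polynomial size and merge depth at most the binary logarithm
of some polynomial are exactly those of `VP`. -/
theorem result (K : Type u) [Field K] :
    (∀ (σ : Type) (D : Circuit K σ) (f : MvPolynomial σ K) (r : ℕ), D.Computes f →
      D.MergeDepthLE r → ∃ D' : Circuit K σ, D'.WeaklySkew ∧ D'.Computes f ∧
        D'.size ≤ 2 * D.size ^ (r + 1) + 1) ∧
    (∀ r : ℕ, VPmerge K (fun _ => r) = VPws K) ∧
    VP K = {F | ∃ q : Polynomial ℕ, F ∈ VPmerge K (fun n => Nat.log 2 (q.eval n))} :=
  ⟨fun _ D f r hf hr => exists_weaklySkew_of_mergeDepth D f r hf hr,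
    fun r => VPmerge_const K r,
    Set.ext fun F => VP_iff_mergeDepth_log K F⟩

end Pool.Agent.H80.MergeDepthKept
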