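import Pool.Agent.H80.Tree

set_option autoImplicit false

namespace Pool.Agent.H80

open MvPolynomial

universe u v

section relabel

variable {K : Type u} {K' : Type v} {σ τ : Type}

/-- Change the input labels of a gate: the variable `i` becomes the variable or constant `ρ i`,
the constant `c` becomes `φ c`. -/
def relabelGate {V : Type} (ρ : σ → τ ⊕ K') (φ : K → K') : Gate K σ V → Gate K' τ V
  | Gate.var i => Sum.elim Gate.var Gate.const (ρ i)
  | Gate.const c => Gate.const (φ c)
  | Gate.add a b => Gate.add a b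
  | Gate.mul a b => Gate.mul a b

theorem relabelGate_tail {V : Type} (ρ : σ → τ ⊕ K') (φ : K → K') (g : Gate K σ V) (j : Fin 2) :
    (relabelGate ρ φ g).tail j = g.tail j := by
  cases g with
  | var i =>
    simp only [relabelGate]
    cases ρ i <;> rfl
  | const c => rfl
  | add a b => rfl
  | mul a b => rfl

theorem relabelGate_mul {V : Type} (ρ : σ → τ ⊕ K') (φ : K → K') (g : Gate K σ V) (a b : V)
    (h : relabelGate ρ φ g = Gate.mul a b) : g = Gate.mul a b := by
  cases g with
  | var i =>
    simp only [relabelGate] at h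
    cases hρ : ρ i <;> rw [hρ] at h <;> simp at h
  | const c => simp [relabelGate] at h
  | add a' b' => simp [relabelGate] at h
  | mul a' b' =>
    simp only [relabelGate, Gate.mul.injEq] at h
    obtain ⟨h1, h2⟩ := h
    subst h1
    subst h2
    rfl

/-- The substitution homomorphism. -/
noncomputable def substHom [CommSemiring K] [CommSemiring K'] (ρ : σ → τ ⊕ K') (φ : K →+* K') :
    MvPolynomial σ K →+* MvPolynomial τ K' :=
  eval₂Hom (C.comp φ) (fun i => Sum.elim X C (ρ i))

theorem relabelGate_value [CommSemiring K] [CommSemiring K'] {V : Type} (ρ : σ → τ ⊕ K')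
    (φ : K →+* K') (g : Gate K σ V) (val : V → MvPolynomial σ K) :
    (relabelGate ρ φ g).value (fun x => substHom ρ φ (val x)) = substHom ρ φ (g.value val) := by
  cases g with
  | var i =>
    simp only [relabelGate, Gate.value, substHom, coe_eval₂Hom, eval₂_X]
    cases ρ i <;> rfl
  | const c => simp [relabelGate, Gate.value, substHom]
  | add a b => simp [relabelGate, Gate.value]
  | mul a b => simp [relabelGate, Gate.value]

namespace Circuit

/-- Change the input labels of a circuit. -/
def relabel (D : Circuit K σ) (ρ : σ → τ ⊕ K') (φ : K → K') : Circuit K' τ where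
  V := D.V
  fin := D.fin
  gate := fun v => relabelGate ρ φ (D.gate v)
  acyclic := by
    obtain ⟨rank, hr⟩ := D.acyclic
    refine ⟨rank, fun v j t ht => hr v j t ?_⟩
    rw [relabelGate_tail] at ht
    exact ht
  out := D.out
  out_iff := by
    intro v
    rw [D.out_iff v]
    simp only [relabelGate_tail]

theorem relabel_size (D : Circuit K σ) (ρ : σ → τ ⊕ K') (φ : K → K') :
    (D.relabel ρ φ).size = D.size := rfl

theorem relabel_computes [CommSemiring K] [CommSemiring K'] (D : Circuit K σ)
    (ρ : σ → τ ⊕ K') (φ : K →+* K') {p : MvPolynomial σ K} (h : D.Computes p) :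
    (D.relabel ρ φ).Computes (substHom ρ φ p) := by
  obtain ⟨val, hval, rfl⟩ := h
  refine ⟨fun v => substHom ρ φ (val v), ?_, rfl⟩
  intro v
  have h1 := relabelGate_value ρ φ (D.gate v) val
  rw [← hval v] at h1
  exact h1.symm

theorem relabel_path (D : Circuit K σ) (ρ : σ → τ ⊕ K') (φ : K → K') (s t : D.V) :
    (D.relabel ρ φ).Path s t ↔ D.Path s t := by
  have h : (fun s t : D.V => ∃ j : Fin 2, ((D.relabel ρ φ).gate t).tail j = some s) =
      (fun s t : D.V => ∃ j : Fin 2, (D.gate t).tail j = some s) := by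
    funext s t
    have : ∀ j, ((D.relabel ρ φ).gate t).tail j = (D.gate t).tail j :=
      fun j => relabelGate_tail ρ φ (D.gate t) j
    simp only [this]
    rfl
  unfold Path
  exact iff_of_eq (congrFun (congrFun (congrArg Relation.ReflTransGen h) s) t)

theorem relabel_weaklySkew (D : Circuit K σ) (ρ : σ → τ ⊕ K') (φ : K → K')
    (h : D.WeaklySkew) : (D.relabel ρ φ).WeaklySkew := by
  intro g a b hg
  obtain ⟨j, t, ht, hall⟩ := h g a b (relabelGate_mul ρ φ (D.gate g) a b hg)
  refine ⟨j, t, ?_, ?_⟩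
  · exact (relabelGate_tail ρ φ (D.gate g) j).trans ht
  · intro w k s hs hst hwt
    have hs' : (D.gate w).tail k = some s := (relabelGate_tail ρ φ (D.gate w) k).symm.trans hs
    exact hall w k s hs' ((D.relabel_path ρ φ s t).1 hst)
      (fun h' => hwt ((D.relabel_path ρ φ w t).2 h'))

end Circuit

end relabel

/-- Evaluation of a polynomial with natural coefficients is monotone. -/
theorem natPoly_mono (p : Polynomial ℕ) {a b : ℕ} (h : a ≤ b) : p.eval a ≤ p.eval b := by
  rw [Polynomial.eval_eq_sum, Polynomial.eval_eq_sum]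
  unfold Polynomial.sum
  exact Finset.sum_le_sum fun i _ => Nat.mul_le_mul le_rfl (Nat.pow_le_pow_left h i)

/-- `F` is a p-projection of `G`: for some polynomially bounded `m`, each `F.f n` arises from
`G.f m` by substituting variables or constants for the variables. -/
def PFamily.ProjLE {K : Type u} [CommSemiring K] (F G : PFamily K) : Prop :=
  ∃ q : Polynomial ℕ, ∀ n, ∃ m ≤ q.eval n, ∃ ρ : Fin (G.v m) → Fin (F.v n) ⊕ K,
    F.f n = aeval (fun i => Sum.elim X C (ρ i)) (G.f m)

theorem substHom_id {K : Type u} [CommSemiring K] {σ τ : Type} (ρ : σ → τ ⊕ K)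
    (p : MvPolynomial σ K) :
    substHom ρ (RingHom.id K) p = aeval (fun i => Sum.elim X C (ρ i)) p := by
  simp only [substHom, aeval_def, coe_eval₂Hom]
  rfl

theorem mem_VP_of_projLE {K : Type u} [CommSemiring K] {F G : PFamily K} (h : F.ProjLE G)
    (hG : G ∈ VP K) : F ∈ VP K := by
  obtain ⟨p, hp⟩ := hG
  obtain ⟨q, hq⟩ := h
  refine ⟨p.comp q, fun n => ?_⟩
  obtain ⟨m, hm, ρ, hρ⟩ := hq n
  obtain ⟨D, h1, h2⟩ := hp m
  refine ⟨D.relabel ρ (RingHom.id K), ?_, ?_⟩
  · rw [hρ, ← substHom_id]
    exact D.relabel_computes ρ (RingHom.id K) h1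
  · rw [Polynomial.eval_comp]
    exact h2.trans (natPoly_mono p hm)

theorem mem_VPws_of_projLE {K : Type u} [CommSemiring K] {F G : PFamily K} (h : F.ProjLE G)
    (hG : G ∈ VPws K) : F ∈ VPws K := by
  obtain ⟨p, hp⟩ := hG
  obtain ⟨q, hq⟩ := h
  refine ⟨p.comp q, fun n => ?_⟩
  obtain ⟨m, hm, ρ, hρ⟩ := hq n
  obtain ⟨D, h0, h1, h2⟩ := hp m
  refine ⟨D.relabel ρ (RingHom.id K), D.relabel_weaklySkew ρ _ h0, ?_, ?_⟩
  · rw [hρ, ← substHom_id]
    exact D.relabel_computes ρ (RingHom.id K) h1
  · rw [Polynomial.eval_comp]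
    exact h2.trans (natPoly_mono p hm)

/-- Membership of the tree family. -/
theorem treeFamily_mem_VP (K : Type u) [CommSemiring K] [Nontrivial K] :
    treeFamily K ∈ VP K := by
  -- size bound
  refine ⟨(Polynomial.X + 2) * ((Polynomial.X + 1) * (((Polynomial.X + 1) * (Polynomial.X + 1)) *
    (2 * (Polynomial.X + 2) + 4) + 1)) + (2 * (Polynomial.X + 2) + 2), fun n => ?_⟩
  obtain ⟨l, h1, h2, h3⟩ := der_tsum K (Fin (n + 1)) (n + 1) 0
  obtain ⟨D, hD, hD'⟩ := h1.exists_circuit h2
  refine ⟨D.relabel (fun i => Sum.inl (tvarEquiv (n + 1) i)) (RingHom.id K), ?_, ?_⟩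
  · have h4 := D.relabel_computes (fun i => Sum.inl (tvarEquiv (n + 1) i)) (RingHom.id K) hD
    rw [substHom_id] at h4
    simp only [Sum.elim_inl] at h4
    have h5 : (treeFamily K).f n = (aeval fun i => X ((tvarEquiv (n + 1)) i))
        (tsum K (Fin (n + 1)) (n + 1) 0) := by
      change rename (tvarEquiv (n + 1)) (tsum K (Fin (n + 1)) (n + 1) 0) = _
      rw [rename_eq_aeval]
      rfl
    rw [h5]
    exact h4
  · refine (D.relabel_size _ _).le.trans (hD'.trans (h3.trans ?_))
    simp only [Fintype.card_fin, Polynomial.eval_add, Polynomial.eval_mul, Polynomial.eval_X,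
      Polynomial.eval_one, Polynomial.eval_ofNat]
    exact le_of_eq (by ring)

end Pool.Agent.H80
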