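import Pool.Agent.H80.Circuit

set_option autoImplicit false

namespace Pool.Agent.H80

open MvPolynomial

universe u v

/-- Variables of the generic quadratic system with unknowns indexed by `L`:
`Sum.inl i` is `x_i`, `Sum.inr (i, j, k)` is `x_{i,j,k}`. -/
abbrev TVar (L : Type) : Type := L ⊕ (L × L × L)

/-- `tp K L m i` is the part with exactly `m` leaves of the power series solution `y_i` of the
generic quadratic system `y_i = x_i + ∑_{j,k} x_{i,j,k} y_j y_k`, `i ∈ L`. -/
noncomputable def tp (K : Type u) [CommSemiring K] (L : Type) [Fintype L] :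
    ℕ → L → MvPolynomial (TVar L) K
  | 0 => fun _ => 0
  | 1 => fun i => X (Sum.inl i)
  | (m + 2) => fun i => ∑ j : L, ∑ k : L, X (Sum.inr (i, j, k)) *
      ∑ a : Fin (m + 1), tp K L (a.1 + 1) j * tp K L (m + 1 - a.1) k

section tval

variable {R : Type*} [CommSemiring R] {L : Type} [Fintype L]

/-- Numeric version of the recursion. -/
noncomputable def tval (lf : L → R) (cf : L → L → L → R) : ℕ → L → R
  | 0 => fun _ => 0
  | 1 => fun i => lf i
  | (m + 2) => fun i => ∑ j : L, ∑ k : L, cf i j k *
      ∑ a : Fin (m + 1), tval lf cf (a.1 + 1) j * tval lf cf (m + 1 - a.1) k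

theorem aeval_tp {K : Type u} [CommSemiring K] [Algebra K R] (lf : L → R) (cf : L → L → L → R)
    (m : ℕ) (i : L) :
    aeval (Sum.elim lf (fun t : L × L × L => cf t.1 t.2.1 t.2.2)) (tp K L m i)
      = tval lf cf m i := by
  induction m using Nat.strong_induction_on generalizing i with
  | _ m ih =>
    match m, ih with
    | 0, _ => simp [tp, tval]
    | 1, _ => simp [tp, tval]
    | (m + 2), ih =>
      rw [tp, tval]
      simp only [map_sum, map_mul, aeval_X, Sum.elim_inr]
      refine Finset.sum_congr rfl fun j _ => Finset.sum_congr rfl fun k _ => ?_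
      congr 1
      refine Finset.sum_congr rfl fun a _ => ?_
      rw [ih (a.1 + 1) (by have := a.2; omega), ih (m + 1 - a.1) (by omega)]

/-- The generating function. -/
noncomputable def tau (lf : L → R) (cf : L → L → L → R) (i : L) : PowerSeries R :=
  PowerSeries.mk fun m => tval lf cf m i

theorem tau_eq (lf : L → R) (cf : L → L → L → R) (i : L) :
    tau lf cf i = PowerSeries.C (lf i) * PowerSeries.X +
      ∑ j : L, ∑ k : L, PowerSeries.C (cf i j k) * (tau lf cf j * tau lf cf k) := by
  ext m
  rw [tau, PowerSeries.coeff_mk, map_add, map_sum, PowerSeries.coeff_C_mul, PowerSeries.coeff_X]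
  match m with
  | 0 =>
    simp [tau, tval]
  | 1 =>
    simp only [map_sum, PowerSeries.coeff_C_mul]
    simp only [PowerSeries.coeff_mul, tau, PowerSeries.coeff_mk]
    have h : ∀ j k : L, ∑ x ∈ Finset.HasAntidiagonal.antidiagonal 1, tval lf cf x.1 j * tval lf cf x.2 k = 0 := by
      intro j k
      rw [Finset.Nat.sum_antidiagonal_eq_sum_range_succ_mk]
      simp [Finset.sum_range_succ, tval]
    simp only [h]
    simp [tval]
  | (m + 2) =>
    simp only [map_sum, PowerSeries.coeff_C_mul]
    simp only [PowerSeries.coeff_mul, tau, PowerSeries.coeff_mk]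
    have h : ∀ j k : L, ∑ x ∈ Finset.HasAntidiagonal.antidiagonal (m + 2), tval lf cf x.1 j * tval lf cf x.2 k =
        ∑ a : Fin (m + 1), tval lf cf (a.1 + 1) j * tval lf cf (m + 1 - a.1) k := by
      intro j k
      rw [Finset.Nat.sum_antidiagonal_eq_sum_range_succ_mk]
      rw [Finset.sum_range_succ, Finset.sum_range_succ']
      simp only [Nat.sub_self]
      rw [show tval lf cf 0 k = 0 from by simp [tval], show tval lf cf 0 j = 0 from by simp [tval]]
      rw [mul_zero, add_zero, zero_mul, add_zero, Finset.sum_range]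
      refine Finset.sum_congr rfl fun a _ => ?_
      congr 2
      omega
    simp only [h]
    rw [tval]
    simp

/-- Relabelling along an injection, extending by zero. -/
theorem tval_extend {L' : Type} [Fintype L'] (ι : L → L') (hι : Function.Injective ι)
    (lf : L → R) (cf : L → L → L → R) (lf' : L' → R) (cf' : L' → L' → L' → R)
    (h1 : ∀ i, lf' (ι i) = lf i) (h2 : ∀ i j k, cf' (ι i) (ι j) (ι k) = cf i j k)
    (h3 : ∀ i j' k', (j' ∉ Set.range ι ∨ k' ∉ Set.range ι) → cf' (ι i) j' k' = 0)
    (m : ℕ) (i : L) : tval lf' cf' m (ι i) = tval lf cf m i := by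
  induction m using Nat.strong_induction_on generalizing i with
  | _ m ih =>
    match m, ih with
    | 0, _ => simp [tval]
    | 1, _ => simp [tval, h1]
    | (m + 2), ih =>
      rw [tval, tval]
      symm
      refine Fintype.sum_of_injective ι hι _ _ ?_ ?_
      · intro j' hj'
        refine Finset.sum_eq_zero fun k' _ => ?_
        rw [h3 i j' k' (Or.inl hj'), zero_mul]
      · intro j
        refine Fintype.sum_of_injective ι hι _ _ ?_ ?_
        · intro k' hk'
          rw [h3 i _ k' (Or.inr hk'), zero_mul]
        · intro k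
          rw [h2]
          congr 1
          refine Finset.sum_congr rfl fun a _ => ?_
          rw [ih (a.1 + 1) (by have := a.2; omega), ih (m + 1 - a.1) (by omega)]

end tval

/-- Degree bound. -/
theorem totalDegree_tp (K : Type u) [CommSemiring K] [Nontrivial K] (L : Type) [Fintype L]
    (m : ℕ) (i : L) : (tp K L m i).totalDegree ≤ 2 * m - 1 := by
  induction m using Nat.strong_induction_on generalizing i with
  | _ m ih =>
    match m, ih with
    | 0, _ => simp [tp]
    | 1, _ => simp [tp]
    | (m + 2), ih =>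
      rw [tp]
      refine totalDegree_finsetSum_le fun j _ => totalDegree_finsetSum_le fun k _ => ?_
      refine (totalDegree_mul _ _).trans ?_
      have h1 : (∑ a : Fin (m + 1), tp K L (a.1 + 1) j * tp K L (m + 1 - a.1) k).totalDegree
          ≤ 2 * m + 2 := by
        refine totalDegree_finsetSum_le fun a _ => ?_
        refine (totalDegree_mul _ _).trans ?_
        have := ih (a.1 + 1) (by have := a.2; omega) j
        have := ih (m + 1 - a.1) (by omega) k
        have := a.2
        omega
      rw [totalDegree_X]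
      omega

/-- The total solution, truncated at trees with at most `N` leaves. -/
noncomputable def tsum (K : Type u) [CommSemiring K] (L : Type) [Fintype L] (N : ℕ) (i : L) :
    MvPolynomial (TVar L) K := ∑ m ∈ Finset.range (N + 1), tp K L m i

theorem totalDegree_tsum (K : Type u) [CommSemiring K] [Nontrivial K] (L : Type) [Fintype L]
    (N : ℕ) (i : L) : (tsum K L N i).totalDegree ≤ 2 * N := by
  refine totalDegree_finsetSum_le fun m hm => (totalDegree_tp K L m i).trans ?_
  have := Finset.mem_range.1 hm
  omega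

/-- Numbering of the variables. -/
def tvarEquiv (N : ℕ) : TVar (Fin N) ≃ Fin (N + N * (N * N)) :=
  (Equiv.sumCongr (Equiv.refl (Fin N))
    ((Equiv.prodCongr (Equiv.refl (Fin N)) finProdFinEquiv).trans finProdFinEquiv)).trans
    finSumFinEquiv

/-- The number of variables of the `n`-th member of the tree family. -/
def nvar (n : ℕ) : ℕ := (n + 1) + (n + 1) * ((n + 1) * (n + 1))

/-- The `n`-th member of the tree family: the first unknown in the truncated solution, at trees
with at most `n + 1` leaves, of the generic quadratic system with `n + 1` unknowns. -/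
noncomputable def treePoly (K : Type u) [CommSemiring K] (n : ℕ) :
    MvPolynomial (Fin (nvar n)) K :=
  rename (tvarEquiv (n + 1)) (tsum K (Fin (n + 1)) (n + 1) 0)

/-- The family of truncated solutions of generic quadratic systems. -/
noncomputable def treeFamily (K : Type u) [CommSemiring K] [Nontrivial K] : PFamily K where
  v := nvar
  f := treePoly K
  v_bdd := ⟨(Polynomial.X + 1) + (Polynomial.X + 1) * ((Polynomial.X + 1) * (Polynomial.X + 1)),
    fun n => by simp [nvar]⟩
  deg_bdd := ⟨2 * (Polynomial.X + 1), fun n => by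
    refine (totalDegree_rename_le _ _).trans ((totalDegree_tsum K _ _ _).trans ?_)
    simp⟩

/-! ### The truncated solution is easy to compute -/

section membership

variable (K : Type u) [CommSemiring K] (L : Type) [Fintype L]

theorem der_tp (m : ℕ) (i : L) (l : List (MvPolynomial (TVar L) K))
    (hl : ∀ m' < m, ∀ i : L, tp K L m' i ∈ l) :
    ∃ l', Der l ((Fintype.card L * Fintype.card L) * (2 * m + 4) + 1) l' ∧ tp K L m i ∈ l' := by
  match m, hl with
  | 0, hl =>
    refine ⟨C 0 :: l, ⟨((Der.refl l).step (Step.const 0)).1, ((Der.refl l).step (Step.const 0)).2.1,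
      ?_⟩, ?_⟩
    · simp
    · simp [tp]
  | 1, hl =>
    refine ⟨X (Sum.inl i) :: l, ⟨((Der.refl l).step (Step.var (Sum.inl i))).1,
      ((Der.refl l).step (Step.var (Sum.inl i))).2.1, ?_⟩, ?_⟩
    · simp
    · simp [tp]
  | (m + 2), hl =>
    -- derive the inner sums
    obtain ⟨l1, h1, h1'⟩ := Der.all (Finset.univ : Finset (L × L))
      (fun t => ∑ a : Fin (m + 1), tp K L (a.1 + 1) t.1 * tp K L (m + 1 - a.1) t.2)
      (2 * (m + 1) + 1) l (by
        intro t _ l1 hl1
        obtain ⟨l', h, h'⟩ := Der.sum_mul (Finset.univ : Finset (Fin (m + 1)))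
          (fun a => tp K L (a.1 + 1) t.1) (fun a => tp K L (m + 1 - a.1) t.2) l1
          (fun a _ => hl1 (hl _ (by have := a.2; omega) _))
          (fun a _ => hl1 (hl _ (by omega) _))
        exact ⟨l', by simpa using h, h'⟩)
    -- derive the variables
    obtain ⟨l2, h2, h2'⟩ := Der.all (Finset.univ : Finset (L × L))
      (fun t => (X (Sum.inr (i, t.1, t.2)) : MvPolynomial (TVar L) K)) 1 l1 (by
        intro t _ l2 _
        exact ⟨_, (Der.refl l2).step (Step.var (Sum.inr (i, t.1, t.2))), List.mem_cons_self⟩)
    obtain ⟨l3, h3, h3'⟩ := Der.sum_mul (Finset.univ : Finset (L × L))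
      (fun t => (X (Sum.inr (i, t.1, t.2)) : MvPolynomial (TVar L) K))
      (fun t => ∑ a : Fin (m + 1), tp K L (a.1 + 1) t.1 * tp K L (m + 1 - a.1) t.2) l2
      (fun t ht => h2' t ht) (fun t ht => h2.2.1 (h1' t ht))
    refine ⟨l3, ?_, ?_⟩
    · have h4 := (h1.trans h2).trans h3
      refine ⟨h4.1, h4.2.1, h4.2.2.trans ?_⟩
      simp only [Finset.card_univ, Fintype.card_prod]
      have : ∀ c m : ℕ, c * (2 * (m + 1) + 1) + c * 1 + (2 * c + 1) ≤ c * (2 * (m + 2) + 4) + 1 := by
        intro c m
        nlinarith
      have := this (Fintype.card L * Fintype.card L) m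
      omega
    · rw [Fintype.sum_prod_type] at h3'
      rw [tp]
      exact h3'

theorem der_tp_all (N : ℕ) :
    ∃ l' : List (MvPolynomial (TVar L) K),
      Der [] (N * (Fintype.card L * ((Fintype.card L * Fintype.card L) * (2 * N + 4) + 1))) l' ∧
      ∀ m < N, ∀ i : L, tp K L m i ∈ l' := by
  have key : ∀ N', N' ≤ N → ∃ l' : List (MvPolynomial (TVar L) K),
      Der [] (N' * (Fintype.card L * ((Fintype.card L * Fintype.card L) * (2 * N + 4) + 1))) l' ∧
      ∀ m < N', ∀ i : L, tp K L m i ∈ l' := by
    intro N'
    induction N' with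
    | zero =>
      intro _
      refine ⟨[], by simpa using Der.refl _, ?_⟩
      intro m hm
      omega
    | succ N' ih =>
      intro hN'
      obtain ⟨l1, h1, h1'⟩ := ih (by omega)
      obtain ⟨l2, h2, h2'⟩ := Der.all (Finset.univ : Finset L) (fun i => tp K L N' i)
        ((Fintype.card L * Fintype.card L) * (2 * N + 4) + 1) l1 (by
          intro i _ l2 hl2
          obtain ⟨l3, h3, h3'⟩ := der_tp K L N' i l2 (fun m' hm' i => hl2 (h1' m' hm' i))
          refine ⟨l3, ⟨h3.1, h3.2.1, h3.2.2.trans ?_⟩, h3'⟩
          gcongr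
          omega)
      refine ⟨l2, ?_, ?_⟩
      · have h4 := h1.trans h2
        refine ⟨h4.1, h4.2.1, h4.2.2.trans ?_⟩
        rw [Finset.card_univ]
        ring_nf
        exact le_rfl
      · intro m hm i
        rcases Nat.lt_succ_iff_lt_or_eq.1 hm with h | rfl
        · exact h2.2.1 (h1' m h i)
        · exact h2' i (Finset.mem_univ i)
  exact key N le_rfl

theorem der_tsum (N : ℕ) (i : L) :
    ∃ l' : List (MvPolynomial (TVar L) K), SLP l' ∧ tsum K L N i ∈ l' ∧
      l'.length ≤ (N + 1) * (Fintype.card L * ((Fintype.card L * Fintype.card L) *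
        (2 * (N + 1) + 4) + 1)) + (2 * (N + 1) + 2) := by
  obtain ⟨l1, h1, h1'⟩ := der_tp_all K L (N + 1)
  have h2 := h1.step (Step.const (1 : K))
  obtain ⟨l3, h3, h3'⟩ := Der.sum_mul (Finset.range (N + 1)) (fun _ => (C 1 : MvPolynomial (TVar L) K))
    (fun m => tp K L m i) (C 1 :: l1) (fun _ _ => List.mem_cons_self)
    (fun m hm => List.mem_cons_of_mem _ (h1' m (Finset.mem_range.1 hm) i))
  have h4 := h2.trans h3
  refine ⟨l3, h4.1 SLP.nil, ?_, ?_⟩
  · simpa [tsum] using h3'
  · refine h4.2.2.trans ?_
    simp only [List.length_nil, Finset.card_range]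
    omega

end membership

end Pool.Agent.H80
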